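import Pool.Agent.KE.ExpAlg
import Pool.Agent.KNL.PTime
import Pool.Agent.Lib.PolyTime.Iter

/-! The language of exponentiation is decided in polynomial time. -/

namespace Pool.Agent.KE

open Pool.Agent.PolyTime Pool.Agent.KNL

namespace PTimeAux

/-! ### The calculus -/

theorem pfBits_of_pd {L : List Bool → ℕ} {Q : List Bool → ℕ → Prop}
    [∀ x i, Decidable (Q x i)]
    (hL : PF (fun x (_ : Unit) => L x)) (hQ : PD (fun x (p : Unit × ℕ) => Q x p.2)) :
    PFBits (fun x => (List.range (L x)).map (fun i => decide (Q x i))) := by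
  obtain ⟨F, hF, hFQ⟩ := hQ
  refine ⟨L, fun x i => F x ((), i), hL, hF.congr fun x p => rfl, fun x => ?_⟩
  show (List.range (L x)).map (fun i => decide (Q x i)) = _
  refine List.map_congr_left fun i _ => ?_
  rw [decide_eq_decide]
  exact hFQ x ((), i)

theorem getD_map_range (L : ℕ) (g : ℕ → Bool) (P : ℕ) :
    ((List.range L).map g).getD P false = if P < L then g P else false := by
  rw [List.getD_eq_getElem?_getD]
  by_cases h : P < L
  · rw [List.getElem?_map, List.getElem?_range h, if_pos h]
    simp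
  · rw [List.getElem?_eq_none (by simpa using Nat.le_of_not_lt h), if_neg h]
    simp

/-! ### The state -/

/-- length of the word that belongs to a state -/
def N0 (y : List Bool) : ℕ := Nat.sqrt y.length / 2

/-- number of digits of the exponent -/
def nn (y : List Bool) : ℕ := N0 y / 28

/-- length of the registers -/
def MM (y : List Bool) : ℕ := 9 * (N0 y / 28)

/-- the bit in row `r` and column `c` of the table -/
def bt (y : List Bool) (r c : ℕ) : ℕ := (y.getD (r * (2 * N0 y) + c) false).toNat

/-- coefficients of the factor for the digit `j` -/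
def selb (y : List Bool) (j s : ℕ) : ℕ :=
  if bt y 0 (3 * MM y + (nn y - j)) = 1 then bt y 0 (MM y + s) else if s = 0 then 1 else 0

/-- new value of the power of `X` -/
def valT (y : List Bool) (r c : ℕ) : ℕ :=
  if r = 1 then (if c = 0 then 1 else 0) else
    ((if c = 0 then 0 else bt y (r - 1) (c - 1)) + bt y (r - 1) (MM y - 1) * bt y 0 c) % 2

/-- new value of the power of `a` -/
def valR (y : List Bool) (r c : ℕ) : ℕ :=
  if r = 3 * MM y + 1 then (if c = 0 then 1 else 0) else
    (∑ p ∈ Finset.range (MM y), ∑ q ∈ Finset.range (MM y), ∑ s ∈ Finset.range (MM y),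
      bt y (r - 1) p * bt y (r - 1) q * selb y (r - 1 - 3 * MM y) s * bt y (1 + (p + q + s)) c) % 2

/-- the new value in row `r` and column `c` -/
def val (y : List Bool) (r c : ℕ) : ℕ :=
  if r = 0 then bt y 0 c else if r ≤ 3 * MM y then valT y r c else valR y r c

/-- the new value of the bit `P` -/
def Q (y : List Bool) (P : ℕ) : Prop := val y (P / (2 * N0 y)) (P % (2 * N0 y)) = 1

/-- the final test -/
def Fin2 (y : List Bool) : Prop :=
  (∑ i ∈ Finset.range (MM y), bt y 0 (2 * MM y + i) * bt y (3 * MM y + 1 + nn y) i) % 2 = 1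

section
variable {α : Type} [Ctx α]

theorem pf_N0 : PF (fun y (_ : α) => N0 y) := (PF.sqrt PF.len).div (PF.const 2)

theorem pf_nn : PF (fun y (_ : α) => nn y) := pf_N0.div (PF.const 28)

theorem pf_MM : PF (fun y (_ : α) => MM y) := (PF.const 9).mul (pf_N0.div (PF.const 28))

theorem pf_bt {R C : List Bool → α → ℕ} (hR : PF R) (hC : PF C) :
    PF (fun y a => bt y (R y a) (C y a)) :=
  PF.inp ((hR.mul ((PF.const 2).mul pf_N0)).add hC)

theorem pf_selb {J S : List Bool → α → ℕ} (hJ : PF J) (hS : PF S) :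
    PF (fun y a => selb y (J y a) (S y a)) :=
  PF.ite (PD.eq (pf_bt (PF.const 0) (((PF.const 3).mul pf_MM).add (pf_nn.sub hJ))) (PF.const 1))
    (pf_bt (PF.const 0) (pf_MM.add hS)) (PF.ite (PD.eq hS (PF.const 0)) (PF.const 1) (PF.const 0))

theorem pf_valT {R C : List Bool → α → ℕ} (hR : PF R) (hC : PF C) :
    PF (fun y a => valT y (R y a) (C y a)) :=
  PF.ite (PD.eq hR (PF.const 1)) (PF.ite (PD.eq hC (PF.const 0)) (PF.const 1) (PF.const 0))
    (((PF.ite (PD.eq hC (PF.const 0)) (PF.const 0)
      (pf_bt (hR.sub (PF.const 1)) (hC.sub (PF.const 1)))).add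
      ((pf_bt (hR.sub (PF.const 1)) (pf_MM.sub (PF.const 1))).mul (pf_bt (PF.const 0) hC))).mod
        (PF.const 2))

theorem pf_valR {R C : List Bool → α → ℕ} (hR : PF R) (hC : PF C) :
    PF (fun y a => valR y (R y a) (C y a)) := by
  have h3 : PF (fun (y : List Bool) (t : ((α × ℕ) × ℕ) × ℕ) =>
      bt y (R y t.1.1.1 - 1) t.1.1.2 * bt y (R y t.1.1.1 - 1) t.1.2 *
        selb y (R y t.1.1.1 - 1 - 3 * MM y) t.2 * bt y (1 + (t.1.1.2 + t.1.2 + t.2))
          (C y t.1.1.1)) := by
    have hr := (hR.sub (PF.const 1)).fst.fst.fst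
    have hp : PF (fun (_ : List Bool) (t : ((α × ℕ) × ℕ) × ℕ) => t.1.1.2) := PF.snd.fst.fst
    have hq : PF (fun (_ : List Bool) (t : ((α × ℕ) × ℕ) × ℕ) => t.1.2) := PF.snd.fst
    have hs : PF (fun (_ : List Bool) (t : ((α × ℕ) × ℕ) × ℕ) => t.2) := PF.snd
    exact (((pf_bt hr hp).mul (pf_bt hr hq)).mul
      (pf_selb (hr.sub ((PF.const 3).mul pf_MM)) hs)).mul
      (pf_bt ((PF.const 1).add ((hp.add hq).add hs)) hC.fst.fst.fst)
  have h2 : PF (fun (y : List Bool) (t : (α × ℕ) × ℕ) => ∑ s ∈ Finset.range (MM y),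
      bt y (R y t.1.1 - 1) t.1.2 * bt y (R y t.1.1 - 1) t.2 *
        selb y (R y t.1.1 - 1 - 3 * MM y) s * bt y (1 + (t.1.2 + t.2 + s)) (C y t.1.1)) :=
    PF.sum pf_MM h3
  have h1 : PF (fun (y : List Bool) (t : α × ℕ) => ∑ q ∈ Finset.range (MM y),
      ∑ s ∈ Finset.range (MM y), bt y (R y t.1 - 1) t.2 * bt y (R y t.1 - 1) q *
        selb y (R y t.1 - 1 - 3 * MM y) s * bt y (1 + (t.2 + q + s)) (C y t.1)) :=
    PF.sum pf_MM h2
  exact PF.ite (PD.eq hR (((PF.const 3).mul pf_MM).add (PF.const 1)))
    (PF.ite (PD.eq hC (PF.const 0)) (PF.const 1) (PF.const 0))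
    ((PF.sum pf_MM h1).mod (PF.const 2))

theorem pf_val {R C : List Bool → α → ℕ} (hR : PF R) (hC : PF C) :
    PF (fun y a => val y (R y a) (C y a)) :=
  PF.ite (PD.eq hR (PF.const 0)) (pf_bt (PF.const 0) hC)
    (PF.ite (PD.le hR ((PF.const 3).mul pf_MM)) (pf_valT hR hC) (pf_valR hR hC))

end

theorem pd_Q : PD (fun (y : List Bool) (p : Unit × ℕ) => Q y p.2) :=
  PD.eq (pf_val (PF.snd.div ((PF.const 2).mul pf_N0)) (PF.snd.mod ((PF.const 2).mul pf_N0)))
    (PF.const 1)

theorem pd_Fin2 : PD (fun (y : List Bool) (_ : Unit) => Fin2 y) := by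
  have h : PF (fun (y : List Bool) (p : Unit × ℕ) =>
      bt y 0 (2 * MM y + p.2) * bt y (3 * MM y + 1 + nn y) p.2) :=
    (pf_bt (PF.const 0) (((PF.const 2).mul pf_MM).add PF.snd)).mul
      (pf_bt ((((PF.const 3).mul pf_MM).add (PF.const 1)).add pf_nn) PF.snd)
  exact PD.eq ((PF.sum pf_MM h).mod (PF.const 2)) (PF.const 1)

/-! ### The functions -/

open Classical in
/-- the word followed by zeros -/
noncomputable def ini (x : List Bool) : List Bool :=
  (List.range ((2 * x.length) ^ 2)).map (fun i => decide (x.getD i false = true))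

open Classical in
/-- one step -/
noncomputable def stp (y : List Bool) : List Bool :=
  (List.range y.length).map (fun i => decide (Q y i))

theorem pc_ini : PC ini := by
  classical
  exact (pfBits_of_pd (L := fun x => (2 * x.length) ^ 2) (((PF.const 2).mul PF.len).pow 2)
    (Q := fun x i => x.getD i false = true) (PD.bit PF.snd)).pc

theorem pfBits_stp : PFBits stp := by
  classical
  exact pfBits_of_pd (L := fun x => x.length) PF.len (Q := Q) pd_Q

theorem len_ini (x : List Bool) : (ini x).length = (2 * x.length) ^ 2 := by simp [ini]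

theorem len_stp (x : List Bool) : (stp x).length = x.length := by simp [stp]

theorem N0_of {x y : List Bool} (h : y.length = (2 * x.length) ^ 2) : N0 y = x.length := by
  unfold N0
  rw [h, Nat.sqrt_eq']
  omega

theorem bt_ini (x : List Bool) {c : ℕ} (hc : c < 2 * x.length) :
    bt (ini x) 0 c = (x.getD c false).toNat := by
  classical
  unfold bt ini
  rw [getD_map_range, if_pos]
  · simp
  · have : 2 * x.length ≤ (2 * x.length) ^ 2 := Nat.le_self_pow (by norm_num) _
    simp only [zero_mul, zero_add]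
    omega

theorem bt_le (y : List Bool) (r c : ℕ) : bt y r c ≤ 1 := Bool.toNat_le _

theorem valT_le (y : List Bool) (r c : ℕ) : valT y r c ≤ 1 := by
  unfold valT
  split_ifs
  · exact le_rfl
  · exact Nat.zero_le _
  · omega
  · omega

theorem valR_le (y : List Bool) (r c : ℕ) : valR y r c ≤ 1 := by
  unfold valR
  split_ifs
  · exact le_rfl
  · exact Nat.zero_le _
  · omega

theorem val_le (y : List Bool) (r c : ℕ) : val y r c ≤ 1 := by
  unfold val
  split_ifs
  · exact bt_le _ _ _
  · exact valT_le _ _ _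
  · exact valR_le _ _ _

theorem bt_stp {x y : List Bool} (h : y.length = (2 * x.length) ^ 2) {r c : ℕ}
    (hr : r < 2 * x.length) (hc : c < 2 * x.length) : bt (stp y) r c = val y r c := by
  classical
  have hN : N0 y = x.length := N0_of h
  have hN' : N0 (stp y) = x.length := N0_of (by rw [len_stp, h])
  have hlt : r * (2 * x.length) + c < y.length := by
    rw [h, pow_two]
    calc r * (2 * x.length) + c < r * (2 * x.length) + 2 * x.length := by omega
      _ = (r + 1) * (2 * x.length) := by ring
      _ ≤ _ := Nat.mul_le_mul_right _ hr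
  have e1 : (r * (2 * x.length) + c) / (2 * x.length) = r := by
    rw [mul_comm, Nat.mul_add_div (by omega), Nat.div_eq_of_lt hc, add_zero]
  have e2 : (r * (2 * x.length) + c) % (2 * x.length) = c := by
    rw [mul_comm, Nat.mul_add_mod, Nat.mod_eq_of_lt hc]
  unfold bt
  rw [hN']
  unfold stp
  rw [getD_map_range, if_pos hlt]
  unfold Q
  rw [hN, e1, e2]
  have := val_le y r c
  by_cases h1 : val y r c = 1
  · simp [h1]
  · have h0 : val y r c = 0 := by omega
    simp [h0]

/-! ### The invariant -/

open Polynomial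

theorem toNat_cast (b : Bool) : ((b.toNat : ℕ) : ZMod 2) = zb b := by
  cases b <;> simp [zb]

theorem mod2_cast (m : ℕ) : ((m % 2 : ℕ) : ZMod 2) = (m : ZMod 2) := by
  rw [ZMod.natCast_mod]

theorem inv (x : List Bool) (hx : 28 ≤ x.length) (k : ℕ) :
    (stp^[k] (ini x)).length = (2 * x.length) ^ 2 ∧
    (∀ c < 2 * x.length, bt (stp^[k] (ini x)) 0 c = (x.getD c false).toNat) ∧
    (∀ l < 3 * (9 * (x.length / 28)), l + 1 ≤ k → ∀ i < 9 * (x.length / 28),
      ((bt (stp^[k] (ini x)) (1 + l) i : ℕ) : ZMod 2) =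
        ((X ^ l : (ZMod 2)[X]) %ₘ modu (9 * (x.length / 28)) (fun i => x.getD i false)).coeff i) ∧
    (∀ j ≤ x.length / 28, 3 * (9 * (x.length / 28)) + j + 1 ≤ k → ∀ i < 9 * (x.length / 28),
      ((bt (stp^[k] (ini x)) (3 * (9 * (x.length / 28)) + 1 + j) i : ℕ) : ZMod 2) =
        ((polyOf (9 * (x.length / 28)) (fun i => x.getD (9 * (x.length / 28) + i) false) ^
          topExp (x.length / 28) (fun i => x.getD (3 * (9 * (x.length / 28)) + i) false) j) %ₘ
            modu (9 * (x.length / 28)) (fun i => x.getD i false)).coeff i) := by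
  induction k with
  | zero =>
    refine ⟨len_ini x, fun c hc => bt_ini x hc, ?_, ?_⟩
    · intro l _ h; omega
    · intro j _ h; omega
  | succ k ih =>
    obtain ⟨h1, h2, h3, h4⟩ := ih
    rw [Function.iterate_succ_apply']
    obtain ⟨y, hy⟩ : ∃ y, y = stp^[k] (ini x) := ⟨_, rfl⟩
    rw [← hy] at h1 h2 h3 h4 ⊢
    have hN : N0 y = x.length := N0_of h1
    obtain ⟨N, hNx⟩ : ∃ N, N = x.length := ⟨_, rfl⟩
    obtain ⟨n, hn⟩ : ∃ n, n = x.length / 28 := ⟨_, rfl⟩
    obtain ⟨M, hM⟩ : ∃ M, M = 9 * (x.length / 28) := ⟨_, rfl⟩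
    have hMM : MM y = M := by unfold MM; rw [hN, hM]
    have hnn : nn y = n := by unfold nn; rw [hN, hn]
    have hM1 : 1 ≤ M := by omega
    have hMN : 3 * M + n ≤ x.length := by omega
    rw [← hM] at h3 h4 ⊢
    rw [← hn] at h4 ⊢
    refine ⟨by rw [len_stp, h1], ?_, ?_, ?_⟩
    · intro c hc
      rw [bt_stp h1 (by omega) hc]
      unfold val
      rw [if_pos rfl]
      exact h2 c hc
    · intro l hl hlk i hi
      rw [bt_stp h1 (by omega) (by omega)]
      unfold val
      rw [if_neg (by omega), hMM, if_pos (by omega)]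
      unfold valT
      rcases Nat.eq_zero_or_pos l with rfl | hl0
      · rw [if_pos (by omega), row_zero hM1 _ hi]
        split_ifs <;> simp
      · obtain ⟨l', rfl⟩ : ∃ l', l = l' + 1 := ⟨l - 1, by omega⟩
        rw [if_neg (by omega), mod2_cast, row_succ hM1 _ _ hi, hMM]
        have e1 : 1 + (l' + 1) - 1 = 1 + l' := by omega
        rw [e1, Nat.cast_add, Nat.cast_mul, h3 l' (by omega) (by omega) (M - 1) (by omega),
          h2 i (by omega), toNat_cast]
        congr 1
        split_ifs with hi0
        · simp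
        · exact h3 l' (by omega) (by omega) (i - 1) (by omega)
    · intro j hj hjk i hi
      rw [bt_stp h1 (by omega) (by omega)]
      unfold val
      rw [if_neg (by omega), hMM, if_neg (by omega)]
      unfold valR
      rw [hMM]
      rcases Nat.eq_zero_or_pos j with rfl | hj0
      · rw [if_pos (by omega), pow_zero_row hM1 _ _ _ hi]
        split_ifs <;> simp
      · obtain ⟨j', rfl⟩ : ∃ j', j = j' + 1 := ⟨j - 1, by omega⟩
        rw [if_neg (by omega), mod2_cast, pow_succ_row hM1 _ _ _ (by omega) hi]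
        have e1 : 3 * M + 1 + (j' + 1) - 1 = 3 * M + 1 + j' := by omega
        have e2 : 3 * M + 1 + j' - 3 * M = j' + 1 := by omega
        rw [e1, e2]
        push_cast
        refine Finset.sum_congr rfl fun p hp => Finset.sum_congr rfl fun q hq =>
          Finset.sum_congr rfl fun s hs => ?_
        have hp' := Finset.mem_range.1 hp
        have hq' := Finset.mem_range.1 hq
        have hs' := Finset.mem_range.1 hs
        rw [h4 j' (by omega) (by omega) p hp', h4 j' (by omega) (by omega) q hq',
          h3 (p + q + s) (by omega) (by omega) i hi]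
        congr 2
        unfold selb
        rw [hMM, hnn, h2 _ (by omega), h2 _ (by omega)]
        cases hx1 : x.getD (3 * M + (n - (j' + 1))) false
        · simp [zb]
        · simp [toNat_cast]

theorem fin2_iff (x : List Bool) : Fin2 (stp^[(ini x).length] (ini x)) ↔ Lang x := by
  obtain ⟨y, hy⟩ : ∃ y, y = stp^[(ini x).length] (ini x) := ⟨_, rfl⟩
  have hlen : ∀ k, (stp^[k] (ini x)).length = (2 * x.length) ^ 2 := by
    intro k
    induction k with
    | zero => exact len_ini x
    | succ k ih => rw [Function.iterate_succ_apply', len_stp, ih]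
  have hN : N0 y = x.length := N0_of (by rw [hy]; exact hlen _)
  rw [← hy]
  unfold Fin2 Lang expBit
  have hMM : MM y = 9 * (x.length / 28) := by unfold MM; rw [hN]
  have hnn : nn y = x.length / 28 := by unfold nn; rw [hN]
  rw [hMM, hnn]
  by_cases hx : 28 ≤ x.length
  · obtain ⟨_, h2, _, h4⟩ := inv x hx (ini x).length
    rw [← hy] at h2 h4
    have hbig : 3 * (9 * (x.length / 28)) + x.length / 28 + 1 ≤ (ini x).length := by
      rw [len_ini]
      have : 2 * x.length ≤ (2 * x.length) ^ 2 := Nat.le_self_pow (by norm_num) _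
      omega
    have h5 := h4 (x.length / 28) le_rfl hbig
    rw [topExp_self] at h5
    have e : ∀ m : ℕ, m % 2 = 1 ↔ (m : ZMod 2) = 1 := by
      intro m
      rw [← mod2_cast]
      rcases Nat.mod_two_eq_zero_or_one m with h | h <;> rw [h] <;> simp
    rw [e]
    push_cast
    rw [Finset.sum_congr rfl fun i hi => by
      have hi' := Finset.mem_range.1 hi
      rw [h2 (2 * (9 * (x.length / 28)) + i) (by omega), h5 i hi', toNat_cast]]
    unfold zb modu
    simp only [ite_mul, one_mul, zero_mul]
  · have h0 : x.length / 28 = 0 := by omega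
    rw [h0]
    simp

end PTimeAux

open PTimeAux in
/-- The language of exponentiation is in P. -/
theorem inP_lang : Pool.Agent.KNL.InP Lang := by
  classical
  refine ⟨fun w => decide (Lang w), fun w => by simp, ?_⟩
  have h1 : PC (fun y => stp^[y.length] y) :=
    pfBits_stp.iterate (fun x => (len_stp x).le) (c := fun y => y.length) PF.len
  have h2 : PC (fun y : List Bool => [decide (Fin2 y)]) := by
    have h3 : PFBits (fun y : List Bool => (List.range 1).map (fun _ => decide (Fin2 y))) :=
      pfBits_of_pd (L := fun _ => 1) (Q := fun y _ => Fin2 y) (PF.const 1) pd_Fin2.fst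
    exact h3.pc.congr fun x => by simp [List.range_succ]
  have h4 := (h2.comp (h1.comp pc_ini))
  refine (h4.congr fun x => ?_).polyTime
  rw [decide_eq_decide.mpr (fin2_iff x)]

end Pool.Agent.KE
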