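import Pool.Agent.KD.Ev

/-! Deterministic programs without stack: the accepted inputs are divided into classes given by
skeletons of the computation, with certificates for the segments. -/

namespace Pool.Agent.KE

open Pool.Agent.SemRO Pool.Agent.KNL Pool.Agent.KD

variable {V I : Type}

/-- walks to the node `w` that use no stack -/
inductive Pth {Γ : Type} (P : SBP V Γ I) (x : I → Bool) (w : V) : V → List I → Prop
  | nil : Pth P x w w []
  | free {u v : V} {l : List I} : P.free u v → Pth P x w v l → Pth P x w u l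
  | test {u v : V} {i : I} {l : List I} : P.test u i (x i) v → Pth P x w v l →
      Pth P x w u (i :: l)

/-- segments of a walk: they end right after `m` tests, or in the accepting node -/
inductive Seg {Γ : Type} (P : SBP V Γ I) (x : I → Bool) : ℕ → V → V → List I → Prop
  | done (u : V) : Seg P x 0 u u []
  | acc (m : ℕ) : Seg P x m P.acc P.acc []
  | free {m : ℕ} {u v w : V} {l : List I} : P.free u v → Seg P x (m + 1) v w l →
      Seg P x (m + 1) u w l
  | test {m : ℕ} {u v w : V} {i : I} {l : List I} : P.test u i (x i) v → Seg P x m v w l →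
      Seg P x (m + 1) u w (i :: l)

section General

variable {Γ : Type} {P : SBP V Γ I} {x x' : I → Bool}

lemma Seg.unique (hP : Det P) {m : ℕ} {u w : V} {l : List I} (h : Seg P x m u w l) :
    ∀ {w' : V} {l' : List I}, Seg P x m u w' l' → w = w' ∧ l = l' := by
  induction h with
  | done u =>
    intro w' l' h'
    cases h' with
    | done => exact ⟨rfl, rfl⟩
    | acc => exact ⟨rfl, rfl⟩
  | acc m =>
    intro w' l' h'
    cases h' with
    | done => exact ⟨rfl, rfl⟩
    | acc => exact ⟨rfl, rfl⟩
    | free h => exact absurd h hP.acc_free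
    | test h => exact absurd h hP.acc_test
  | free h _ ih =>
    intro w' l' h'
    cases h' with
    | acc => exact absurd h hP.acc_free
    | free h' h'' =>
      obtain rfl := hP.free_free h h'
      exact ih h''
    | test h' => exact absurd h' (hP.free_test h)
  | test h _ ih =>
    intro w' l' h'
    cases h' with
    | acc => exact absurd h hP.acc_test
    | free h' => exact absurd h (hP.free_test h')
    | test h' h'' =>
      obtain ⟨rfl, h3⟩ := hP.test_test h h'
      obtain rfl := h3 rfl
      obtain ⟨h4, h5⟩ := ih h''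
      exact ⟨h4, by rw [h5]⟩

lemma Seg.local {m : ℕ} {u w : V} {l : List I} (h : Seg P x m u w l) (hx : ∀ i ∈ l, x i = x' i) :
    Seg P x' m u w l := by
  induction h with
  | done u => exact .done u
  | acc m => exact .acc m
  | free h _ ih => exact .free h (ih hx)
  | @test m u v w i l h _ ih =>
    refine .test ?_ (ih fun j hj => hx j (List.mem_cons_of_mem _ hj))
    rw [← hx i (List.mem_cons_self ..)]
    exact h

lemma Seg.length_le {m : ℕ} {u w : V} {l : List I} (h : Seg P x m u w l) : l.length ≤ m := by
  induction h with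
  | done u => simp
  | acc m => simp
  | free _ _ ih => exact ih
  | test _ _ ih => simpa using ih

lemma Pth.trans {u v w : V} {l l' : List I} (h : Pth P x v u l) (h' : Pth P x w v l') :
    Pth P x w u (l ++ l') := by
  induction h with
  | nil => exact h'
  | free h _ ih => exact .free h ih
  | test h _ ih => exact .test h ih

lemma Seg.pth {m : ℕ} {u w : V} {l : List I} (h : Seg P x m u w l) : Pth P x w u l := by
  induction h with
  | done u => exact .nil
  | acc m => exact .nil
  | free h _ ih => exact .free h ih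
  | test h _ ih => exact .test h ih

/-- the first segment of a walk to the accepting node -/
lemma Pth.first {u : V} {l : List I} (h : Pth P x P.acc u l) :
    ∀ m : ℕ, ∃ w, Seg P x m u w (l.take m) ∧ Pth P x P.acc w (l.drop m) ∧
      (l.length < m → w = P.acc) := by
  induction h with
  | nil => exact fun m => ⟨P.acc, by simpa using Seg.acc m, by simpa using Pth.nil, fun _ => rfl⟩
  | @free u v l h h0 ih =>
    intro m
    cases m with
    | zero => exact ⟨u, by simpa using Seg.done u, by simpa using Pth.free h h0, by simp⟩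
    | succ m =>
      obtain ⟨w, h1, h2, h3⟩ := ih (m + 1)
      exact ⟨w, .free h h1, h2, h3⟩
  | @test u v i l h h0 ih =>
    intro m
    cases m with
    | zero => exact ⟨u, by simpa using Seg.done u, by simpa using Pth.test h h0, by simp⟩
    | succ m =>
      obtain ⟨w, h1, h2, h3⟩ := ih m
      refine ⟨w, by simpa using Seg.test h h1, by simpa using h2, fun h4 => h3 ?_⟩
      simpa using h4

/-- the segments of a walk to the accepting node -/
lemma exists_chain (s : ℕ) (hP : Det P) : ∀ (R : ℕ) {u : V} {l : List I},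
    Pth P x P.acc u l → (l.length < R * s ∨ u = P.acc) →
    ∃ (v : Fin (R + 1) → V) (len : Fin R → Fin (s + 1)), v 0 = u ∧ v (Fin.last R) = P.acc ∧
      (∑ j, (len j : ℕ)) ≤ l.length ∧
      ∀ j : Fin R, ∃ l', Seg P x s (v j.castSucc) (v j.succ) l' ∧ l'.length = len j := by
  intro R
  induction R with
  | zero =>
    intro u l _ h
    have hu : u = P.acc := by
      rcases h with h | h
      · simp at h
      · exact h
    exact ⟨fun _ => u, Fin.elim0, rfl, hu, by simp, fun j => j.elim0⟩
  | succ R ih =>
    intro u l hp h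
    obtain ⟨w, h1, h2, h3⟩ := hp.first s
    have hw : (l.drop s).length < R * s ∨ w = P.acc := by
      by_cases hl : l.length < s
      · exact Or.inr (h3 hl)
      · rcases h with h | h
        · left
          rw [List.length_drop]
          have : (R + 1) * s = R * s + s := by ring
          omega
        · right
          subst h
          exact (h1.unique hP (Seg.acc s)).1
    obtain ⟨v, len, hv0, hvR, hsum, hseg⟩ := ih h2 hw
    refine ⟨Fin.cons u v, Fin.cons ⟨(l.take s).length, ?_⟩ len, rfl, ?_, ?_, ?_⟩
    · have := h1.length_le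
      omega
    · rw [← Fin.succ_last, Fin.cons_succ]
      exact hvR
    · rw [Fin.sum_univ_succ]
      simp only [Fin.cons_zero, Fin.cons_succ]
      have e1 : (l.take s).length + (l.drop s).length = l.length := by
        rw [← List.length_append, List.take_append_drop]
      omega
    · intro j
      refine Fin.cases ?_ (fun j => ?_) j
      · refine ⟨l.take s, ?_, rfl⟩
        simp only [Fin.castSucc_zero, Fin.cons_zero, Fin.cons_succ]
        rw [hv0]
        exact h1
      · obtain ⟨l', h4, h5⟩ := hseg j
        refine ⟨l', ?_, ?_⟩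
        · rw [← Fin.succ_castSucc, Fin.cons_succ, Fin.cons_succ]
          exact h4
        · rw [Fin.cons_succ]
          exact h5

/-- composition of segments -/
lemma pth_of_chain (s : ℕ) : ∀ (R : ℕ) (v : Fin (R + 1) → V) (len : Fin R → Fin (s + 1)),
    (∀ j : Fin R, ∃ l', Seg P x s (v j.castSucc) (v j.succ) l' ∧ l'.length = len j) →
    ∃ l, Pth P x (v (Fin.last R)) (v 0) l ∧ l.length = ∑ j, (len j : ℕ) := by
  intro R
  induction R with
  | zero => exact fun v len _ => ⟨[], .nil, by simp⟩
  | succ R ih =>
    intro v len h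
    obtain ⟨l1, h1, h2⟩ := ih (fun j => v j.succ) (fun j => len j.succ) fun j => by
      have := h j.succ
      rwa [← Fin.succ_castSucc] at this
    obtain ⟨l2, h3, h4⟩ := h 0
    refine ⟨l2 ++ l1, ?_, ?_⟩
    · have h5 := h3.pth
      simp only [Fin.castSucc_zero] at h5
      have := h5.trans h1
      rwa [Fin.succ_last] at this
    · rw [List.length_append, Fin.sum_univ_succ, h2, h4]

/-- uniqueness of the skeleton -/
lemma chain_unique (hP : Det P) (s : ℕ) : ∀ (R : ℕ) (v v' : Fin (R + 1) → V)
    (len len' : Fin R → Fin (s + 1)), v 0 = v' 0 →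
    (∀ j : Fin R, ∃ l', Seg P x s (v j.castSucc) (v j.succ) l' ∧ l'.length = len j) →
    (∀ j : Fin R, ∃ l', Seg P x s (v' j.castSucc) (v' j.succ) l' ∧ l'.length = len' j) →
    v = v' ∧ len = len' := by
  intro R v v' len len' h0 h h'
  have hv : ∀ j, v j = v' j := by
    intro j
    induction j using Fin.induction with
    | zero => exact h0
    | succ j ih =>
      obtain ⟨l1, h1, _⟩ := h j
      obtain ⟨l2, h2, _⟩ := h' j
      rw [ih] at h1
      exact (h1.unique hP h2).1
  refine ⟨funext hv, funext fun j => ?_⟩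
  obtain ⟨l1, h1, h3⟩ := h j
  obtain ⟨l2, h2, h4⟩ := h' j
  rw [hv] at h1
  obtain ⟨_, h5⟩ := h1.unique hP h2
  apply Fin.ext
  rw [← h3, ← h4, h5]

end General

/-! ### Programs without stack -/

lemma walk_of_pth {P : SBP V Empty I} {x : I → Bool} {u w : V} {l : List I}
    (h : Pth P x w u l) : P.Walk x u [] w [] l := by
  induction h with
  | nil => exact .nil _ _
  | free h _ ih => exact .free h ih
  | test h _ ih => exact .test h ih

lemma pth_of_walk {P : SBP V Empty I} {x : I → Bool} {u w : V} {σ τ : List Empty} {l : List I}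
    (h : P.Walk x u σ w τ l) : Pth P x w u l := by
  induction h with
  | nil => exact .nil
  | free h _ ih => exact .free h ih
  | test h _ ih => exact .test h ih
  | @push u v w a σ τ l h _ ih => exact a.elim
  | @pop u v w a σ τ l h _ ih => exact a.elim

/-- **The inputs accepted with at most `kn` tests, divided into classes with certificates.** -/
theorem split {n : ℕ} [Fintype V] (P : SBP V Empty (Fin n)) (hP : Det P) (s R kn : ℕ) (_hs : 1 ≤ s)
    (h : kn < R * s) :
    ∃ (ι : Type) (_ : Fintype ι) (W : ι → Finset (Fin n → Bool))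
      (c : ι → Fin R → (Fin n → Bool) → Fin n → Option Bool),
      Fintype.card ι ≤ (Fintype.card V) ^ (R + 1) * (s + 1) ^ R ∧
      (∀ i, ∀ z ∈ W i, ∀ j, Sub (c i j z) z) ∧
      (∀ i j, ∀ z ∈ W i, ∀ z' ∈ W i, Compat (c i j z) (c i j z') → c i j z = c i j z') ∧
      (∀ i u, (∀ j, ∃ w ∈ W i, Sub (c i j w) u) → u ∈ W i) ∧
      (∀ i, ∀ z ∈ W i, ∀ j, (dom (c i j z)).card ≤ s) ∧
      (∀ i i', i ≠ i' → Disjoint (W i) (W i')) ∧
      (∀ x, (∃ i, x ∈ W i) ↔ ∃ l, P.AccWalk x l ∧ l.length ≤ kn) := by
  classical
  let ι : Type := {p : (Fin (R + 1) → V) × (Fin R → Fin (s + 1)) //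
    p.1 0 = P.src ∧ p.1 (Fin.last R) = P.acc ∧ ∑ j, (p.2 j : ℕ) ≤ kn}
  let W : ι → Finset (Fin n → Bool) := fun i => Finset.univ.filter fun x =>
    ∀ j : Fin R, ∃ l', Seg P x s (i.1.1 j.castSucc) (i.1.1 j.succ) l' ∧ l'.length = i.1.2 j
  have hW : ∀ i x, x ∈ W i ↔ ∀ j : Fin R, ∃ l',
      Seg P x s (i.1.1 j.castSucc) (i.1.1 j.succ) l' ∧ l'.length = i.1.2 j := by
    intro i x
    simp [W]
  have hex : ∀ (i : ι) (z : Fin n → Bool), ∃ f : Fin R → List (Fin n), z ∈ W i →
      ∀ j, Seg P z s (i.1.1 j.castSucc) (i.1.1 j.succ) (f j) ∧ (f j).length = i.1.2 j := by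
    intro i z
    by_cases hz : z ∈ W i
    · have hz' := (hW i z).1 hz
      choose f hf using hz'
      exact ⟨f, fun _ => hf⟩
    · exact ⟨fun _ => [], fun h => absurd h hz⟩
  choose f hf using hex
  refine ⟨ι, inferInstance, W, fun i j z => restr (f i z j).toFinset z, ?_, ?_, ?_, ?_, ?_, ?_, ?_⟩
  · refine (Fintype.card_subtype_le _).trans ?_
    rw [Fintype.card_prod, Fintype.card_fun, Fintype.card_fun, Fintype.card_fin, Fintype.card_fin,
      Fintype.card_fin]
  · intro i z _ j
    exact sub_restr _ _
  · intro i j z hz z' hz' hc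
    obtain ⟨h1, _⟩ := hf i z hz j
    obtain ⟨h1', _⟩ := hf i z' hz' j
    have hagree : ∀ a ∈ f i z j, a ∈ f i z' j → z a = z' a := by
      intro a ha ha'
      refine hc a (z a) (z' a) ?_ ?_
      · simp [restr, ha]
      · simp [restr, ha']
    have e1 : Seg P (fun a => if a ∈ f i z j then z a else z' a) s (i.1.1 j.castSucc)
        (i.1.1 j.succ) (f i z j) := h1.local fun a ha => by simp [ha]
    have e2 : Seg P (fun a => if a ∈ f i z j then z a else z' a) s (i.1.1 j.castSucc)
        (i.1.1 j.succ) (f i z' j) := h1'.local fun a ha => by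
      by_cases h : a ∈ f i z j
      · simp only [h, if_true]
        exact (hagree a h ha).symm
      · simp [h]
    obtain ⟨_, hl⟩ := e1.unique hP e2
    change restr (f i z j).toFinset z = restr (f i z' j).toFinset z'
    rw [restr_eq_iff]
    refine ⟨by rw [hl], fun a ha => ?_⟩
    have ha1 : a ∈ f i z j := List.mem_toFinset.1 ha
    exact hagree a ha1 (by rw [← hl]; exact ha1)
  · intro i u hu
    rw [hW]
    intro j
    obtain ⟨w, hw, hsub⟩ := hu j
    obtain ⟨h1, h2⟩ := hf i w hw j
    refine ⟨f i w j, h1.local fun a ha => ?_, h2⟩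
    exact ((sub_restr_iff _ _ _).1 hsub a (List.mem_toFinset.2 ha)).symm
  · intro i z hz j
    change (dom (restr (f i z j).toFinset z)).card ≤ s
    rw [dom_restr]
    exact (List.toFinset_card_le _).trans (hf i z hz j).1.length_le
  · intro i i' hne
    rw [Finset.disjoint_left]
    intro x hx hx'
    obtain ⟨e1, e2⟩ := chain_unique hP s R i.1.1 i'.1.1 i.1.2 i'.1.2
      (i.2.1.trans i'.2.1.symm) ((hW i x).1 hx) ((hW i' x).1 hx')
    exact hne (Subtype.ext (Prod.ext e1 e2))
  · intro x
    constructor
    · rintro ⟨i, hx⟩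
      obtain ⟨l, h1, h2⟩ := pth_of_chain s R i.1.1 i.1.2 ((hW i x).1 hx)
      rw [i.2.1, i.2.2.1] at h1
      exact ⟨l, walk_of_pth h1, by rw [h2]; exact i.2.2.2⟩
    · rintro ⟨l, h1, h2⟩
      obtain ⟨v, len, hv0, hvR, hsum, hseg⟩ := exists_chain s hP R (pth_of_walk h1)
        (Or.inl (by omega))
      exact ⟨⟨(v, len), hv0, hvR, hsum.trans h2⟩, (hW _ x).2 hseg⟩

end Pool.Agent.KE
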