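import Mathlib

/-! A random small set of players: many variables of `D1` are read only by it, most variables of `D2` are
not read by it. -/

namespace Pool.Agent.KE

open Finset

section Col

variable {R q : ℕ} (z0 : Fin q)

open Classical in
/-- the number of colourings with all players of `S` of the colour `z0` -/
lemma card_col (S : Finset (Fin R)) :
    (univ.filter fun χ : Fin R → Fin q => ∀ j ∈ S, χ j = z0).card * q ^ S.card = q ^ R := by
  have h1 : (univ.filter fun χ : Fin R → Fin q => ∀ j ∈ S, χ j = z0) =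
      Fintype.piFinset (fun j => if j ∈ S then ({z0} : Finset (Fin q)) else univ) := by
    ext χ
    simp only [mem_filter, mem_univ, true_and, Fintype.mem_piFinset]
    constructor
    · intro h j
      split_ifs with hj
      · simp [h j hj]
      · simp
    · intro h j hj
      have := h j
      rw [if_pos hj] at this
      simpa using this
  rw [h1, Fintype.card_piFinset]
  have h2 : ∀ j : Fin R, (if j ∈ S then ({z0} : Finset (Fin q)) else univ).card =
      if j ∈ S then 1 else q := by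
    intro j; split_ifs <;> simp
  simp_rw [h2]
  rw [Finset.prod_ite]
  simp only [prod_const_one, one_mul, prod_const]
  rw [← pow_add]
  congr 1
  have h4 := Finset.card_filter_add_card_filter_not (s := (univ : Finset (Fin R)))
    (fun v => v ∈ S)
  have h5 : (univ.filter fun v : Fin R => v ∈ S) = S := by ext; simp
  rw [h5] at h4
  simp only [card_univ, Fintype.card_fin] at h4
  omega

/-- the indicator of the event that all players of `S` have the colour `z0` -/
noncomputable def ind (S : Finset (Fin R)) (χ : Fin R → Fin q) : ℝ := by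
  classical exact if ∀ j ∈ S, χ j = z0 then 1 else 0

lemma ind_nonneg (S : Finset (Fin R)) (χ : Fin R → Fin q) : 0 ≤ ind z0 S χ := by
  unfold ind; split_ifs <;> norm_num

lemma sum_ind (hq : 1 ≤ q) (S : Finset (Fin R)) :
    ∑ χ : Fin R → Fin q, ind z0 S χ = (q : ℝ) ^ R / (q : ℝ) ^ S.card := by
  classical
  have hq' : (0 : ℝ) < q := by exact_mod_cast hq
  rw [eq_div_iff (by positivity)]
  have h := card_col z0 S
  have h1 : ∑ χ : Fin R → Fin q, ind z0 S χ =
      ((univ.filter fun χ : Fin R → Fin q => ∀ j ∈ S, χ j = z0).card : ℝ) := by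
    rw [Finset.card_filter]
    push_cast
    exact Finset.sum_congr rfl fun χ _ => rfl
  rw [h1]
  exact_mod_cast h

lemma ind_mul (S S' : Finset (Fin R)) (χ : Fin R → Fin q) :
    ind z0 S χ * ind z0 S' χ = ind z0 (S ∪ S') χ := by
  classical
  unfold ind
  by_cases h : ∀ j ∈ S, χ j = z0
  · by_cases h' : ∀ j ∈ S', χ j = z0
    · rw [if_pos h, if_pos h', if_pos, one_mul]
      intro j hj
      rcases mem_union.1 hj with hj | hj
      · exact h j hj
      · exact h' j hj
    · have hn : ¬ ∀ j ∈ S ∪ S', χ j = z0 := fun hh => h' fun j hj => hh j (mem_union_right _ hj)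
      rw [if_neg h', if_neg hn, mul_zero]
  · have hn : ¬ ∀ j ∈ S ∪ S', χ j = z0 := fun hh => h fun j hj => hh j (mem_union_left _ hj)
    rw [if_neg h, if_neg hn, zero_mul]

end Col

section One

variable {n R k q : ℕ}

open Classical in
/-- the readers of a variable -/
noncomputable def rd (d : Fin R → Finset (Fin n)) (i : Fin n) : Finset (Fin R) :=
  univ.filter fun j => i ∈ d j

lemma mem_rd {d : Fin R → Finset (Fin n)} {i : Fin n} {j : Fin R} : j ∈ rd d i ↔ i ∈ d j := by
  simp [rd]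

lemma sum_rd (d : Fin R → Finset (Fin n)) : ∑ i : Fin n, (rd d i).card = ∑ j : Fin R, (d j).card := by
  classical
  have e1 : ∀ i : Fin n, (rd d i).card = ∑ j : Fin R, if i ∈ d j then 1 else 0 := by
    intro i
    rw [rd, Finset.card_filter]
  rw [Finset.sum_congr rfl fun i _ => e1 i, Finset.sum_comm]
  refine Finset.sum_congr rfl fun j _ => ?_
  rw [← Finset.card_filter]
  congr 1
  ext i
  simp

lemma sum_d_le (hR : 0 < R) (d : Fin R → Finset (Fin n)) (hd : ∀ j, (d j).card * R ≤ k * n) :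
    (∑ j : Fin R, (d j).card) ≤ k * n := by
  have h3 : (∑ j : Fin R, (d j).card) * R ≤ (k * n) * R := by
    rw [Finset.sum_mul]
    calc ∑ j : Fin R, (d j).card * R ≤ ∑ _j : Fin R, k * n := Finset.sum_le_sum fun j _ => hd j
      _ = (k * n) * R := by rw [Finset.sum_const, Finset.card_univ, Fintype.card_fin, smul_eq_mul, mul_comm]
  exact Nat.le_of_mul_le_mul_right h3 hR

open Classical in
/-- at least `n / 5` variables of `D1` have at most `4 k` readers -/
lemma fifth_readers (hR : 0 < R) (d : Fin R → Finset (Fin n)) (hd : ∀ j, (d j).card * R ≤ k * n)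
    (D1 : Finset (Fin n)) (hD1 : 9 * n ≤ 20 * D1.card) :
    n ≤ 5 * (D1.filter fun i : Fin n => (rd d i).card ≤ 4 * k).card := by
  have h4 : (4 * k + 1) * (D1.filter fun i : Fin n => ¬ (rd d i).card ≤ 4 * k).card ≤ k * n := by
    refine le_trans ?_ ((sum_rd d).le.trans (sum_d_le hR d hd))
    rw [mul_comm, ← smul_eq_mul]
    refine le_trans (Finset.card_nsmul_le_sum _ (fun i => (rd d i).card) _ ?_)
      (Finset.sum_le_sum_of_subset (Finset.subset_univ _))
    intro i hi
    have := (Finset.mem_filter.1 hi).2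
    push Not at this
    exact this
  have h5 := Finset.card_filter_add_card_filter_not (s := D1) (fun i : Fin n => (rd d i).card ≤ 4 * k)
  set A := (D1.filter fun i : Fin n => (rd d i).card ≤ 4 * k).card
  set B := (D1.filter fun i : Fin n => ¬ (rd d i).card ≤ 4 * k).card
  have h6 : 4 * B ≤ n := by
    by_contra hcon
    push Not at hcon
    rcases Nat.eq_zero_or_pos k with hk | hk
    · subst hk
      simp at h4
      omega
    · have : k * n < k * (4 * B) := Nat.mul_lt_mul_of_pos_left hcon hk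
      nlinarith
  omega

open Classical in
/-- few variables share a reader with a variable that has at most `4 k` readers -/
lemma card_meet (hR : 0 < R) (d : Fin R → Finset (Fin n)) (hd : ∀ j, (d j).card * R ≤ k * n)
    (I : Finset (Fin n)) (i : Fin n) (hi : (rd d i).card ≤ 4 * k) :
    (((I.filter fun i' => ¬ Disjoint (rd d i) (rd d i')).card : ℕ) : ℝ) ≤ 4 * k * (k * n / R) := by
  have hR' : (0 : ℝ) < R := by exact_mod_cast hR
  have h1 : (I.filter fun i' => ¬ Disjoint (rd d i) (rd d i')) ⊆ (rd d i).biUnion d := by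
    intro i' hi'
    have h2 := (mem_filter.1 hi').2
    rw [Finset.disjoint_left] at h2
    push Not at h2
    obtain ⟨j, hj, hj'⟩ := h2
    rw [mem_biUnion]
    exact ⟨j, hj, mem_rd.1 hj'⟩
  have h3 : ∀ j, ((d j).card : ℝ) ≤ k * n / R := by
    intro j
    rw [le_div_iff₀ hR']
    exact_mod_cast hd j
  have h4 : (0 : ℝ) ≤ k * n / R := by positivity
  calc (((I.filter fun i' => ¬ Disjoint (rd d i) (rd d i')).card : ℕ) : ℝ)
      ≤ ∑ j ∈ rd d i, ((d j).card : ℝ) := by
        exact_mod_cast (card_le_card h1).trans card_biUnion_le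
    _ ≤ ∑ _j ∈ rd d i, ((k : ℝ) * n / R) := Finset.sum_le_sum fun j _ => h3 j
    _ = (rd d i).card * ((k : ℝ) * n / R) := by rw [sum_const, nsmul_eq_mul]
    _ ≤ 4 * k * (k * n / R) := by
        apply mul_le_mul_of_nonneg_right _ h4
        exact_mod_cast hi

open Classical in
/-- few colourings are bad for `D1` -/
lemma bad1 (z0 : Fin q) (hq : 1 ≤ q) (hk : 1 ≤ k) (hn : 0 < n) (hR : 2 ^ 14 * k ^ 2 * q ^ (4 * k) ≤ R)
    (d : Fin R → Finset (Fin n)) (hd : ∀ j, (d j).card * R ≤ k * n)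
    (D1 : Finset (Fin n)) (hD1 : 9 * n ≤ 20 * D1.card) {m1 : ℕ} (hm1 : 16 * q ^ (4 * k) * m1 ≤ n) :
    200 * ((univ.filter fun χ : Fin R → Fin q =>
      (D1.filter fun i => ∀ j, χ j ≠ z0 → i ∉ d j).card < m1).card : ℝ) ≤ (q : ℝ) ^ R := by
  have hq' : (0 : ℝ) < q := by exact_mod_cast hq
  have hq1 : (1 : ℝ) ≤ q := by exact_mod_cast hq
  have hk' : (0 : ℝ) < k := by exact_mod_cast hk
  have hn' : (0 : ℝ) < n := by exact_mod_cast hn
  have hR0 : 0 < R := lt_of_lt_of_le (by positivity) hR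
  have hR' : (0 : ℝ) < R := by exact_mod_cast hR0
  set N : ℝ := (q : ℝ) ^ R with hN
  have hNpos : 0 < N := by positivity
  set I := D1.filter fun i : Fin n => (rd d i).card ≤ 4 * k with hI
  have hIc : (n : ℝ) ≤ 5 * I.card := by exact_mod_cast fifth_readers hR0 d hd D1 hD1
  set p : Fin n → ℝ := fun i => 1 / (q : ℝ) ^ (rd d i).card with hp
  have hp0 : ∀ i, 0 < p i := fun i => by rw [hp]; positivity
  set μ : ℝ := ∑ i ∈ I, p i with hμ
  set Z : (Fin R → Fin q) → ℝ := fun χ => ∑ i ∈ I, ind z0 (rd d i) χ with hZ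
  have hμ1 : (n : ℝ) / (5 * (q : ℝ) ^ (4 * k)) ≤ μ := by
    calc (n : ℝ) / (5 * (q : ℝ) ^ (4 * k)) ≤ (5 * I.card) / (5 * (q : ℝ) ^ (4 * k)) := by gcongr
      _ = ∑ _i ∈ I, 1 / (q : ℝ) ^ (4 * k) := by
          rw [sum_const, nsmul_eq_mul]
          field_simp
      _ ≤ μ := by
          apply Finset.sum_le_sum
          intro i hi
          rw [hp]
          apply one_div_le_one_div_of_le (by positivity)
          exact pow_le_pow_right₀ hq1 (mem_filter.1 hi).2
  have hμpos : 0 < μ := lt_of_lt_of_le (by positivity) hμ1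
  have hsum1 : ∑ χ, Z χ = N * μ := by
    rw [hZ]
    rw [Finset.sum_comm]
    rw [hμ, Finset.mul_sum]
    refine Finset.sum_congr rfl fun i _ => ?_
    rw [sum_ind z0 hq, hp]
    ring
  have hsumN : ∑ _χ : Fin R → Fin q, (1 : ℝ) = N := by
    rw [sum_const, card_univ, Fintype.card_pi, nsmul_eq_mul, mul_one]
    simp [hN]
  have hsum2 : ∑ χ, Z χ ^ 2 ≤ N * μ ^ 2 + N * (μ * (4 * k * (k * n / R))) := by
    have h1 : ∀ χ, Z χ ^ 2 = ∑ i ∈ I, ∑ i' ∈ I, ind z0 (rd d i ∪ rd d i') χ := by
      intro χ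
      rw [hZ, sq, Finset.sum_mul_sum]
      refine Finset.sum_congr rfl fun i _ => Finset.sum_congr rfl fun i' _ => ?_
      rw [ind_mul]
    have h2 : ∑ χ, Z χ ^ 2 = ∑ i ∈ I, ∑ i' ∈ I, N / (q : ℝ) ^ (rd d i ∪ rd d i').card := by
      rw [Finset.sum_congr rfl fun χ _ => h1 χ, Finset.sum_comm]
      refine Finset.sum_congr rfl fun i _ => ?_
      rw [Finset.sum_comm]
      refine Finset.sum_congr rfl fun i' _ => ?_
      rw [sum_ind z0 hq]
    have h3 : ∀ i i', N / (q : ℝ) ^ (rd d i ∪ rd d i').card ≤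
        N * (p i * p i') + N * (p i * if ¬ Disjoint (rd d i) (rd d i') then 1 else 0) := by
      intro i i'
      by_cases hdis : Disjoint (rd d i) (rd d i')
      · rw [if_neg (by simpa using hdis), card_union_of_disjoint hdis, hp]
        rw [mul_zero, mul_zero, add_zero, pow_add]
        apply le_of_eq
        field_simp
      · rw [if_pos hdis, mul_one]
        have h4 : N / (q : ℝ) ^ (rd d i ∪ rd d i').card ≤ N * p i := by
          rw [hp, mul_one_div]
          apply div_le_div_of_nonneg_left hNpos.le (by positivity)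
          exact pow_le_pow_right₀ hq1 (card_le_card subset_union_left)
        have h5 : 0 ≤ N * (p i * p i') := by
          have := hp0 i; have := hp0 i'; positivity
        linarith
    rw [h2]
    calc ∑ i ∈ I, ∑ i' ∈ I, N / (q : ℝ) ^ (rd d i ∪ rd d i').card
        ≤ ∑ i ∈ I, ∑ i' ∈ I, (N * (p i * p i') +
            N * (p i * if ¬ Disjoint (rd d i) (rd d i') then 1 else 0)) :=
          Finset.sum_le_sum fun i _ => Finset.sum_le_sum fun i' _ => h3 i i'
      _ = N * μ ^ 2 + N * ∑ i ∈ I, p i * ((I.filter fun i' => ¬ Disjoint (rd d i) (rd d i')).card : ℝ) := by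
          simp only [Finset.sum_add_distrib, ← Finset.mul_sum]
          congr 1
          · rw [← Finset.sum_mul, sq]
          · congr 1
            refine Finset.sum_congr rfl fun i _ => ?_
            rw [Finset.sum_boole]
      _ ≤ N * μ ^ 2 + N * ∑ i ∈ I, p i * (4 * k * (k * n / R)) := by
          gcongr with i hi
          exact card_meet hR0 d hd I i (mem_filter.1 hi).2
      _ = _ := by rw [← Finset.sum_mul]
  have hvar : ∑ χ, (Z χ - μ) ^ 2 ≤ N * (μ * (4 * k * (k * n / R))) := by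
    have h1 : ∑ χ, (Z χ - μ) ^ 2 = ∑ χ, Z χ ^ 2 - 2 * μ * ∑ χ, Z χ + μ ^ 2 * ∑ _χ : Fin R → Fin q, (1 : ℝ) := by
      have h0 : ∀ χ, (Z χ - μ) ^ 2 = Z χ ^ 2 - 2 * μ * Z χ + μ ^ 2 * 1 := fun χ => by ring
      rw [Finset.sum_congr rfl fun χ _ => h0 χ, Finset.sum_add_distrib, Finset.sum_sub_distrib,
        ← Finset.mul_sum, ← Finset.mul_sum]
    rw [h1, hsum1, hsumN]
    linarith [hsum2]
  have hm1' : (m1 : ℝ) ≤ μ / 2 := by
    have h1 : 16 * (q : ℝ) ^ (4 * k) * m1 ≤ n := by exact_mod_cast hm1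
    have h2 : (m1 : ℝ) ≤ n / (16 * (q : ℝ) ^ (4 * k)) := by
      rw [le_div_iff₀ (by positivity)]; linarith
    have h3 : (n : ℝ) / (16 * (q : ℝ) ^ (4 * k)) ≤ (n / (5 * (q : ℝ) ^ (4 * k))) / 2 := by
      rw [div_div]
      apply div_le_div_of_nonneg_left hn'.le (by positivity)
      have : (0 : ℝ) < (q : ℝ) ^ (4 * k) := by positivity
      linarith
    linarith
  set B := univ.filter fun χ : Fin R → Fin q =>
      (D1.filter fun i => ∀ j, χ j ≠ z0 → i ∉ d j).card < m1 with hB
  have hbad : ∀ χ ∈ B, (μ / 2) ^ 2 ≤ (Z χ - μ) ^ 2 := by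
    intro χ hχ
    have h1 : Z χ ≤ ((D1.filter fun i => ∀ j, χ j ≠ z0 → i ∉ d j).card : ℝ) := by
      have h2 : Z χ = ((I.filter fun i => ∀ j ∈ rd d i, χ j = z0).card : ℝ) := by
        rw [hZ, Finset.card_filter]
        push_cast
        exact Finset.sum_congr rfl fun i _ => rfl
      rw [h2]
      have h3 : (I.filter fun i => ∀ j ∈ rd d i, χ j = z0) ⊆
          (D1.filter fun i => ∀ j, χ j ≠ z0 → i ∉ d j) := by
        intro i hi
        rw [mem_filter] at hi ⊢
        refine ⟨(mem_filter.1 hi.1).1, fun j hj hij => hj (hi.2 j (mem_rd.2 hij))⟩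
      exact_mod_cast card_le_card h3
    have h4 : ((D1.filter fun i => ∀ j, χ j ≠ z0 → i ∉ d j).card : ℝ) < m1 := by
      exact_mod_cast (mem_filter.1 hχ).2
    have h5 : μ / 2 ≤ μ - Z χ := by linarith
    have h6 : (Z χ - μ) ^ 2 = (μ - Z χ) ^ 2 := by ring
    rw [h6]
    exact pow_le_pow_left₀ (by positivity) h5 2
  have hcheb : (B.card : ℝ) * (μ / 2) ^ 2 ≤ N * (μ * (4 * k * (k * n / R))) := by
    refine le_trans ?_ hvar
    calc (B.card : ℝ) * (μ / 2) ^ 2 = ∑ _χ ∈ B, (μ / 2) ^ 2 := by rw [sum_const, nsmul_eq_mul]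
      _ ≤ ∑ χ ∈ B, (Z χ - μ) ^ 2 := Finset.sum_le_sum hbad
      _ ≤ ∑ χ, (Z χ - μ) ^ 2 :=
          Finset.sum_le_sum_of_subset_of_nonneg (subset_univ _) fun _ _ _ => by positivity
  have h7 : (B.card : ℝ) * μ ≤ N * (16 * k * (k * n / R)) := by
    have h8 : μ * ((B.card : ℝ) * μ) ≤ μ * (N * (16 * k * (k * n / R))) := by nlinarith
    exact le_of_mul_le_mul_left h8 hμpos
  have h9 : (B.card : ℝ) * (n / (5 * (q : ℝ) ^ (4 * k))) ≤ N * (16 * k * (k * n / R)) :=
    (mul_le_mul_of_nonneg_left hμ1 (by positivity)).trans h7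
  have hQ : (0 : ℝ) < (q : ℝ) ^ (4 * k) := by positivity
  have h10 : (B.card : ℝ) * R ≤ N * (80 * k ^ 2 * (q : ℝ) ^ (4 * k)) := by
    have h11 : (B.card : ℝ) * (n / (5 * (q : ℝ) ^ (4 * k))) * (5 * (q : ℝ) ^ (4 * k) * R / n) ≤
        N * (16 * k * (k * n / R)) * (5 * (q : ℝ) ^ (4 * k) * R / n) :=
      mul_le_mul_of_nonneg_right h9 (by positivity)
    have e1 : (B.card : ℝ) * (n / (5 * (q : ℝ) ^ (4 * k))) * (5 * (q : ℝ) ^ (4 * k) * R / n) =
        (B.card : ℝ) * R := by field_simp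
    have e2 : N * (16 * k * (k * n / R)) * (5 * (q : ℝ) ^ (4 * k) * R / n) =
        N * (80 * k ^ 2 * (q : ℝ) ^ (4 * k)) := by field_simp; ring
    rw [e1, e2] at h11
    exact h11
  have hR2 : (2 : ℝ) ^ 14 * k ^ 2 * (q : ℝ) ^ (4 * k) ≤ R := by exact_mod_cast hR
  have h12 : 200 * (B.card : ℝ) * (2 ^ 14 * k ^ 2 * (q : ℝ) ^ (4 * k)) ≤
      N * (2 ^ 14 * k ^ 2 * (q : ℝ) ^ (4 * k)) := by
    calc 200 * (B.card : ℝ) * (2 ^ 14 * k ^ 2 * (q : ℝ) ^ (4 * k)) ≤ 200 * (B.card : ℝ) * R := by gcongr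
      _ = 200 * ((B.card : ℝ) * R) := by ring
      _ ≤ 200 * (N * (80 * k ^ 2 * (q : ℝ) ^ (4 * k))) := by gcongr
      _ ≤ N * (2 ^ 14 * k ^ 2 * (q : ℝ) ^ (4 * k)) := by
          have : 0 ≤ N * (k ^ 2 * (q : ℝ) ^ (4 * k)) := by positivity
          nlinarith
  exact le_of_mul_le_mul_right h12 (by positivity)

open Classical in
/-- few colourings are bad for `D2` -/
lemma bad2 (z0 : Fin q) (hq : 1 ≤ q) (hk : 1 ≤ k) (hn : 0 < n) (hR0 : 0 < R)
    (d : Fin R → Finset (Fin n)) (hd : ∀ j, (d j).card * R ≤ k * n)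
    (D2 : Finset (Fin n)) {m2 : ℕ} (hm2 : q * m2 + 200 * k * n ≤ q * D2.card) :
    200 * ((univ.filter fun χ : Fin R → Fin q =>
      (D2.filter fun i => ∀ j, χ j = z0 → i ∉ d j).card < m2).card : ℝ) ≤ (q : ℝ) ^ R := by
  have hq' : (0 : ℝ) < q := by exact_mod_cast hq
  set N : ℝ := (q : ℝ) ^ R with hN
  have hNpos : 0 < N := by positivity
  set B := univ.filter fun χ : Fin R → Fin q =>
      (D2.filter fun i => ∀ j, χ j = z0 → i ∉ d j).card < m2 with hB
  set S : (Fin R → Fin q) → ℝ := fun χ => ∑ j : Fin R, (d j).card * ind z0 {j} χ with hS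
  have hS0 : ∀ χ, 0 ≤ S χ := fun χ =>
    Finset.sum_nonneg fun j _ => mul_nonneg (by positivity) (ind_nonneg _ _ _)
  have hsum : q * ∑ χ, S χ ≤ N * (k * n) := by
    rw [hS, Finset.sum_comm]
    have h1 : ∀ j : Fin R, ∑ χ : Fin R → Fin q, ((d j).card : ℝ) * ind z0 {j} χ =
        (d j).card * (N / q) := by
      intro j
      rw [← Finset.mul_sum, sum_ind z0 hq, card_singleton, pow_one]
    rw [Finset.sum_congr rfl fun j _ => h1 j, ← Finset.sum_mul]
    have h2 : (∑ j : Fin R, ((d j).card : ℝ)) ≤ k * n := by exact_mod_cast sum_d_le hR0 d hd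
    have h3 : ∀ X : ℝ, q * (X * (N / q)) = N * X := fun X => by field_simp
    rw [h3]
    exact mul_le_mul_of_nonneg_left h2 hNpos.le
  have hbad : ∀ χ ∈ B, 200 * ((k : ℝ) * n) ≤ q * S χ := by
    intro χ hχ
    have h1 := (mem_filter.1 hχ).2
    have h2 := Finset.card_filter_add_card_filter_not (s := D2) (fun i => ∀ j, χ j = z0 → i ∉ d j)
    have h3 : (D2.filter fun i => ¬ ∀ j, χ j = z0 → i ∉ d j) ⊆
        (univ.filter fun j => χ j = z0).biUnion d := by
      intro i hi
      have := (mem_filter.1 hi).2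
      push Not at this
      obtain ⟨j, hj, hij⟩ := this
      rw [mem_biUnion]
      exact ⟨j, by simpa using hj, hij⟩
    have h4 : ((D2.filter fun i => ¬ ∀ j, χ j = z0 → i ∉ d j).card : ℝ) ≤ S χ := by
      have h5 : S χ = ∑ j ∈ univ.filter (fun j => χ j = z0), ((d j).card : ℝ) := by
        rw [hS, Finset.sum_filter]
        refine Finset.sum_congr rfl fun j _ => ?_
        unfold ind
        by_cases hj : χ j = z0
        · rw [if_pos hj, if_pos (by simpa using hj), mul_one]
        · rw [if_neg hj, if_neg (by simpa using hj), mul_zero]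
      rw [h5]
      exact_mod_cast (card_le_card h3).trans card_biUnion_le
    have h6 : (q : ℝ) * m2 + 200 * k * n ≤ q * D2.card := by exact_mod_cast hm2
    have h7 : (D2.card : ℝ) = ((D2.filter fun i => ∀ j, χ j = z0 → i ∉ d j).card : ℝ) +
        ((D2.filter fun i => ¬ ∀ j, χ j = z0 → i ∉ d j).card : ℝ) := by exact_mod_cast h2.symm
    have h8 : ((D2.filter fun i => ∀ j, χ j = z0 → i ∉ d j).card : ℝ) ≤ m2 := by
      exact_mod_cast h1.le
    have h9 : (q : ℝ) * D2.card ≤ q * (m2 + S χ) := by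
      apply mul_le_mul_of_nonneg_left _ hq'.le
      linarith
    nlinarith
  have h1 : (B.card : ℝ) * (200 * ((k : ℝ) * n)) ≤ N * (k * n) := by
    calc (B.card : ℝ) * (200 * ((k : ℝ) * n)) = ∑ _χ ∈ B, 200 * ((k : ℝ) * n) := by
          rw [sum_const, nsmul_eq_mul]
      _ ≤ ∑ χ ∈ B, q * S χ := Finset.sum_le_sum hbad
      _ ≤ ∑ χ, q * S χ :=
          Finset.sum_le_sum_of_subset_of_nonneg (subset_univ _)
            fun χ _ _ => mul_nonneg hq'.le (hS0 χ)
      _ = q * ∑ χ, S χ := by rw [Finset.mul_sum]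
      _ ≤ _ := hsum
  have hk' : (0 : ℝ) < k := by exact_mod_cast hk
  have hn' : (0 : ℝ) < n := by exact_mod_cast hn
  have hkn : (0 : ℝ) < k * n := by positivity
  have h2 : 200 * (B.card : ℝ) * ((k : ℝ) * n) ≤ N * (k * n) := by linarith
  exact le_of_mul_le_mul_right h2 hkn

end One

open Classical in
/-- **A good set of players.** -/
theorem exists_J {n R k q m1 m2 : ℕ} (hq : 1 ≤ q) (hk : 1 ≤ k)
    (hR : 2 ^ 14 * k ^ 2 * q ^ (4 * k) ≤ R) (W : Finset (Fin n → Bool))
    (d : Fin R → (Fin n → Bool) → Finset (Fin n)) (hd : ∀ u ∈ W, ∀ j, (d j u).card * R ≤ k * n)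
    (D1 D2 : Finset (Fin n)) (hD1 : 9 * n ≤ 20 * D1.card) (hm1 : 16 * q ^ (4 * k) * m1 ≤ n)
    (hm2 : q * m2 + 200 * k * n ≤ q * D2.card) :
    ∃ J : Finset (Fin R), 100 * (W.filter fun u =>
      ¬ (m1 ≤ (D1.filter fun i => ∀ j, j ∉ J → i ∉ d j u).card ∧
        m2 ≤ (D2.filter fun i => ∀ j ∈ J, i ∉ d j u).card)).card ≤ W.card := by
  have hR0 : 0 < R := lt_of_lt_of_le (by positivity) hR
  rcases Nat.eq_zero_or_pos n with hn | hn
  · subst hn
    have h1 : m1 = 0 := by
      have h3 : 0 < 16 * q ^ (4 * k) := by positivity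
      have h4 : 16 * q ^ (4 * k) * m1 = 0 := Nat.le_zero.mp hm1
      rcases Nat.mul_eq_zero.1 h4 with h | h
      · omega
      · exact h
    have h2 : m2 = 0 := by
      have h3 : D2.card = 0 := by
        have := card_le_univ D2
        simp at this
        simp [this]
      rw [h3] at hm2
      have h4 : q * m2 = 0 := by omega
      rcases Nat.mul_eq_zero.1 h4 with h | h
      · omega
      · exact h
    subst h1; subst h2
    refine ⟨∅, ?_⟩
    rw [Finset.filter_false_of_mem, card_empty]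
    · omega
    · intro u _ h
      exact h ⟨Nat.zero_le _, Nat.zero_le _⟩
  set z0 : Fin q := ⟨0, hq⟩ with hz0
  by_contra hcon'
  have hcon : ∀ J : Finset (Fin R), W.card < 100 * (W.filter fun u =>
      ¬ (m1 ≤ (D1.filter fun i => ∀ j, j ∉ J → i ∉ d j u).card ∧
        m2 ≤ (D2.filter fun i => ∀ j ∈ J, i ∉ d j u).card)).card :=
    fun J => not_le.1 fun h => hcon' ⟨J, h⟩
  set G : (Fin R → Fin q) → (Fin n → Bool) → Prop := fun χ u =>
      ¬ (m1 ≤ (D1.filter fun i => ∀ j, χ j ≠ z0 → i ∉ d j u).card ∧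
        m2 ≤ (D2.filter fun i => ∀ j, χ j = z0 → i ∉ d j u).card) with hG
  have h1 : ∀ χ : Fin R → Fin q, (W.card : ℝ) < 100 * ((W.filter fun u => G χ u).card : ℝ) := by
    intro χ
    have h2 := hcon (univ.filter fun j => χ j = z0)
    have h3 : (W.filter fun u =>
      ¬ (m1 ≤ (D1.filter fun i => ∀ j, j ∉ (univ.filter fun j => χ j = z0) → i ∉ d j u).card ∧
        m2 ≤ (D2.filter fun i => ∀ j ∈ (univ.filter fun j => χ j = z0), i ∉ d j u).card)) =
        W.filter fun u => G χ u := by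
      apply Finset.filter_congr
      intro u _
      simp only [hG, mem_filter, mem_univ, true_and, ne_eq]
    rw [h3] at h2
    exact_mod_cast h2
  have h2 : ∀ u ∈ W, 100 * ((univ.filter fun χ : Fin R → Fin q => G χ u).card : ℝ) ≤ (q : ℝ) ^ R := by
    intro u hu
    have b1 := bad1 z0 hq hk hn hR (fun j => d j u) (hd u hu) D1 hD1 hm1
    have b2 := bad2 z0 hq hk hn hR0 (fun j => d j u) (hd u hu) D2 hm2
    have h3 : (univ.filter fun χ : Fin R → Fin q => G χ u) ⊆
        (univ.filter fun χ : Fin R → Fin q =>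
          (D1.filter fun i => ∀ j, χ j ≠ z0 → i ∉ d j u).card < m1) ∪
        (univ.filter fun χ : Fin R → Fin q =>
          (D2.filter fun i => ∀ j, χ j = z0 → i ∉ d j u).card < m2) := by
      intro χ hχ
      have h4 : ¬ (m1 ≤ (D1.filter fun i => ∀ j, χ j ≠ z0 → i ∉ d j u).card ∧
        m2 ≤ (D2.filter fun i => ∀ j, χ j = z0 → i ∉ d j u).card) := (mem_filter.1 hχ).2
      rw [not_and_or, not_le, not_le] at h4
      rw [mem_union, mem_filter, mem_filter]
      exact h4.imp (fun h => ⟨mem_univ _, h⟩) (fun h => ⟨mem_univ _, h⟩)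
    have h5 : ((univ.filter fun χ : Fin R → Fin q => G χ u).card : ℝ) ≤
        ((univ.filter fun χ : Fin R → Fin q =>
          (D1.filter fun i => ∀ j, χ j ≠ z0 → i ∉ d j u).card < m1).card : ℝ) +
        ((univ.filter fun χ : Fin R → Fin q =>
          (D2.filter fun i => ∀ j, χ j = z0 → i ∉ d j u).card < m2).card : ℝ) := by
      exact_mod_cast (card_le_card h3).trans (card_union_le _ _)
    linarith
  have h3 : ∑ χ : Fin R → Fin q, ((W.filter fun u => G χ u).card : ℝ) =
      ∑ u ∈ W, ((univ.filter fun χ : Fin R → Fin q => G χ u).card : ℝ) := by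
    have e1 : ∀ χ : Fin R → Fin q, ((W.filter fun u => G χ u).card : ℝ) =
        ∑ u ∈ W, if G χ u then (1 : ℝ) else 0 := fun χ => by rw [Finset.sum_boole]
    have e2 : ∀ u, ((univ.filter fun χ : Fin R → Fin q => G χ u).card : ℝ) =
        ∑ χ : Fin R → Fin q, if G χ u then (1 : ℝ) else 0 := fun u => by rw [Finset.sum_boole]
    rw [Finset.sum_congr rfl fun χ _ => e1 χ, Finset.sum_congr rfl fun u _ => e2 u, Finset.sum_comm]
  have hNe : (univ : Finset (Fin R → Fin q)).Nonempty := ⟨fun _ => z0, mem_univ _⟩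
  have h4 : ∑ _χ : Fin R → Fin q, (W.card : ℝ) <
      ∑ χ : Fin R → Fin q, 100 * ((W.filter fun u => G χ u).card : ℝ) :=
    Finset.sum_lt_sum_of_nonempty hNe fun χ _ => h1 χ
  rw [← Finset.mul_sum, h3, Finset.mul_sum, sum_const, card_univ, Fintype.card_pi, nsmul_eq_mul] at h4
  simp only [Fintype.card_fin, prod_const, card_univ] at h4
  have h5 : ∑ u ∈ W, 100 * ((univ.filter fun χ : Fin R → Fin q => G χ u).card : ℝ) ≤
      W.card * (q : ℝ) ^ R := by
    refine (Finset.sum_le_sum h2).trans ?_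
    rw [sum_const, nsmul_eq_mul]
  push_cast at h4
  linarith [mul_comm ((q : ℝ) ^ R) (W.card : ℝ)]

end Pool.Agent.KE
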