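import Pool.Agent.KE.SeedM

/-! The choice of the seed, from the bound of the character sums. -/

namespace Pool.Agent.KE

open Finset Pool.Agent.SemRO Pool.Agent.KD Pool.Agent.KQL

theorem seed_num {n e q : ℕ} (he : 1 ≤ e) (h8 : 8 * e ≤ n) (hq1 : n ≤ q * e) (hq2 : q * e ≤ n + e)
    (hq : q ^ (2 * q) * 4 ≤ 2 ^ n) :
    2 ^ (3 * n) * (2 ^ (18 * n) * (q ^ (2 * q) * 2 ^ (8 * e * q)) + 2 ^ (16 * e * q) * 2 ^ (10 * n))
      < 2 ^ (18 * n) * 2 ^ (12 * e * q) := by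
  set t := q * e with ht
  have e1 : 8 * e * q = 8 * t := by rw [ht]; ring
  have e2 : 16 * e * q = 16 * t := by rw [ht]; ring
  have e3 : 12 * e * q = 12 * t := by rw [ht]; ring
  rw [e1, e2, e3]
  have h1 : 4 * (2 ^ (3 * n) * (2 ^ (18 * n) * (q ^ (2 * q) * 2 ^ (8 * t)))) ≤
      2 ^ (18 * n) * 2 ^ (12 * t) := by
    calc 4 * (2 ^ (3 * n) * (2 ^ (18 * n) * (q ^ (2 * q) * 2 ^ (8 * t))))
        = 2 ^ (3 * n) * (2 ^ (18 * n) * ((q ^ (2 * q) * 4) * 2 ^ (8 * t))) := by ring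
      _ ≤ 2 ^ (3 * n) * (2 ^ (18 * n) * (2 ^ n * 2 ^ (8 * t))) := by gcongr
      _ = 2 ^ (3 * n + (18 * n + (n + 8 * t))) := by rw [pow_add, pow_add, pow_add]
      _ ≤ 2 ^ (18 * n + 12 * t) := Nat.pow_le_pow_right (by norm_num) (by omega)
      _ = 2 ^ (18 * n) * 2 ^ (12 * t) := pow_add _ _ _
  have h2 : 4 * (2 ^ (3 * n) * (2 ^ (16 * t) * 2 ^ (10 * n))) ≤ 2 ^ (18 * n) * 2 ^ (12 * t) := by
    calc 4 * (2 ^ (3 * n) * (2 ^ (16 * t) * 2 ^ (10 * n)))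
        = 2 ^ (2 + (3 * n + (16 * t + 10 * n))) := by
          rw [pow_add 2 2, pow_add 2 (3 * n), pow_add 2 (16 * t)]; norm_num
      _ ≤ 2 ^ (18 * n + 12 * t) := Nat.pow_le_pow_right (by norm_num) (by omega)
      _ = 2 ^ (18 * n) * 2 ^ (12 * t) := pow_add _ _ _
  have h3 : 0 < 2 ^ (18 * n) * 2 ^ (12 * t) := by positivity
  rw [mul_add]
  omega

theorem exists_seed_of {n e q : ℕ}
    (hG : ∃ g : ℕ → Bool, ∀ D : Finset (Fin n → Bool), D.Nonempty →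
      |∑ a : Fin (9 * n) → Bool, ∑ b : Fin (9 * n) → Bool,
        ∏ x ∈ D, sg (decide (expBit (9 * n) n g (xb a) (xb b) (xb x) = 1))| ≤ 2 ^ (n + 9 * n))
    (he : 1 ≤ e) (h8 : 8 * e ≤ n) (hq1 : n ≤ q * e) (hq2 : q * e ≤ n + e)
    (hq : q ^ (2 * q) * 4 ≤ 2 ^ n) :
    ∃ g a b : ℕ → Bool,
      Bal (fun x : Fin n → Bool => decide (expBit (9 * n) n g a b (xb x) = 1)) e := by
  obtain ⟨g, hg⟩ := hG
  have hq0 : 1 ≤ q := by
    rcases Nat.eq_zero_or_pos q with h | h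
    · subst h
      omega
    · exact h
  have hc : Fintype.card ((Fin (9 * n) → Bool) × (Fin (9 * n) → Bool)) = 2 ^ (18 * n) := by
    rw [Fintype.card_prod, Fintype.card_fun, Fintype.card_bool, Fintype.card_fin, ← pow_add]
    congr 1
    ring
  obtain ⟨w, hw⟩ := exists_bal (n := n) (Ω := (Fin (9 * n) → Bool) × (Fin (9 * n) → Bool))
    (fun w x => decide (expBit (9 * n) n g (xb w.1) (xb w.2) (xb x) = 1)) (B := 2 ^ (10 * n))
    (q := q) (e := e) (fun D hD => by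
      rw [Fintype.sum_prod_type]
      refine (hg D hD).trans (le_of_eq ?_)
      push_cast
      congr 1
      ring) hq0 (by
      rw [hc]
      exact seed_num he h8 hq1 hq2 hq)
  exact ⟨g, xb w.1, xb w.2, hw⟩

end Pool.Agent.KE
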