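import Pool.Agent.KE.Alg
import Pool.Agent.KE.SeedF

/-! The seed. -/

namespace Pool.Agent.KE

open Pool.Agent.KQL

/-- **The seed.** -/
theorem exists_seed {n e q : ℕ} (he : 1 ≤ e) (h8 : 8 * e ≤ n) (hq1 : n ≤ q * e) (hq2 : q * e ≤ n + e)
    (hq : q ^ (2 * q) * 4 ≤ 2 ^ n) : ∃ g a b : ℕ → Bool,
      Bal (fun x : Fin n → Bool => decide (expBit (9 * n) n g a b (xb x) = 1)) e :=
  exists_seed_of (exists_g n (by omega)) he h8 hq1 hq2 hq

end Pool.Agent.KE
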