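import Pool.Agent.KE.Family
import Pool.Agent.KE.GoodJ
import Pool.Agent.KE.Seed
import Pool.Agent.KE.Dbp

/-! The quantitative two-sided bound for the language of exponentiation. -/

namespace Pool.Agent.KE

open Finset Pool.Agent.SemRO Pool.Agent.KD Pool.Agent.KNL
open Pool.Agent.KQL (xb)

theorem existsJ : ExistsJ := by
  intro n R k q m1 m2 hq hk hR W d hd D1 D2 hD1 hm1 hm2
  obtain ⟨J, hJ⟩ := exists_J hq hk hR W d hd D1 D2 hD1 hm1 hm2
  refine ⟨J, fun S hS h => ?_⟩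
  refine le_trans (Nat.mul_le_mul_left _ (Finset.card_le_card fun u hu => ?_)) hJ
  refine Finset.mem_filter.2 ⟨hS hu, fun hcon => h u hu ?_⟩
  convert hcon

theorem existsSeed : ExistsSeed := fun he h8 hq1 hq2 hq => exists_seed he h8 hq1 hq2 hq

lemma KB_scale {g : ℕ → ℕ} (hg : KB g) (a : ℕ) (ha : 1 ≤ a) : KB (fun k => g (a * k)) := by
  obtain ⟨c, hc⟩ := hg
  refine ⟨(a + 1) * (c * a), fun k hk => ?_⟩
  have h1 : 2 ≤ a * k := by nlinarith
  have h2 : a * k ≤ k ^ (a + 1) := by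
    calc a * k ≤ 2 ^ a * k := Nat.mul_le_mul_right _ Nat.lt_two_pow_self.le
      _ ≤ k ^ a * k := Nat.mul_le_mul_right _ (Nat.pow_le_pow_left hk _)
      _ = k ^ (a + 1) := by rw [pow_succ]
  calc g (a * k) ≤ (a * k) ^ (c * (a * k)) := hc _ h1
    _ ≤ (k ^ (a + 1)) ^ (c * (a * k)) := Nat.pow_le_pow_left h2 _
    _ = k ^ ((a + 1) * (c * a) * k) := by rw [← pow_mul]; congr 1; ring

/-! ### Words -/

/-- the word with the seeds `g`, `a`, `b` and the digits `x` -/
def wd (N n : ℕ) (g a b : ℕ → Bool) (x : Fin n → Bool) (p : Fin N) : Bool :=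
  if (p : ℕ) < 9 * n then g p else if (p : ℕ) < 2 * (9 * n) then a (p - 9 * n) else
  if (p : ℕ) < 3 * (9 * n) then b (p - 2 * (9 * n)) else xb x (p - 3 * (9 * n))

/-- the position of a digit of `x` -/
def pos {N n : ℕ} (h : 28 * n ≤ N) (a : Fin n) : Fin N := ⟨3 * (9 * n) + a, by have := a.2; omega⟩

lemma wd_pos {N n : ℕ} (h : 28 * n ≤ N) (g a b : ℕ → Bool) (x : Fin n → Bool) (i : Fin n) :
    wd N n g a b x (pos h i) = x i := by
  unfold wd pos
  simp only
  rw [if_neg (by omega), if_neg (by omega), if_neg (by omega)]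
  have : 3 * (9 * n) + (i : ℕ) - 3 * (9 * n) = i := by omega
  rw [this]
  unfold Pool.Agent.KQL.xb
  rw [dif_pos i.2]

lemma wd_off {N n : ℕ} (h : 28 * n ≤ N) (g a b : ℕ → Bool) (x x' : Fin n → Bool) (p : Fin N)
    (hp : ∀ i : Fin n, p ≠ pos h i) : wd N n g a b x p = wd N n g a b x' p := by
  unfold wd
  split_ifs with h1 h2 h3
  · rfl
  · rfl
  · rfl
  · have h4 : ∀ y : Fin n → Bool, xb y ((p : ℕ) - 3 * (9 * n)) = false := by
      intro y
      unfold Pool.Agent.KQL.xb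
      rw [dif_neg]
      intro hlt
      apply hp ⟨(p : ℕ) - 3 * (9 * n), hlt⟩
      apply Fin.ext
      unfold pos
      simp only
      omega
    rw [h4, h4]

lemma polyOf_congr {M : ℕ} {c c' : ℕ → Bool} (h : ∀ i < M, c i = c' i) : polyOf M c = polyOf M c' := by
  unfold polyOf
  refine Finset.sum_congr rfl fun i hi => ?_
  rw [h i (Finset.mem_range.1 hi)]

lemma numOf_congr {n : ℕ} {c c' : ℕ → Bool} (h : ∀ i < n, c i = c' i) : numOf n c = numOf n c' := by
  unfold numOf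
  refine Finset.sum_congr rfl fun i hi => ?_
  rw [h i (Finset.mem_range.1 hi)]

lemma expBit_congr {M n : ℕ} {g g' a a' b b' x x' : ℕ → Bool} (hg : ∀ i < M, g i = g' i)
    (ha : ∀ i < M, a i = a' i) (hb : ∀ i < M, b i = b' i) (hx : ∀ i < n, x i = x' i) :
    expBit M n g a b x = expBit M n g' a' b' x' := by
  unfold expBit
  rw [polyOf_congr hg, polyOf_congr ha, numOf_congr hx]
  refine Finset.sum_congr rfl fun i hi => ?_
  rw [hb i (Finset.mem_range.1 hi)]

lemma getD_ofFn {N : ℕ} (f : Fin N → Bool) (i : ℕ) (hi : i < N) : (List.ofFn f).getD i false = f ⟨i, hi⟩ := by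
  rw [List.getD_eq_getElem?_getD, List.getElem?_ofFn, dif_pos hi]
  rfl

lemma lang_wd {N n : ℕ} (hn : n = N / 28) (g a b : ℕ → Bool) (x : Fin n → Bool) :
    Lang (List.ofFn (wd N n g a b x)) ↔ expBit (9 * n) n g a b (xb x) = 1 := by
  unfold Lang
  rw [List.length_ofFn, ← hn]
  have h28 : 28 * n ≤ N := by omega
  have e : expBit (9 * n) n (fun i => (List.ofFn (wd N n g a b x)).getD i false)
      (fun i => (List.ofFn (wd N n g a b x)).getD (9 * n + i) false)
      (fun i => (List.ofFn (wd N n g a b x)).getD (2 * (9 * n) + i) false)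
      (fun i => (List.ofFn (wd N n g a b x)).getD (3 * (9 * n) + i) false) =
      expBit (9 * n) n g a b (xb x) := by
    refine expBit_congr ?_ ?_ ?_ ?_
    · intro i hi
      rw [getD_ofFn _ _ (by omega)]
      unfold wd
      simp only
      rw [if_pos hi]
    · intro i hi
      rw [getD_ofFn _ _ (by omega)]
      unfold wd
      simp only
      rw [if_neg (by omega), if_pos (by omega)]
      congr 1
      omega
    · intro i hi
      rw [getD_ofFn _ _ (by omega)]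
      unfold wd
      simp only
      rw [if_neg (by omega), if_neg (by omega), if_pos (by omega)]
      congr 1
      omega
    · intro i hi
      rw [getD_ofFn _ _ (by omega)]
      unfold wd
      simp only
      rw [if_neg (by omega), if_neg (by omega), if_neg (by omega)]
      congr 1
      omega
  rw [e]

/-! ### Restriction of a family -/

/-- **The family theorem.** -/
theorem family_two : ∃ B2 Rf : ℕ → ℕ, KB B2 ∧ KB Rf ∧
    (∀ k, 1 ≤ B2 k) ∧ (∀ k, 1 ≤ Rf k) ∧ ∀ k, 2 ≤ k → ∀ n, B2 k ≤ n → ∃ g a b : ℕ → Bool,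
    ∀ (ι : Type) [Fintype ι] (W : ι → Finset (Fin n → Bool))
      (c : ι → Fin (Rf k) → (Fin n → Bool) → Fin n → Option Bool),
      (∀ i, ∀ z ∈ W i, ∀ j, Sub (c i j z) z) →
      (∀ i j, ∀ z ∈ W i, ∀ z' ∈ W i, Compat (c i j z) (c i j z') → c i j z = c i j z') →
      (∀ i u, (∀ j, ∃ w ∈ W i, Sub (c i j w) u) → u ∈ W i) →
      (∀ i, ∀ z ∈ W i, ∀ j, (dom (c i j z)).card * Rf k ≤ k * n) →
      (∀ i i', i ≠ i' → Disjoint (W i) (W i')) →
      (Fintype.card ι : ℝ) ≤ 2 ^ ((n : ℝ) / B2 k) →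
      |∑ i, ∑ x ∈ W i, (sg (decide (expBit (9 * n) n g a b (xb x) = 1)) : ℝ)| ≤ 2 ^ n / 25 :=
  family_of existsJ existsSeed

/-- the accepted digits of a program form a set of small bias -/
theorem acc_small {N n k R s : ℕ} (h28 : 28 * n ≤ N) {g a b : ℕ → Bool} {k' : ℕ} {B : ℕ}
    (hfam : ∀ (ι : Type) [Fintype ι] (W : ι → Finset (Fin n → Bool))
      (c : ι → Fin R → (Fin n → Bool) → Fin n → Option Bool),
      (∀ i, ∀ z ∈ W i, ∀ j, Sub (c i j z) z) →
      (∀ i j, ∀ z ∈ W i, ∀ z' ∈ W i, Compat (c i j z) (c i j z') → c i j z = c i j z') →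
      (∀ i u, (∀ j, ∃ w ∈ W i, Sub (c i j w) u) → u ∈ W i) →
      (∀ i, ∀ z ∈ W i, ∀ j, (dom (c i j z)).card * R ≤ k' * n) →
      (∀ i i', i ≠ i' → Disjoint (W i) (W i')) →
      (Fintype.card ι : ℝ) ≤ 2 ^ ((n : ℝ) / B) →
      |∑ i, ∑ x ∈ W i, (sg (decide (expBit (9 * n) n g a b (xb x) = 1)) : ℝ)| ≤ 2 ^ n / 25)
    (hs1 : 1 ≤ s) (hs2 : k * N < R * s) (hs3 : s * R ≤ k' * n)
    {V : Type} [Fintype V] (P : SBP V Empty (Fin N)) (hP : Det P)
    (hV : (((Fintype.card V) ^ (R + 1) * (s + 1) ^ R : ℕ) : ℝ) ≤ 2 ^ ((n : ℝ) / B))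
    (Acc : Finset (Fin n → Bool))
    (hAcc : ∀ x, x ∈ Acc ↔ ∃ l, P.AccWalk (wd N n g a b x) l ∧ l.length ≤ k * N) :
    |∑ x ∈ Acc, (sg (decide (expBit (9 * n) n g a b (xb x) = 1)) : ℝ)| ≤ 2 ^ n / 25 := by
  classical
  obtain ⟨ι, hι, W, c, hcard, hsub, hdet, hclosed, hdom, hdisj, hall⟩ := split P hP s R (k * N) hs1 hs2
  obtain ⟨w, hw⟩ : ∃ w : (Fin n → Bool) → (Fin N → Bool), w = fun x => wd N n g a b x := ⟨_, rfl⟩
  have hwpos : ∀ x i, w x (pos h28 i) = x i := fun x i => by rw [hw]; exact wd_pos h28 g a b x i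
  have hwoff : ∀ x x' p, (∀ i : Fin n, p ≠ pos h28 i) → w x p = w x' p := fun x x' p hp => by
    rw [hw]; exact wd_off h28 g a b x x' p hp
  have posinj : Function.Injective (pos h28 : Fin n → Fin N) := by
    intro i j hij
    have := congrArg Fin.val hij
    unfold pos at this
    simp only at this
    exact Fin.ext (by omega)
  obtain ⟨W', hW'⟩ : ∃ W' : ι → Finset (Fin n → Bool), ∀ i, W' i = univ.filter (fun x => w x ∈ W i) :=
    ⟨_, fun _ => rfl⟩
  have memW' : ∀ i x, x ∈ W' i ↔ w x ∈ W i := fun i x => by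
    rw [hW', Finset.mem_filter]
    exact ⟨fun h => h.2, fun h => ⟨Finset.mem_univ _, h⟩⟩
  obtain ⟨c', hc'⟩ : ∃ c' : ι → Fin R → (Fin n → Bool) → Fin n → Option Bool,
      ∀ i j x t, c' i j x t = c i j (w x) (pos h28 t) := ⟨fun i j x t => c i j (w x) (pos h28 t), fun _ _ _ _ => rfl⟩
  have h1 : ∀ i, ∀ z ∈ W' i, ∀ j, Sub (c' i j z) z := by
    intro i z hz j t v hv
    rw [hc'] at hv
    have := hsub i (w z) ((memW' i z).1 hz) j (pos h28 t) v hv
    rw [hwpos] at this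
    exact this
  have h2 : ∀ i j, ∀ z ∈ W' i, ∀ z' ∈ W' i, Compat (c' i j z) (c' i j z') → c' i j z = c' i j z' := by
    intro i j z hz z' hz' hcomp
    have hz1 := (memW' i z).1 hz
    have hz1' := (memW' i z').1 hz'
    have h3 : c i j (w z) = c i j (w z') := by
      refine hdet i j _ hz1 _ hz1' fun p v v' hv hv' => ?_
      by_cases hp : ∃ t, p = pos h28 t
      · obtain ⟨t, rfl⟩ := hp
        exact hcomp t v v' (by rw [hc']; exact hv) (by rw [hc']; exact hv')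
      · push Not at hp
        rw [← hsub i _ hz1 j p v hv, ← hsub i _ hz1' j p v' hv', hwoff z z' p hp]
    funext t
    rw [hc', hc', h3]
  have h3 : ∀ i u, (∀ j, ∃ z ∈ W' i, Sub (c' i j z) u) → u ∈ W' i := by
    intro i u hu
    rw [memW']
    refine hclosed i (w u) fun j => ?_
    obtain ⟨z, hz, hzu⟩ := hu j
    have hz1 := (memW' i z).1 hz
    refine ⟨w z, hz1, fun p v hv => ?_⟩
    by_cases hp : ∃ t, p = pos h28 t
    · obtain ⟨t, rfl⟩ := hp
      rw [hwpos]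
      exact hzu t v (by rw [hc']; exact hv)
    · push Not at hp
      rw [hwoff u z p hp]
      exact hsub i _ hz1 j p v hv
  have h4 : ∀ i, ∀ z ∈ W' i, ∀ j, (dom (c' i j z)).card * R ≤ k' * n := by
    intro i z hz j
    refine le_trans (Nat.mul_le_mul_right _ ?_) hs3
    refine le_trans ?_ (hdom i (w z) ((memW' i z).1 hz) j)
    refine Finset.card_le_card_of_injOn (pos h28) ?_ posinj.injOn
    intro t ht
    have ht1 : c' i j z t ≠ none := mem_dom.1 ht
    rw [hc'] at ht1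
    exact mem_dom.2 ht1
  have h5 : ∀ i i', i ≠ i' → Disjoint (W' i) (W' i') := by
    intro i i' hii
    rw [Finset.disjoint_left]
    intro x hx hx'
    exact Finset.disjoint_left.1 (hdisj i i' hii) ((memW' i x).1 hx) ((memW' i' x).1 hx')
  have h6 : (Fintype.card ι : ℝ) ≤ 2 ^ ((n : ℝ) / B) := by
    refine le_trans ?_ hV
    exact_mod_cast hcard
  have h7 := hfam ι W' c' h1 h2 h3 h4 h5 h6
  have h8 : Acc = univ.biUnion W' := by
    ext x
    rw [hAcc, Finset.mem_biUnion]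
    have h9 := hall (w x)
    rw [hw] at h9
    rw [← h9]
    constructor
    · rintro ⟨i, hi⟩
      exact ⟨i, Finset.mem_univ _, (memW' i x).2 (by rw [hw]; exact hi)⟩
    · rintro ⟨i, _, hi⟩
      have := (memW' i x).1 hi
      rw [hw] at this
      exact ⟨i, this⟩
  rw [h8, Finset.sum_biUnion fun i _ i' _ hii => h5 i i' hii]
  exact h7

/-- the sum of all signs is small -/
theorem all_small {n R : ℕ} {g a b : ℕ → Bool} {k' : ℕ} {B : ℕ}
    (hfam : ∀ (ι : Type) [Fintype ι] (W : ι → Finset (Fin n → Bool))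
      (c : ι → Fin R → (Fin n → Bool) → Fin n → Option Bool),
      (∀ i, ∀ z ∈ W i, ∀ j, Sub (c i j z) z) →
      (∀ i j, ∀ z ∈ W i, ∀ z' ∈ W i, Compat (c i j z) (c i j z') → c i j z = c i j z') →
      (∀ i u, (∀ j, ∃ w ∈ W i, Sub (c i j w) u) → u ∈ W i) →
      (∀ i, ∀ z ∈ W i, ∀ j, (dom (c i j z)).card * R ≤ k' * n) →
      (∀ i i', i ≠ i' → Disjoint (W i) (W i')) →
      (Fintype.card ι : ℝ) ≤ 2 ^ ((n : ℝ) / B) →
      |∑ i, ∑ x ∈ W i, (sg (decide (expBit (9 * n) n g a b (xb x) = 1)) : ℝ)| ≤ 2 ^ n / 25) :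
    |∑ x : Fin n → Bool, (sg (decide (expBit (9 * n) n g a b (xb x) = 1)) : ℝ)| ≤ 2 ^ n / 25 := by
  classical
  have h := hfam Unit (fun _ => univ) (fun _ _ _ _ => none) (fun _ _ _ _ i b hb => by simp at hb)
    (fun _ _ _ _ _ _ _ => rfl) (fun _ _ _ => Finset.mem_univ _)
    (fun _ z _ _ => by
      have : dom (fun _ : Fin n => (none : Option Bool)) = ∅ := by
        ext i
        rw [mem_dom]
        simp
      rw [this]
      simp)
    (fun i i' hii => absurd (Subsingleton.elim i i') hii)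
    (by
      rw [Fintype.card_unit, Nat.cast_one]
      exact Real.one_le_rpow (by norm_num) (by positivity))
  simpa using h

/-- agreement of a set with the function -/
theorem agree_le {n : ℕ} (f : (Fin n → Bool) → Bool) (Acc : Finset (Fin n → Bool))
    (h1 : |∑ x : Fin n → Bool, (sg (f x) : ℝ)| ≤ 2 ^ n / 25) (h2 : |∑ x ∈ Acc, (sg (f x) : ℝ)| ≤ 2 ^ n / 25)
    (G : Finset (Fin n → Bool)) (hG : ∀ x ∈ G, (x ∈ Acc ↔ f x = true)) :
    (G.card : ℝ) ≤ 3 / 5 * 2 ^ n := by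
  classical
  have h3 : ∀ x : Fin n → Bool, (if x ∈ G then (2 : ℝ) else 0) ≤
      1 + (sg (f x) : ℝ) - 2 * (if x ∈ Acc then (sg (f x) : ℝ) else 0) := by
    intro x
    by_cases hx : x ∈ G
    · rw [if_pos hx]
      have h4 := hG x hx
      by_cases hA : x ∈ Acc
      · rw [if_pos hA, h4.1 hA]
        norm_num [sg]
      · rw [if_neg hA]
        have : f x = false := by
          cases hfx : f x
          · rfl
          · exact absurd (h4.2 hfx) hA
        rw [this]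
        norm_num [sg]
    · rw [if_neg hx]
      by_cases hA : x ∈ Acc
      · rw [if_pos hA]
        cases f x <;> norm_num [sg]
      · rw [if_neg hA]
        cases f x <;> norm_num [sg]
  have h4 : ∑ x : Fin n → Bool, (if x ∈ G then (2 : ℝ) else 0) ≤
      ∑ x : Fin n → Bool, (1 + (sg (f x) : ℝ) - 2 * (if x ∈ Acc then (sg (f x) : ℝ) else 0)) :=
    Finset.sum_le_sum fun x _ => h3 x
  have e1 : ∑ x : Fin n → Bool, (if x ∈ G then (2 : ℝ) else 0) = 2 * G.card := by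
    rw [← Finset.sum_filter, Finset.sum_const, nsmul_eq_mul]
    have : (univ.filter fun x => x ∈ G) = G := by ext; simp
    rw [this]
    ring
  have e2 : ∑ x : Fin n → Bool, (1 + (sg (f x) : ℝ) - 2 * (if x ∈ Acc then (sg (f x) : ℝ) else 0)) =
      2 ^ n + ∑ x : Fin n → Bool, (sg (f x) : ℝ) - 2 * ∑ x ∈ Acc, (sg (f x) : ℝ) := by
    rw [Finset.sum_sub_distrib, Finset.sum_add_distrib, ← Finset.mul_sum, ← Finset.sum_filter]
    have h5 : (univ.filter fun x => x ∈ Acc) = Acc := by ext; simp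
    have h6 : ∑ _x : Fin n → Bool, (1 : ℝ) = 2 ^ n := by
      rw [Finset.sum_const, Finset.card_univ, Fintype.card_fun, Fintype.card_bool, Fintype.card_fin]
      simp
    rw [h5, h6]
  rw [e1, e2] at h4
  have h7 := abs_le.1 h1
  have h8 := abs_le.1 h2
  have h9 : (0 : ℝ) < 2 ^ n := by positivity
  linarith [h7.2, h8.1]

/-- the quantitative two-sided bound, for sets of words -/
theorem quant_sets : ∃ c : ℕ, ∀ k, 2 ≤ k → ∀ N, k ^ (c * k) ≤ N → ∃ A : Finset (Fin N → Bool),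
    A.Nonempty ∧ ∀ (V : Type) [Fintype V] (P : SBP V Empty (Fin N)), Det P →
      (Fintype.card V : ℝ) ≤ 2 ^ ((N : ℝ) / (k : ℝ) ^ (c * k)) →
      ∀ G ⊆ A, (∀ y ∈ G, ((∃ l, P.AccWalk y l ∧ l.length ≤ k * N) ↔ Pool.Agent.KE.Lang (List.ofFn y))) →
        (G.card : ℝ) ≤ 3 / 5 * A.card := by
  classical
  obtain ⟨B2, Rf, hB2, hRf, hB21, hRf1, hfam⟩ := family_two
  obtain ⟨B, hB⟩ : ∃ B : ℕ → ℕ, ∀ k, B k = B2 (57 * k) + 1 := ⟨_, fun _ => rfl⟩
  obtain ⟨R, hR⟩ : ∃ R : ℕ → ℕ, ∀ k, R k = Rf (57 * k) := ⟨_, fun _ => rfl⟩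
  obtain ⟨Y, hY⟩ : ∃ Y : ℕ → ℕ, ∀ k, Y k = 500 * R k * B k + k + 1 := ⟨_, fun _ => rfl⟩
  obtain ⟨Z, hZ⟩ : ∃ Z : ℕ → ℕ, ∀ k, Z k = (Y k + 1) ^ 2 + 56 * (2 * B k * (R k + 1)) := ⟨_, fun _ => rfl⟩
  have hkK : KB (fun k => k) := ⟨1, fun k hk => by
    calc k = k ^ 1 := (pow_one k).symm
      _ ≤ k ^ (1 * k) := Nat.pow_le_pow_right (by omega) (by omega)⟩
  have hBK : KB B := ((KB_scale hB2 57 (by norm_num)).add (KB.const 1)).mono fun k _ => by rw [hB]
  have hRK : KB R := (KB_scale hRf 57 (by norm_num)).mono fun k _ => by rw [hR]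
  have hYK : KB Y := (((((KB.const 500).mul hRK).mul hBK).add hkK).add (KB.const 1)).mono fun k _ => by
    rw [hY]
  have hZK : KB Z := (((hYK.add (KB.const 1)).pow 2).add
    ((KB.const 56).mul (((KB.const 2).mul hBK).mul (hRK.add (KB.const 1))))).mono fun k _ => by rw [hZ]
  obtain ⟨c, hc⟩ := hZK
  refine ⟨c, fun k hk N hN => ?_⟩
  obtain ⟨n, hn⟩ : ∃ n, n = N / 28 := ⟨_, rfl⟩
  have hZN : Z k ≤ N := (hc k hk).trans hN
  have hBk := hB k
  have hRk := hR k
  have hYk := hY k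
  have hZk := hZ k
  have hR1 : 1 ≤ R k := by rw [hR]; exact hRf1 _
  have hB1 : 1 ≤ B k := by rw [hB]; omega
  have hRB : R k ≤ R k * B k := Nat.le_mul_of_pos_right _ hB1
  have hBR : B k ≤ R k * B k := Nat.le_mul_of_pos_left _ hR1
  have hYR : 500 * (R k * B k) ≤ Y k := by rw [hYk]; nlinarith
  have hYk1 : k ≤ Y k := by omega
  have hY2 : (Y k + 1) ^ 2 ≤ N := by omega
  have hYN : 500 * (Y k + 1) ≤ N := by
    refine le_trans ?_ hY2
    have : 500 ≤ Y k := by
      have : 1 ≤ R k * B k := by nlinarith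
      omega
    nlinarith
  have h28 : 28 * n ≤ N := by omega
  have hN56 : N ≤ 56 * n := by omega
  have hYn : Y k ≤ n := by omega
  have hB2n : B2 (57 * k) ≤ n := by omega
  obtain ⟨g, a, b, hf⟩ := hfam (57 * k) (by omega) n hB2n
  rw [← hRk] at hf
  -- the size of the segments
  obtain ⟨s, hs⟩ : ∃ s, s = k * N / R k + 1 := ⟨_, rfl⟩
  have hs1 : 1 ≤ s := by rw [hs]; exact Nat.le_add_left _ _
  have hs2 : k * N < R k * s := by rw [hs]; exact Nat.lt_mul_div_succ _ hR1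
  have hs3 : s * R k ≤ 57 * k * n := by
    have h1 : k * N / R k * R k ≤ k * N := Nat.div_mul_le_self _ _
    have h2 : s * R k = k * N / R k * R k + R k := by rw [hs]; ring
    have h3 : k * N ≤ k * (28 * n + 27) := Nat.mul_le_mul_left _ (by omega)
    have h4 : k ≤ k * n := Nat.le_mul_of_pos_right _ (by omega)
    have h5 : R k ≤ k * n := by
      calc R k ≤ n := by omega
        _ ≤ k * n := Nat.le_mul_of_pos_left _ (by omega)
    nlinarith
  -- the size of the family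
  obtain ⟨r, hr⟩ : ∃ r, r = Nat.sqrt N := ⟨_, rfl⟩
  have hr1 : r * r ≤ N := by rw [hr]; exact Nat.sqrt_le N
  have hr2 : N < (r + 1) * (r + 1) := by rw [hr]; exact Nat.lt_succ_sqrt N
  have hrY : Y k ≤ r := by
    rw [hr, Nat.le_sqrt]
    nlinarith
  have hs4 : s + 1 ≤ 2 ^ (4 * r) := by
    have h1 : k * N / R k ≤ k * N := Nat.div_le_self _ _
    have h2 : r + 1 ≤ 2 ^ r := Nat.lt_two_pow_self
    have h3 : N + 1 ≤ 2 ^ r * 2 ^ r := by
      calc N + 1 ≤ (r + 1) * (r + 1) := hr2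
        _ ≤ 2 ^ r * 2 ^ r := Nat.mul_le_mul h2 h2
    have h4 : k * N + k ≤ 2 ^ r * (2 ^ r * 2 ^ r) := by
      calc k * N + k = k * (N + 1) := by ring
        _ ≤ 2 ^ r * (2 ^ r * 2 ^ r) := Nat.mul_le_mul (by omega) h3
    calc s + 1 ≤ k * N + k := by rw [hs]; omega
      _ ≤ 2 ^ r * (2 ^ r * 2 ^ r) := h4
      _ = 2 ^ (3 * r) := by rw [← pow_add, ← pow_add]; ring_nf
      _ ≤ 2 ^ (4 * r) := Nat.pow_le_pow_right (by norm_num) (by omega)
  have hB2R : ((B2 (57 * k) : ℕ) : ℝ) ≤ B k := by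
    rw [hBk]; push_cast; linarith
  refine ⟨univ.image (fun x : Fin n → Bool => wd N n g a b x),
    ⟨_, Finset.mem_image_of_mem _ (Finset.mem_univ (fun _ => false))⟩, fun V _ P hP hV G hGA hG => ?_⟩
  have hwinj : Function.Injective (fun x : Fin n → Bool => wd N n g a b x) := by
    intro x x' hxx
    funext i
    have := congrFun hxx (pos h28 i)
    simp only [wd_pos] at this
    exact this
  have hAc : (univ.image (fun x : Fin n → Bool => wd N n g a b x)).card = 2 ^ n := by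
    rw [Finset.card_image_of_injective _ hwinj, Finset.card_univ, Fintype.card_fun, Fintype.card_bool,
      Fintype.card_fin]
  rw [hAc]
  push_cast
  obtain ⟨f, hfe⟩ : ∃ f : (Fin n → Bool) → Bool,
    f = fun x => decide (expBit (9 * n) n g a b (xb x) = 1) := ⟨_, rfl⟩
  have hnB : (0 : ℝ) < B k := by exact_mod_cast hB1
  have hnn : (0 : ℝ) ≤ n := Nat.cast_nonneg _
  have hVV : (((Fintype.card V) ^ (R k + 1) * (s + 1) ^ (R k) : ℕ) : ℝ) ≤
      2 ^ ((n : ℝ) / ((B k : ℕ) : ℝ)) := by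
    have hkc : (0 : ℝ) < (k : ℝ) ^ (c * k) := by
      have : (0 : ℝ) < k := by exact_mod_cast (by omega : 0 < k)
      positivity
    have h1 : ((Fintype.card V : ℝ)) ^ (R k + 1) ≤ 2 ^ ((n : ℝ) / (2 * B k)) := by
      have h2 : ((Fintype.card V : ℝ)) ^ (R k + 1) ≤ (2 ^ ((N : ℝ) / (k : ℝ) ^ (c * k))) ^ (R k + 1) :=
        pow_le_pow_left₀ (Nat.cast_nonneg _) hV _
      refine h2.trans ?_
      rw [← Real.rpow_natCast, ← Real.rpow_mul (by norm_num)]
      refine Real.rpow_le_rpow_of_exponent_le (by norm_num) ?_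
      rw [div_mul_eq_mul_div, div_le_div_iff₀ hkc (by positivity)]
      have h3 : N * (R k + 1) * (2 * B k) ≤ n * k ^ (c * k) := by
        calc N * (R k + 1) * (2 * B k) = N * (2 * B k * (R k + 1)) := by ring
          _ ≤ 56 * n * (2 * B k * (R k + 1)) := Nat.mul_le_mul_right _ hN56
          _ = n * (56 * (2 * B k * (R k + 1))) := by ring
          _ ≤ n * Z k := Nat.mul_le_mul_left _ (by omega)
          _ ≤ n * k ^ (c * k) := Nat.mul_le_mul_left _ (hc k hk)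
      have h4 : ((N * (R k + 1) * (2 * B k) : ℕ) : ℝ) ≤ ((n * k ^ (c * k) : ℕ) : ℝ) := by exact_mod_cast h3
      push_cast at h4 ⊢
      exact h4
    have h5 : ((s + 1 : ℕ) : ℝ) ^ (R k) ≤ 2 ^ ((n : ℝ) / (2 * B k)) := by
      have h6 : (s + 1) ^ (R k) ≤ 2 ^ (4 * r * R k) := by
        calc (s + 1) ^ (R k) ≤ (2 ^ (4 * r)) ^ (R k) := Nat.pow_le_pow_left hs4 _
          _ = 2 ^ (4 * r * R k) := by rw [← pow_mul]
      have h7 : ((s + 1 : ℕ) : ℝ) ^ (R k) ≤ (2 : ℝ) ^ ((4 * r * R k : ℕ) : ℝ) := by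
        rw [Real.rpow_natCast]
        exact_mod_cast h6
      refine h7.trans (Real.rpow_le_rpow_of_exponent_le (by norm_num) ?_)
      rw [le_div_iff₀ (by positivity)]
      have h8 : (4 * r * R k) * (2 * B k) ≤ n := by
        have h9 : 56 * ((4 * r * R k) * (2 * B k)) ≤ 56 * n := by
          calc 56 * ((4 * r * R k) * (2 * B k)) = r * (448 * (R k * B k)) := by ring
            _ ≤ r * Y k := Nat.mul_le_mul_left _ (by omega)
            _ ≤ r * r := Nat.mul_le_mul_left _ hrY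
            _ ≤ N := hr1
            _ ≤ 56 * n := hN56
        omega
      exact_mod_cast h8
    have h10 : ((n : ℝ) / ((B k : ℕ) : ℝ)) = (n : ℝ) / (2 * B k) + (n : ℝ) / (2 * B k) := by
      field_simp
      ring
    rw [h10, Real.rpow_add (by norm_num)]
    push_cast
    push_cast at h5
    exact mul_le_mul h1 h5 (by positivity) (by positivity)
  have hfB : ∀ (ι : Type) [Fintype ι] (W : ι → Finset (Fin n → Bool))
      (c : ι → Fin (R k) → (Fin n → Bool) → Fin n → Option Bool),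
      (∀ i, ∀ z ∈ W i, ∀ j, Sub (c i j z) z) →
      (∀ i j, ∀ z ∈ W i, ∀ z' ∈ W i, Compat (c i j z) (c i j z') → c i j z = c i j z') →
      (∀ i u, (∀ j, ∃ w ∈ W i, Sub (c i j w) u) → u ∈ W i) →
      (∀ i, ∀ z ∈ W i, ∀ j, (dom (c i j z)).card * R k ≤ 57 * k * n) →
      (∀ i i', i ≠ i' → Disjoint (W i) (W i')) →
      (Fintype.card ι : ℝ) ≤ 2 ^ ((n : ℝ) / ((B k : ℕ) : ℝ)) →
      |∑ i, ∑ x ∈ W i, (sg (decide (expBit (9 * n) n g a b (xb x) = 1)) : ℝ)| ≤ 2 ^ n / 25 := by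
    intro ι _ W c h1 h2 h3 h4 h5 h6
    refine hf ι W c h1 h2 h3 h4 h5 (h6.trans ?_)
    have h0 : 0 < B2 (57 * k) := hB21 _
    refine Real.rpow_le_rpow_of_exponent_le (by norm_num) ?_
    exact div_le_div_of_nonneg_left hnn (by exact_mod_cast h0) hB2R
  obtain ⟨Acc, hAcc⟩ : ∃ Acc : Finset (Fin n → Bool),
      Acc = univ.filter (fun x => ∃ l, P.AccWalk (wd N n g a b x) l ∧ l.length ≤ k * N) := ⟨_, rfl⟩
  have hAccm : ∀ x, x ∈ Acc ↔ ∃ l, P.AccWalk (wd N n g a b x) l ∧ l.length ≤ k * N := by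
    intro x
    rw [hAcc, Finset.mem_filter]
    exact ⟨fun h => h.2, fun h => ⟨Finset.mem_univ _, h⟩⟩
  have hacc := acc_small (k := k) (s := s) h28 hfB hs1 hs2 hs3 P hP hVV Acc hAccm
  have hallx := all_small hfB
  -- count
  obtain ⟨G', hG'⟩ : ∃ G' : Finset (Fin n → Bool), G' = univ.filter (fun x => wd N n g a b x ∈ G) := ⟨_, rfl⟩
  have hGc : G.card ≤ G'.card := by
    have h1 : G ⊆ G'.image (fun x => wd N n g a b x) := by
      intro y hy
      obtain ⟨x, _, rfl⟩ := Finset.mem_image.1 (hGA hy)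
      exact Finset.mem_image.2 ⟨x, by rw [hG']; exact Finset.mem_filter.2 ⟨Finset.mem_univ _, hy⟩, rfl⟩
    exact (Finset.card_le_card h1).trans Finset.card_image_le
  have h2 := agree_le f Acc (by rw [hfe]; exact hallx) (by rw [hfe]; exact hacc) G' (by
    intro x hx
    rw [hG'] at hx
    have h3 := hG _ (Finset.mem_filter.1 hx).2
    rw [lang_wd hn] at h3
    rw [hAccm, h3, hfe]
    simp)
  have h3 : (G.card : ℝ) ≤ G'.card := by exact_mod_cast hGc
  linarith

open Classical in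
/-- **The quantitative two-sided bound.** -/
theorem quant_two : ∃ c : ℕ, ∀ k, 2 ≤ k → ∀ N, k ^ (c * k) ≤ N → ∃ A : Finset (Fin N → Bool),
    A.Nonempty ∧ ∀ (V : Type) [Fintype V] (P : SBP V Empty (Fin N)), Det P →
      (Fintype.card V : ℝ) ≤ 2 ^ ((N : ℝ) / (k : ℝ) ^ (c * k)) →
      ((A.filter fun y => ((∃ l, P.AccWalk y l ∧ l.length ≤ k * N) ↔
        Pool.Agent.KE.Lang (List.ofFn y))).card : ℝ) ≤ 3 / 5 * A.card := by
  obtain ⟨c, hc⟩ := quant_sets
  refine ⟨c, fun k hk N hN => ?_⟩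
  obtain ⟨A, hA, h⟩ := hc k hk N hN
  refine ⟨A, hA, fun V _ P hP hV => ?_⟩
  exact h V P hP hV _ (Finset.filter_subset _ _) fun y hy => (Finset.mem_filter.1 hy).2

end Pool.Agent.KE
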