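import Pool.Agent.KD.Parts
import Pool.Agent.KQL.HashDef

/-! Definitions for the two-sided bound: signs, balanced functions, the language of the bits of
exponentiation in a quotient of the polynomial ring over the field with two elements. -/

namespace Pool.Agent.KE

open Finset Pool.Agent.SemRO Pool.Agent.KD

/-- sign of a bit -/
def sg (b : Bool) : ℤ := if b then -1 else 1

/-- on every subcube of dimension `8 e` the products of two shifts of `f` have a small sum -/
def Bal {n : ℕ} (f : (Fin n → Bool) → Bool) (e : ℕ) : Prop :=
  ∀ T : Finset (Fin n), T.card = 8 * e → ∀ y y' : Fin n → Bool, (∃ i, i ∉ T ∧ y i ≠ y' i) →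
    |∑ x ∈ cube T y, sg (f x) * sg (f (mix T x y'))| ≤ 2 ^ (6 * e)

/-- the polynomial over the field with two elements with the coefficients `c i`, `i < M` -/
noncomputable def polyOf (M : ℕ) (c : ℕ → Bool) : Polynomial (ZMod 2) :=
  ∑ i ∈ Finset.range M, if c i = true then Polynomial.X ^ i else 0

/-- the number with the binary digits `c i`, `i < n` -/
def numOf (n : ℕ) (c : ℕ → Bool) : ℕ := ∑ i ∈ Finset.range n, if c i = true then 2 ^ i else 0

/-- the scalar product of `b` with the coefficients of `a ^ x` modulo `X ^ M + g` -/
noncomputable def expBit (M n : ℕ) (g a b x : ℕ → Bool) : ZMod 2 :=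
  ∑ i ∈ Finset.range M,
    if b i = true then
      ((polyOf M a) ^ (numOf n x) %ₘ (Polynomial.X ^ M + polyOf M g)).coeff i
    else 0

/-- **The language of exponentiation.** A word of length `N` consists, with `n = N / 28` and `M = 9 n`, of the
coefficients of `g`, `a`, `b` (`M` bits each), the `n` binary digits of `x` and unused bits; it is in
the language if the scalar product of `b` with the coefficients of `a ^ x` modulo `X ^ M + g` is one. -/
def Lang (y : List Bool) : Prop :=
  expBit (9 * (y.length / 28)) (y.length / 28)
    (fun i => y.getD i false)
    (fun i => y.getD (9 * (y.length / 28) + i) false)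
    (fun i => y.getD (2 * (9 * (y.length / 28)) + i) false)
    (fun i => y.getD (3 * (9 * (y.length / 28)) + i) false) = 1

end Pool.Agent.KE
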