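import Pool.Agent.KD.Defs
import Pool.Agent.KE.Defs

/-! From the bound for one time bound `k N` to the bound for randomised programs with two-sided error. -/

namespace Pool.Agent.KE

open Pool.Agent.SemRO Pool.Agent.KNL Pool.Agent.KD

/-- **Choice of `k`.** -/
theorem choose_k (c : ℕ) : ∃ d x0 : ℝ, 0 < d ∧ 1 ≤ x0 ∧ ∀ (N S : ℕ), 1 ≤ S → x0 * S ≤ N →
    ∀ T : ℕ, (T : ℝ) < d * N * Real.log (N / S) / Real.log (Real.log (N / S)) →
      ∃ k : ℕ, 2 ≤ k ∧ k ^ (c * k) ≤ N ∧ (S : ℝ) ≤ (N : ℝ) / (k : ℝ) ^ (c * k) ∧ T ≤ k * N := by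
  obtain ⟨C, hC⟩ : ∃ C : ℝ, C = c + 1 := ⟨_, rfl⟩
  have hC1 : 1 ≤ C := by
    have : (0 : ℝ) ≤ c := Nat.cast_nonneg _
    linarith
  have hC0 : 0 < C := by linarith
  refine ⟨1 / (2 * C), Real.exp (16 * C ^ 2), by positivity, Real.one_le_exp (by positivity), ?_⟩
  intro N S hS hxN T hcon
  have hSr : (1 : ℝ) ≤ S := by exact_mod_cast hS
  have hS0 : (0 : ℝ) < S := by linarith
  obtain ⟨x, hx⟩ : ∃ x : ℝ, x = N / S := ⟨_, rfl⟩
  rw [← hx] at hcon
  have hxx0 : Real.exp (16 * C ^ 2) ≤ x := by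
    rw [hx, le_div_iff₀ hS0]; exact hxN
  have hx0 : 0 < x := lt_of_lt_of_le (Real.exp_pos _) hxx0
  obtain ⟨y, hy⟩ : ∃ y : ℝ, y = Real.log x := ⟨_, rfl⟩
  rw [← hy] at hcon
  have hyC : 16 * C ^ 2 ≤ y := by
    rw [hy, Real.le_log_iff_exp_le hx0]; exact hxx0
  have hy16 : (16 : ℝ) ≤ y := by nlinarith
  have hy0 : 0 < y := by linarith
  have hly1 : 1 ≤ Real.log y := by
    rw [Real.le_log_iff_exp_le hy0]
    have := Real.exp_one_lt_d9
    linarith
  have hly0 : 0 < Real.log y := by linarith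
  obtain ⟨z, hz⟩ : ∃ z : ℝ, z = y / (C * Real.log y) := ⟨_, rfl⟩
  have hsq : Real.log y ≤ 2 * Real.sqrt y := by
    have h1 := Real.log_le_sub_one_of_pos (Real.sqrt_pos.mpr hy0)
    have h2 : Real.log (Real.sqrt y) = Real.log y / 2 := Real.log_sqrt hy0.le
    linarith
  have hsqC : 4 * C ≤ Real.sqrt y := by
    apply Real.le_sqrt_of_sq_le
    calc (4 * C) ^ 2 = 16 * C ^ 2 := by ring
      _ ≤ y := hyC
  have hss : Real.sqrt y * Real.sqrt y = y := Real.mul_self_sqrt hy0.le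
  have hz2 : 2 ≤ z := by
    rw [hz, le_div_iff₀ (by positivity)]
    have h1 : 2 * (C * Real.log y) ≤ 2 * (C * (2 * Real.sqrt y)) := by
      gcongr
    have h2 : 4 * C * Real.sqrt y ≤ Real.sqrt y * Real.sqrt y :=
      mul_le_mul_of_nonneg_right hsqC (Real.sqrt_nonneg y)
    linarith
  have hzy : z ≤ y := by
    rw [hz]
    apply div_le_self hy0.le
    calc (1 : ℝ) = 1 * 1 := by ring
      _ ≤ C * Real.log y := mul_le_mul hC1 hly1 (by norm_num) (by linarith)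
  obtain ⟨k, hk⟩ : ∃ k, k = ⌊z⌋₊ := ⟨_, rfl⟩
  have hz0 : 0 ≤ z := by linarith
  have hkz : (k : ℝ) ≤ z := by rw [hk]; exact Nat.floor_le hz0
  have hkz' : z < k + 1 := by rw [hk]; exact Nat.lt_floor_add_one z
  have hk2 : 2 ≤ k := by rw [hk]; exact Nat.le_floor (by exact_mod_cast hz2)
  have hkr : (2 : ℝ) ≤ k := by exact_mod_cast hk2
  have hk0 : (0 : ℝ) < k := by linarith
  -- `k ^ (c k) ≤ x`
  have hkx : (k : ℝ) ^ (c * k) ≤ x := by
    have h1 : (k : ℝ) ^ (c * k) = Real.exp (((c * k : ℕ) : ℝ) * Real.log k) := by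
      rw [Real.exp_nat_mul, Real.exp_log hk0]
    rw [h1, ← Real.le_log_iff_exp_le hx0, ← hy]
    push_cast
    have h2 : Real.log k ≤ Real.log y := Real.log_le_log hk0 (hkz.trans hzy)
    have h3 : 0 ≤ Real.log k := Real.log_nonneg (by linarith)
    have h4 : z * (C * Real.log y) = y := by
      rw [hz]; field_simp
    calc (c : ℝ) * k * Real.log k ≤ C * z * Real.log y := by
          have h5 : (c : ℝ) ≤ C := by linarith
          have h6 : (0 : ℝ) ≤ c := Nat.cast_nonneg _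
          gcongr
      _ = z * (C * Real.log y) := by ring
      _ = y := h4
      _ ≤ y := le_rfl
  have hpos : (0 : ℝ) < (k : ℝ) ^ (c * k) := by positivity
  have hxN' : x * S = N := by rw [hx]; field_simp
  have hNr : (k : ℝ) ^ (c * k) * S ≤ N := by
    rw [← hxN']; exact mul_le_mul_of_nonneg_right hkx hS0.le
  have hN : k ^ (c * k) ≤ N := by
    have : (k : ℝ) ^ (c * k) ≤ N := by
      calc (k : ℝ) ^ (c * k) = (k : ℝ) ^ (c * k) * 1 := by ring
        _ ≤ (k : ℝ) ^ (c * k) * S := mul_le_mul_of_nonneg_left hSr hpos.le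
        _ ≤ N := hNr
    exact_mod_cast this
  have hNpos : (0 : ℝ) < N := by
    rw [← hxN']; positivity
  refine ⟨k, hk2, hN, ?_, ?_⟩
  · rw [le_div_iff₀ hpos]; linarith
  · have h1 : 1 / (2 * C) * N * y / Real.log y = N * (z / 2) := by
      rw [hz]; field_simp
    have h2 : z / 2 ≤ k := by linarith
    have h3 : (N : ℝ) * (z / 2) ≤ N * k := mul_le_mul_of_nonneg_left h2 hNpos.le
    have h4 : (T : ℝ) ≤ k * N := by linarith
    exact_mod_cast h4

/-- the program `P` answers correctly on the word `y`, and if it accepts, with at most `T` tests -/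
def Correct {V Γ : Type} {N : ℕ} (L : List Bool → Prop) (P : SBP V Γ (Fin N)) (T : ℕ)
    (y : Fin N → Bool) : Prop :=
  ((∃ l, P.AccWalk y l) ↔ L (List.ofFn y)) ∧ ∀ l, P.AccWalk y l → l.length ≤ T

open Classical in
/-- **Randomised programs with two-sided error.** -/
theorem time_two (L : List Bool → Prop) (h : ∃ c : ℕ, ∀ k : ℕ, 2 ≤ k → ∀ N : ℕ, k ^ (c * k) ≤ N →
    ∃ A : Finset (Fin N → Bool), A.Nonempty ∧
      ∀ (V : Type) [Fintype V] (P : SBP V Empty (Fin N)), Det P →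
        (Fintype.card V : ℝ) ≤ (2 : ℝ) ^ ((N : ℝ) / (k : ℝ) ^ (c * k)) →
        ∀ G ⊆ A, (∀ y ∈ G, ((∃ l, P.AccWalk y l ∧ l.length ≤ k * N) ↔ L (List.ofFn y))) →
          (G.card : ℝ) ≤ 3 / 5 * A.card) :
    ∃ c x0 : ℝ, 0 < c ∧ 1 ≤ x0 ∧ ∀ (N S : ℕ), 1 ≤ S → x0 * S ≤ N →
      ∀ (ι : Type) [Fintype ι] (w : ι → ℝ) (V : ι → Type) [∀ i, Fintype (V i)]
        (P : ∀ i, SBP (V i) Empty (Fin N)), (∀ i, 0 ≤ w i) → ∑ i, w i = 1 →
        (∀ i, Det (P i) ∧ Fintype.card (V i) ≤ 2 ^ S) →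
        ∀ T : ℕ, (∀ y, 3 / 5 < ∑ i, if Correct L (P i) T y then w i else 0) →
          c * N * Real.log (N / S) / Real.log (Real.log (N / S)) ≤ T := by
  obtain ⟨c, hc⟩ := h
  obtain ⟨d, x0, hd, hx0, hk⟩ := choose_k c
  refine ⟨d, x0, hd, hx0, ?_⟩
  intro N S hS hxN ι _ w V _ P hw hw1 hP T hT
  by_contra hcon
  push Not at hcon
  obtain ⟨k, hk2, hkN, hkS, hTk⟩ := hk N S hS hxN T hcon
  obtain ⟨A, hA, hA2⟩ := hc k hk2 N hkN
  have h1 : ∀ i, ((A.filter fun y => Correct L (P i) T y).card : ℝ) ≤ 3 / 5 * A.card := by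
    intro i
    have hV : (Fintype.card (V i) : ℝ) ≤ (2 : ℝ) ^ ((N : ℝ) / (k : ℝ) ^ (c * k)) := by
      have h1 : (Fintype.card (V i) : ℝ) ≤ (2 : ℝ) ^ (S : ℝ) := by
        rw [Real.rpow_natCast]; exact_mod_cast (hP i).2
      exact h1.trans (Real.rpow_le_rpow_of_exponent_le (by norm_num) hkS)
    refine hA2 (V i) (P i) (hP i).1 hV _ (Finset.filter_subset _ _) fun y hy => ?_
    obtain ⟨-, hy1, hy2⟩ := Finset.mem_filter.mp hy
    rw [← hy1]
    constructor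
    · rintro ⟨l, hl, _⟩
      exact ⟨l, hl⟩
    · rintro ⟨l, hl⟩
      exact ⟨l, hl, (hy2 l hl).trans hTk⟩
  have h2 : ∑ y ∈ A, ∑ i, (if Correct L (P i) T y then w i else 0)
      = ∑ i, w i * ((A.filter fun y => Correct L (P i) T y).card : ℝ) := by
    rw [Finset.sum_comm]
    refine Finset.sum_congr rfl fun i _ => ?_
    rw [← Finset.sum_filter, Finset.sum_const, nsmul_eq_mul, mul_comm]
  have h3 : ∑ i, w i * ((A.filter fun y => Correct L (P i) T y).card : ℝ) ≤ 3 / 5 * A.card := by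
    calc ∑ i, w i * ((A.filter fun y => Correct L (P i) T y).card : ℝ)
        ≤ ∑ i, w i * (3 / 5 * A.card) :=
          Finset.sum_le_sum fun i _ => mul_le_mul_of_nonneg_left (h1 i) (hw i)
      _ = 3 / 5 * A.card := by rw [← Finset.sum_mul, hw1, one_mul]
  have h4 : ∑ _y ∈ A, (3 / 5 : ℝ) < ∑ y ∈ A, ∑ i, (if Correct L (P i) T y then w i else 0) :=
    Finset.sum_lt_sum_of_nonempty hA fun y _ => hT y
  rw [Finset.sum_const, nsmul_eq_mul] at h4
  linarith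

open Classical in
/-- **Randomised programs with a stack and two-sided error.** -/
theorem time_two_stack (L : List Bool → Prop) (h : ∃ c : ℕ, ∀ k : ℕ, 2 ≤ k → ∀ N : ℕ, k ^ (c * k) ≤ N →
    ∃ A : Finset (Fin N → Bool), A.Nonempty ∧
      ∀ (V Γ : Type) [Fintype V] (P : SBP V Γ (Fin N)), Det P →
        (Fintype.card V : ℝ) ≤ (2 : ℝ) ^ ((N : ℝ) / (k : ℝ) ^ (c * k)) →
        ∀ G ⊆ A, (∀ y ∈ G, ((∃ l, P.AccWalk y l ∧ l.length ≤ k * N) ↔ L (List.ofFn y))) →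
          (G.card : ℝ) ≤ 3 / 5 * A.card) :
    ∃ c x0 : ℝ, 0 < c ∧ 1 ≤ x0 ∧ ∀ (N S : ℕ), 1 ≤ S → x0 * S ≤ N →
      ∀ (ι : Type) [Fintype ι] (w : ι → ℝ) (V Γ : ι → Type) [∀ i, Fintype (V i)]
        (P : ∀ i, SBP (V i) (Γ i) (Fin N)), (∀ i, 0 ≤ w i) → ∑ i, w i = 1 →
        (∀ i, Det (P i) ∧ Fintype.card (V i) ≤ 2 ^ S) →
        ∀ T : ℕ, (∀ y, 3 / 5 < ∑ i, if Correct L (P i) T y then w i else 0) →
          c * N * Real.log (N / S) / Real.log (Real.log (N / S)) ≤ T := by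
  obtain ⟨c, hc⟩ := h
  obtain ⟨d, x0, hd, hx0, hk⟩ := choose_k c
  refine ⟨d, x0, hd, hx0, ?_⟩
  intro N S hS hxN ι _ w V Γ _ P hw hw1 hP T hT
  by_contra hcon
  push Not at hcon
  obtain ⟨k, hk2, hkN, hkS, hTk⟩ := hk N S hS hxN T hcon
  obtain ⟨A, hA, hA2⟩ := hc k hk2 N hkN
  have h1 : ∀ i, ((A.filter fun y => Correct L (P i) T y).card : ℝ) ≤ 3 / 5 * A.card := by
    intro i
    have hV : (Fintype.card (V i) : ℝ) ≤ (2 : ℝ) ^ ((N : ℝ) / (k : ℝ) ^ (c * k)) := by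
      have h1 : (Fintype.card (V i) : ℝ) ≤ (2 : ℝ) ^ (S : ℝ) := by
        rw [Real.rpow_natCast]; exact_mod_cast (hP i).2
      exact h1.trans (Real.rpow_le_rpow_of_exponent_le (by norm_num) hkS)
    refine hA2 (V i) (Γ i) (P i) (hP i).1 hV _ (Finset.filter_subset _ _) fun y hy => ?_
    obtain ⟨-, hy1, hy2⟩ := Finset.mem_filter.mp hy
    rw [← hy1]
    constructor
    · rintro ⟨l, hl, _⟩
      exact ⟨l, hl⟩
    · rintro ⟨l, hl⟩
      exact ⟨l, hl, (hy2 l hl).trans hTk⟩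
  have h2 : ∑ y ∈ A, ∑ i, (if Correct L (P i) T y then w i else 0)
      = ∑ i, w i * ((A.filter fun y => Correct L (P i) T y).card : ℝ) := by
    rw [Finset.sum_comm]
    refine Finset.sum_congr rfl fun i _ => ?_
    rw [← Finset.sum_filter, Finset.sum_const, nsmul_eq_mul, mul_comm]
  have h3 : ∑ i, w i * ((A.filter fun y => Correct L (P i) T y).card : ℝ) ≤ 3 / 5 * A.card := by
    calc ∑ i, w i * ((A.filter fun y => Correct L (P i) T y).card : ℝ)
        ≤ ∑ i, w i * (3 / 5 * A.card) :=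
          Finset.sum_le_sum fun i _ => mul_le_mul_of_nonneg_left (h1 i) (hw i)
      _ = 3 / 5 * A.card := by rw [← Finset.sum_mul, hw1, one_mul]
  have h4 : ∑ _y ∈ A, (3 / 5 : ℝ) < ∑ y ∈ A, ∑ i, (if Correct L (P i) T y then w i else 0) :=
    Finset.sum_lt_sum_of_nonempty hA fun y _ => hT y
  rw [Finset.sum_const, nsmul_eq_mul] at h4
  linarith


end Pool.Agent.KE
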