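import Pool.Agent.KE.Irr

/-! The exponential sum over `a`, `b` for a set of exponents. -/

namespace Pool.Agent.KE

open Finset Polynomial Pool.Agent.KQL

/-! ### binary numbers -/

lemma numOf_succ (n : ℕ) (c : ℕ → Bool) : numOf (n + 1) c = numOf n c + if c n = true then 2 ^ n else 0 := by
  unfold numOf
  rw [Finset.sum_range_succ]

lemma numOf_lt (n : ℕ) (c : ℕ → Bool) : numOf n c < 2 ^ n := by
  induction n with
  | zero => simp [numOf]
  | succ n ih =>
    rw [numOf_succ, pow_succ]
    split_ifs <;> omega

lemma numOf_inj (n : ℕ) (c c' : ℕ → Bool) (h : numOf n c = numOf n c') : ∀ i < n, c i = c' i := by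
  induction n with
  | zero => intro i hi; omega
  | succ n ih =>
    rw [numOf_succ, numOf_succ] at h
    have h1 := numOf_lt n c
    have h2 := numOf_lt n c'
    have h3 : c n = c' n := by
      by_contra hne
      rcases hc : c n with _ | _ <;> rcases hc' : c' n with _ | _
      · exact hne (hc.trans hc'.symm)
      · simp only [hc, hc', if_true, Bool.false_eq_true, if_false] at h
        omega
      · simp only [hc, hc', if_true, Bool.false_eq_true, if_false] at h
        omega
      · exact hne (hc.trans hc'.symm)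
    rw [h3] at h
    intro i hi
    rcases Nat.lt_succ_iff_lt_or_eq.1 hi with hi | rfl
    · exact ih (by omega) i hi
    · exact h3

lemma numOf_xb_inj {n : ℕ} {x x' : Fin n → Bool} (h : numOf n (xb x) = numOf n (xb x')) : x = x' := by
  funext i
  have h1 := numOf_inj n _ _ h i.1 i.2
  unfold xb at h1
  rwa [dif_pos i.2, dif_pos i.2] at h1

/-! ### signs -/

/-- the character of `ZMod 2` -/
def chi (c : ZMod 2) : ℤ := if c = 1 then -1 else 1

lemma sg_chi (c : ZMod 2) : sg (decide (c = 1)) = chi c := by
  unfold sg chi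
  by_cases h : c = 1
  · simp [h]
  · simp [h]

lemma chi_zero : chi 0 = 1 := by decide
lemma chi_one : chi 1 = -1 := by decide
lemma chi_add (c d : ZMod 2) : chi (c + d) = chi c * chi d := by
  revert c d; decide

lemma chi_sum {ι : Type*} (s : Finset ι) (f : ι → ZMod 2) : ∏ i ∈ s, chi (f i) = chi (∑ i ∈ s, f i) := by
  classical
  induction s using Finset.induction_on with
  | empty => rw [Finset.prod_empty, Finset.sum_empty, chi_zero]
  | insert a s ha ih => rw [Finset.prod_insert ha, Finset.sum_insert ha, chi_add, ih]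

/-- orthogonality -/
lemma sum_chi (M : ℕ) (w : ℕ → ZMod 2) :
    (∑ b : Fin M → Bool, chi (∑ i ∈ range M, if xb b i = true then w i else 0)) =
      ∏ i : Fin M, (1 + chi (w i)) := by
  have e1 : ∀ b : Fin M → Bool, chi (∑ i ∈ range M, if xb b i = true then w i else 0) =
      ∏ i : Fin M, if b i = true then chi (w i) else 1 := by
    intro b
    rw [← chi_sum, Finset.prod_range]
    refine Finset.prod_congr rfl fun i _ => ?_
    unfold xb
    rw [dif_pos i.2]
    rcases b ⟨i.1, i.2⟩ with _ | _
    · rw [if_neg (by decide), if_neg (by decide), chi_zero]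
    · rw [if_pos rfl, if_pos rfl]
  have e2 : ∀ i : Fin M, (1 + chi (w i)) = ∑ c : Bool, if c = true then chi (w i) else 1 := by
    intro i
    rw [Fintype.sum_bool, if_pos rfl, if_neg (by decide)]
    ring
  simp_rw [e1, e2]
  rw [Finset.prod_univ_sum, Fintype.piFinset_univ]

/-! ### the theorem -/

/-- **The exponential sum.** -/
theorem exists_g (n : ℕ) {M : ℕ} (hM : 1 ≤ M) : ∃ g : ℕ → Bool, ∀ D : Finset (Fin n → Bool), D.Nonempty →
    |∑ a : Fin M → Bool, ∑ b : Fin M → Bool, ∏ x ∈ D,
      sg (decide (expBit M n g (xb a) (xb b) (xb x) = 1))| ≤ 2 ^ (n + M) := by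
  classical
  obtain ⟨g, K, iF, iT, iD, el, co, hcard, hel, hbij, hco, -, hexp⟩ := field_data hM
  refine ⟨g, fun D hD => ?_⟩
  set Z : (Fin M → Bool) → K := fun a => ∑ x ∈ D, el (xb a) ^ numOf n (xb x) with hZ
  have h1 : ∀ a b : Fin M → Bool, ∏ x ∈ D, sg (decide (expBit M n g (xb a) (xb b) (xb x) = 1)) =
      chi (∑ i ∈ range M, if xb b i = true then co i (Z a) else 0) := by
    intro a b
    simp_rw [sg_chi]
    rw [chi_sum]
    congr 1
    simp_rw [hexp]
    rw [Finset.sum_comm]
    refine Finset.sum_congr rfl fun i _ => ?_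
    split_ifs with hb
    · rw [hZ, map_sum]
    · exact Finset.sum_const_zero
  have h2 : ∀ a : Fin M → Bool, (∑ b : Fin M → Bool, ∏ x ∈ D,
      sg (decide (expBit M n g (xb a) (xb b) (xb x) = 1))) = if Z a = 0 then 2 ^ M else 0 := by
    intro a
    simp_rw [h1]
    rw [sum_chi M fun i => co i (Z a)]
    split_ifs with h0
    · rw [h0]
      simp only [map_zero, chi_zero]
      rw [Finset.prod_const, Finset.card_univ, Fintype.card_fin]
      norm_num
    · have h3 : ∃ i, i < M ∧ co i (Z a) ≠ 0 := by
        by_contra hcon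
        push Not at hcon
        exact h0 (hco _ hcon)
      obtain ⟨i, hi, hne⟩ := h3
      refine Finset.prod_eq_zero (Finset.mem_univ (⟨i, hi⟩ : Fin M)) ?_
      rcases zmod2 (co i (Z a)) with h4 | h4
      · exact absurd h4 hne
      · simp only [h4, chi_one]
        norm_num
  simp_rw [h2]
  -- the roots
  set p : K[X] := ∑ x ∈ D, X ^ numOf n (xb x) with hp
  obtain ⟨x0, hx0⟩ := hD
  have hcoeff : p.coeff (numOf n (xb x0)) = 1 := by
    rw [hp, finset_sum_coeff]
    rw [Finset.sum_eq_single x0]
    · rw [coeff_X_pow, if_pos rfl]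
    · intro x _ hne
      rw [coeff_X_pow, if_neg]
      intro h
      exact hne (numOf_xb_inj h.symm)
    · intro h
      exact absurd hx0 h
  have hp0 : p ≠ 0 := by
    intro h
    rw [h, coeff_zero] at hcoeff
    exact zero_ne_one hcoeff
  have hdeg : p.natDegree ≤ 2 ^ n := by
    refine natDegree_sum_le_of_forall_le _ _ fun x _ => ?_
    rw [natDegree_X_pow]
    exact (numOf_lt n _).le
  have hroots : (univ.filter fun a : Fin M → Bool => Z a = 0).card ≤ 2 ^ n := by
    have h3 : (univ.filter fun a : Fin M → Bool => Z a = 0).card ≤ p.roots.toFinset.card := by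
      refine Finset.card_le_card_of_injOn (fun a => el (xb a)) (fun a ha => ?_) fun a _ a' _ h => ?_
      · have h4 : Z a = 0 := (Finset.mem_filter.1 (Finset.mem_coe.1 ha)).2
        rw [Finset.mem_coe, Multiset.mem_toFinset, mem_roots hp0, IsRoot.def, hp, eval_finsetSum]
        simp only [eval_pow, eval_X]
        exact h4
      · exact hbij.1 h
    exact h3.trans ((Multiset.toFinset_card_le _).trans ((card_roots' p).trans hdeg))
  have h5 : (∑ a : Fin M → Bool, if Z a = 0 then (2:ℤ) ^ M else 0) =
      (univ.filter fun a : Fin M → Bool => Z a = 0).card * 2 ^ M := by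
    rw [← Finset.sum_filter, Finset.sum_const, nsmul_eq_mul]
  rw [h5, abs_of_nonneg (by positivity), pow_add]
  have h6 : ((univ.filter fun a : Fin M → Bool => Z a = 0).card : ℤ) ≤ 2 ^ n := by exact_mod_cast hroots
  exact mul_le_mul_of_nonneg_right h6 (by positivity)

end Pool.Agent.KE
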