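import Pool.Agent.KD.Ev

/-! The canonical division of the evaluation of a deterministic program with a stack. -/

namespace Pool.Agent.KE

open Pool.Agent.SemRO Pool.Agent.KNL Pool.Agent.KD

variable {V Γ I : Type}

/-- canonical evaluation. `Ce P θ y false u w l e t`: from `u` the walk reaches the end `w` of its level,
with `t` tests in all; `l` lists the tests outside the evaluations that were cut off, `e` is the set of
nodes where an evaluation was cut off. `Ce P θ y true` cuts off the evaluation itself if it has at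
least `θ` tests of its own. -/
inductive Ce (P : SBP V Γ I) (θ : ℕ) (y : I → Bool) : Bool → V → V → List I → Set V → ℕ → Prop
  | cut {u w : V} {l : List I} {e : Set V} {t : ℕ} : Ce P θ y false u w l e t → θ ≤ l.length →
      Ce P θ y true u w [] {u} t
  | body {u w : V} {l : List I} {e : Set V} {t : ℕ} : Ce P θ y false u w l e t → l.length < θ →
      Ce P θ y true u w l e t
  | stop {u : V} : (∀ v, ¬ P.free u v) → (∀ i b v, ¬ P.test u i b v) → (∀ a v, ¬ P.push u a v) →
      Ce P θ y false u u [] ∅ 0
  | free {u v w : V} {l : List I} {e : Set V} {t : ℕ} : P.free u v → Ce P θ y true v w l e t →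
      Ce P θ y false u w l e t
  | test {u v w : V} {i : I} {l : List I} {e : Set V} {t : ℕ} : P.test u i (y i) v →
      Ce P θ y true v w l e t → Ce P θ y false u w (i :: l) e (t + 1)
  | call {u v v' x w : V} {a : Γ} {l l' : List I} {e e' : Set V} {t t' : ℕ} : P.push u a v →
      Ce P θ y true v v' l e t → P.pop v' a x → Ce P θ y true x w l' e' t' →
      Ce P θ y false u w (l ++ l') (e ∪ e') (t + t')

/-- evaluation of one piece with the table `H` of results and numbers of tests -/
inductive Ee (P : SBP V Γ I) (θ : ℕ) (H : V → Option (V × ℕ)) (y : I → Bool) :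
    Bool → V → V → List I → Set V → ℕ → Prop
  | jump {u w : V} {t : ℕ} : H u = some (w, t) → Ee P θ H y true u w [] {u} t
  | body {u w : V} {l : List I} {e : Set V} {t : ℕ} : H u = none → Ee P θ H y false u w l e t →
      l.length < θ → Ee P θ H y true u w l e t
  | stop {u : V} : (∀ v, ¬ P.free u v) → (∀ i b v, ¬ P.test u i b v) → (∀ a v, ¬ P.push u a v) →
      Ee P θ H y false u u [] ∅ 0
  | free {u v w : V} {l : List I} {e : Set V} {t : ℕ} : P.free u v → Ee P θ H y true v w l e t →
      Ee P θ H y false u w l e t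
  | test {u v w : V} {i : I} {l : List I} {e : Set V} {t : ℕ} : P.test u i (y i) v →
      Ee P θ H y true v w l e t → Ee P θ H y false u w (i :: l) e (t + 1)
  | call {u v v' x w : V} {a : Γ} {l l' : List I} {e e' : Set V} {t t' : ℕ} : P.push u a v →
      Ee P θ H y true v v' l e t → P.pop v' a x → Ee P θ H y true x w l' e' t' →
      Ee P θ H y false u w (l ++ l') (e ∪ e') (t + t')

variable {P : SBP V Γ I} {θ : ℕ} {H : V → Option (V × ℕ)} {y y' : I → Bool}

/-- locality -/
lemma Ee.local {b : Bool} {u w : V} {l : List I} {e : Set V} {t : ℕ} (h : Ee P θ H y b u w l e t)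
    (hy : ∀ i ∈ l, y i = y' i) : Ee P θ H y' b u w l e t := by
  induction h with
  | jump h => exact .jump h
  | body h _ h' ih => exact .body h (ih hy) h'
  | stop h1 h2 h3 => exact .stop h1 h2 h3
  | free h _ ih => exact .free h (ih hy)
  | @test u v w i l e t h _ ih =>
    refine .test ?_ (ih fun j hj => hy j (List.mem_cons_of_mem _ hj))
    rw [← hy i (List.mem_cons_self ..)]
    exact h
  | call h _ h' _ ih ih' =>
    exact .call h (ih fun j hj => hy j (List.mem_append_left _ hj)) h'
      (ih' fun j hj => hy j (List.mem_append_right _ hj))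

/-- the pieces are short -/
lemma Ee.len (hθ : 1 ≤ θ) {b : Bool} {u w : V} {l : List I} {e : Set V} {t : ℕ}
    (h : Ee P θ H y b u w l e t) : (b = true → l.length < θ) ∧ l.length ≤ 2 * θ := by
  induction h with
  | jump h => exact ⟨fun _ => hθ, Nat.zero_le _⟩
  | body h _ h' ih => exact ⟨fun _ => h', by omega⟩
  | stop h1 h2 h3 => exact ⟨fun h => by simp at h, by simp⟩
  | free h _ ih => exact ⟨fun h => by simp at h, ih.2⟩
  | test h _ ih =>
    have := ih.1 rfl
    exact ⟨fun h => by simp at h, by rw [List.length_cons]; omega⟩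
  | call h _ h' _ ih ih' =>
    have h1 := ih.1 rfl
    have h2 := ih'.1 rfl
    exact ⟨fun h => by simp at h, by rw [List.length_append]; omega⟩

/-- determinism -/
lemma Ee.unique (hP : Det P) {b : Bool} {u w : V} {l : List I} {e : Set V} {t : ℕ}
    (h : Ee P θ H y b u w l e t) : ∀ {w' : V} {l' : List I} {e' : Set V} {t' : ℕ},
      Ee P θ H y b u w' l' e' t' → w = w' ∧ l = l' ∧ e = e' ∧ t = t' := by
  induction h with
  | jump h =>
    intro w' l' e' t' h'
    cases h' with
    | jump h' =>
      rw [h] at h'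
      obtain ⟨rfl, rfl⟩ := Prod.mk.inj (Option.some.inj h')
      exact ⟨rfl, rfl, rfl, rfl⟩
    | body h' => rw [h] at h'; simp at h'
  | body h _ _ ih =>
    intro w' l' e' t' h'
    cases h' with
    | jump h' => rw [h] at h'; simp at h'
    | body _ h' _ => exact ih h'
  | stop h1 h2 h3 =>
    intro w' l' e' t' h'
    cases h' with
    | stop => exact ⟨rfl, rfl, rfl, rfl⟩
    | free h' => exact absurd h' (h1 _)
    | test h' => exact absurd h' (h2 _ _ _)
    | call h' => exact absurd h' (h3 _ _)
  | free h _ ih =>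
    intro w' l' e' t' h'
    cases h' with
    | stop h1 => exact absurd h (h1 _)
    | free h' h'' =>
      obtain rfl := hP.free_free h h'
      exact ih h''
    | test h' => exact absurd h' (hP.free_test h)
    | call h' => exact absurd h' (hP.free_push h)
  | test h _ ih =>
    intro w' l' e' t' h'
    cases h' with
    | stop _ h2 => exact absurd h (h2 _ _ _)
    | free h' => exact absurd h (hP.free_test h')
    | test h' h'' =>
      obtain ⟨rfl, h3⟩ := hP.test_test h h'
      obtain rfl := h3 rfl
      obtain ⟨h4, h5, h6, h7⟩ := ih h''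
      exact ⟨h4, by rw [h5], h6, by rw [h7]⟩
    | call h' => exact absurd h' (hP.test_push h)
  | call h _ h1 _ ih ih' =>
    intro w' l' e' t' h'
    cases h' with
    | stop _ _ h3 => exact absurd h (h3 _ _)
    | free h' => exact absurd h (hP.free_push h')
    | test h' => exact absurd h (hP.test_push h')
    | call h' h2 h3 h4 =>
      obtain ⟨rfl, rfl⟩ := hP.push_push h h'
      obtain ⟨rfl, rfl, rfl, rfl⟩ := ih h2
      obtain rfl := hP.pop_pop h1 h3
      obtain ⟨h5, rfl, rfl, rfl⟩ := ih' h4
      exact ⟨h5, rfl, rfl, rfl⟩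

/-- determinism of the canonical evaluation -/
lemma Ce.unique (hP : Det P) {b : Bool} {u w : V} {l : List I} {e : Set V} {t : ℕ}
    (h : Ce P θ y b u w l e t) : ∀ {w' : V} {l' : List I} {e' : Set V} {t' : ℕ},
      Ce P θ y b u w' l' e' t' → w = w' ∧ l = l' ∧ e = e' ∧ t = t' := by
  induction h with
  | cut _ h ih =>
    intro w' l' e' t' h'
    cases h' with
    | cut h1 _ =>
      obtain ⟨rfl, rfl, rfl, rfl⟩ := ih h1
      exact ⟨rfl, rfl, rfl, rfl⟩
    | body h1 h2 =>
      obtain ⟨rfl, rfl, rfl, rfl⟩ := ih h1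
      omega
  | body _ h ih =>
    intro w' l' e' t' h'
    cases h' with
    | cut h1 h2 =>
      obtain ⟨rfl, rfl, rfl, rfl⟩ := ih h1
      omega
    | body h1 _ => exact ih h1
  | stop h1 h2 h3 =>
    intro w' l' e' t' h'
    cases h' with
    | stop => exact ⟨rfl, rfl, rfl, rfl⟩
    | free h' => exact absurd h' (h1 _)
    | test h' => exact absurd h' (h2 _ _ _)
    | call h' => exact absurd h' (h3 _ _)
  | free h _ ih =>
    intro w' l' e' t' h'
    cases h' with
    | stop h1 => exact absurd h (h1 _)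
    | free h' h'' =>
      obtain rfl := hP.free_free h h'
      exact ih h''
    | test h' => exact absurd h' (hP.free_test h)
    | call h' => exact absurd h' (hP.free_push h)
  | test h _ ih =>
    intro w' l' e' t' h'
    cases h' with
    | stop _ h2 => exact absurd h (h2 _ _ _)
    | free h' => exact absurd h (hP.free_test h')
    | test h' h'' =>
      obtain ⟨rfl, h3⟩ := hP.test_test h h'
      obtain rfl := h3 rfl
      obtain ⟨h4, h5, h6, h7⟩ := ih h''
      exact ⟨h4, by rw [h5], h6, by rw [h7]⟩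
    | call h' => exact absurd h' (hP.test_push h)
  | call h _ h1 _ ih ih' =>
    intro w' l' e' t' h'
    cases h' with
    | stop _ _ h3 => exact absurd h (h3 _ _)
    | free h' => exact absurd h (hP.free_push h')
    | test h' => exact absurd h (hP.test_push h')
    | call h' h2 h3 h4 =>
      obtain ⟨rfl, rfl⟩ := hP.push_push h h'
      obtain ⟨rfl, rfl, rfl, rfl⟩ := ih h2
      obtain rfl := hP.pop_pop h1 h3
      obtain ⟨h5, rfl, rfl, rfl⟩ := ih' h4
      exact ⟨h5, rfl, rfl, rfl⟩

/-- `v` is cut off, with result `w`, own tests `l`, cut off nodes `e` and `t` tests in all -/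
def CutAt (P : SBP V Γ I) (θ : ℕ) (y : I → Bool) (v w : V) (l : List I) (e : Set V) (t : ℕ) : Prop :=
  Ce P θ y false v w l e t ∧ θ ≤ l.length

/-- a piece evaluated with a table that is true on the nodes it meets is canonical -/
lemma Ee.toCe {b : Bool} {u w : V} {l : List I} {e : Set V} {t : ℕ} (h : Ee P θ H y b u w l e t)
    (hT : ∀ v ∈ e, ∀ w t, H v = some (w, t) → ∃ l e, CutAt P θ y v w l e t) :
    Ce P θ y b u w l e t := by
  induction h with
  | @jump u w t h =>
    obtain ⟨l, e, h1, h2⟩ := hT u rfl w t h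
    exact .cut h1 h2
  | body h _ h' ih => exact .body (ih hT) h'
  | stop h1 h2 h3 => exact .stop h1 h2 h3
  | free h _ ih => exact .free h (ih hT)
  | test h _ ih => exact .test h (ih hT)
  | call h _ h' _ ih ih' =>
    exact .call h (ih fun v hv => hT v (Or.inl hv)) h' (ih' fun v hv => hT v (Or.inr hv))

/-- a canonical evaluation can be written with any true table that is defined on the nodes it meets -/
lemma Ce.toEe (hP : Det P) {b : Bool} {u w : V} {l : List I} {e : Set V} {t : ℕ}
    (h : Ce P θ y b u w l e t) (hT : ∀ v w t, H v = some (w, t) → ∃ l e, CutAt P θ y v w l e t)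
    (hd : ∀ v ∈ e, H v ≠ none) : Ee P θ H y b u w l e t := by
  induction h with
  | @cut u w l e t h1 h2 _ =>
    obtain ⟨⟨w', t'⟩, h3⟩ := Option.ne_none_iff_exists'.1 (hd u rfl)
    obtain ⟨l', e', h4, h5⟩ := hT u w' t' h3
    obtain ⟨rfl, rfl, rfl, rfl⟩ := h1.unique hP h4
    exact .jump h3
  | @body u w l e t h1 h2 ih =>
    refine .body ?_ (ih hd) h2
    by_contra hcon
    obtain ⟨⟨w', t'⟩, h3⟩ := Option.ne_none_iff_exists'.1 hcon
    obtain ⟨l', e', h4, h5⟩ := hT u w' t' h3
    obtain ⟨rfl, rfl, rfl, rfl⟩ := h1.unique hP h4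
    omega
  | stop h1 h2 h3 => exact .stop h1 h2 h3
  | free h _ ih => exact .free h (ih hd)
  | test h _ ih => exact .test h (ih hd)
  | call h _ h' _ ih ih' =>
    exact .call h (ih fun v hv => hd v (Or.inl hv)) h' (ih' fun v hv => hd v (Or.inr hv))

lemma Ce.up {u w : V} {l : List I} {e : Set V} {t : ℕ} (h : Ce P θ y false u w l e t) :
    ∃ l e, Ce P θ y true u w l e t := by
  by_cases hl : l.length < θ
  · exact ⟨l, e, .body h hl⟩
  · exact ⟨[], {u}, .cut h (by omega)⟩

/-- every evaluation has a canonical form -/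
lemma ce_of_ev {u w : V} {l : List I} (h : Ev P noT allG y u w l) :
    ∃ l' e, Ce P θ y false u w l' e l.length := by
  induction h with
  | jump h => exact h.elim
  | stop _ h1 h2 h3 => exact ⟨[], ∅, .stop h1 h2 h3⟩
  | free _ h _ ih =>
    obtain ⟨l', e, h1⟩ := ih
    obtain ⟨l'', e', h2⟩ := h1.up
    exact ⟨_, _, .free h h2⟩
  | test _ h _ ih =>
    obtain ⟨l', e, h1⟩ := ih
    obtain ⟨l'', e', h2⟩ := h1.up
    exact ⟨_, _, .test h h2⟩
  | call _ h _ h' _ ih ih' =>
    obtain ⟨l1, e1, h1⟩ := ih
    obtain ⟨l1', e1', h1'⟩ := h1.up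
    obtain ⟨l2, e2, h2⟩ := ih'
    obtain ⟨l2', e2', h2'⟩ := h2.up
    refine ⟨l1' ++ l2', e1' ∪ e2', ?_⟩
    rw [List.length_append]
    exact .call h h1' h' h2'

/-- a canonical evaluation is an evaluation -/
lemma Ce.ev {b : Bool} {u w : V} {l : List I} {e : Set V} {t : ℕ} (h : Ce P θ y b u w l e t) :
    ∃ l', Ev P noT allG y u w l' ∧ l'.length = t := by
  induction h with
  | cut _ _ ih => exact ih
  | body _ _ ih => exact ih
  | stop h1 h2 h3 => exact ⟨[], .stop trivial h1 h2 h3, rfl⟩
  | free h _ ih =>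
    obtain ⟨l', h1, h2⟩ := ih
    exact ⟨l', .free trivial h h1, h2⟩
  | test h _ ih =>
    obtain ⟨l', h1, h2⟩ := ih
    exact ⟨_ :: l', .test trivial h h1, by rw [List.length_cons, h2]⟩
  | call h _ h' _ ih ih' =>
    obtain ⟨l1, h1, h2⟩ := ih
    obtain ⟨l2, h3, h4⟩ := ih'
    exact ⟨l1 ++ l2, .call trivial h h1 h' h3, by rw [List.length_append, h2, h4]⟩

/-- the nodes that are cut off, directly or indirectly, are few -/
lemma Ce.closure [DecidableEq V] {b : Bool} {u w : V} {l : List I} {e : Set V} {t : ℕ}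
    (h : Ce P θ y b u w l e t) : ∃ S : Finset V, (∀ v ∈ e, v ∈ S) ∧
      (∀ v ∈ S, ∃ w' l' e' t', CutAt P θ y v w' l' e' t' ∧ (∀ v' ∈ e', v' ∈ S) ∧ t' ≤ t) ∧
      θ * S.card + l.length ≤ t := by
  induction h with
  | @cut u w l e t h1 h2 ih =>
    obtain ⟨S, h3, h4, h5⟩ := ih
    refine ⟨insert u S, ?_, ?_, ?_⟩
    · intro v hv
      rw [Set.mem_singleton_iff] at hv
      rw [hv]
      exact Finset.mem_insert_self _ _
    · intro v hv
      rcases Finset.mem_insert.1 hv with rfl | hv
      · exact ⟨w, l, e, t, ⟨h1, h2⟩, fun v' hv' => Finset.mem_insert_of_mem (h3 v' hv'), le_rfl⟩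
      · obtain ⟨w', l', e', t', h6, h7, h8⟩ := h4 v hv
        exact ⟨w', l', e', t', h6, fun v' hv' => Finset.mem_insert_of_mem (h7 v' hv'), h8⟩
    · have h6 : (insert u S).card ≤ S.card + 1 := Finset.card_insert_le _ _
      have h7 : θ * (insert u S).card ≤ θ * (S.card + 1) := Nat.mul_le_mul_left _ h6
      rw [Nat.mul_add, Nat.mul_one] at h7
      simp only [List.length_nil]
      omega
  | body _ _ ih => exact ih
  | stop h1 h2 h3 => exact ⟨∅, fun v hv => hv.elim, fun v hv => by simp at hv, by simp⟩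
  | free h _ ih => exact ih
  | @test u v w i l e t h _ ih =>
    obtain ⟨S, h3, h4, h5⟩ := ih
    refine ⟨S, h3, fun v hv => ?_, by rw [List.length_cons]; omega⟩
    obtain ⟨w', l', e', t', h6, h7, h8⟩ := h4 v hv
    exact ⟨w', l', e', t', h6, h7, by omega⟩
  | @call u v v' x w a l l' e e' t t' h _ h' _ ih ih' =>
    obtain ⟨S, h3, h4, h5⟩ := ih
    obtain ⟨S', h3', h4', h5'⟩ := ih'
    refine ⟨S ∪ S', ?_, ?_, ?_⟩
    · rintro v (hv | hv)
      · exact Finset.mem_union_left _ (h3 v hv)
      · exact Finset.mem_union_right _ (h3' v hv)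
    · intro v hv
      rcases Finset.mem_union.1 hv with hv | hv
      · obtain ⟨w', l', e', t', h6, h7, h8⟩ := h4 v hv
        exact ⟨w', l', e', t', h6, fun v' hv' => Finset.mem_union_left _ (h7 v' hv'), by omega⟩
      · obtain ⟨w', l', e', t', h6, h7, h8⟩ := h4' v hv
        exact ⟨w', l', e', t', h6, fun v' hv' => Finset.mem_union_right _ (h7 v' hv'), by omega⟩
    · have h6 : (S ∪ S').card ≤ S.card + S'.card := Finset.card_union_le _ _
      have h7 : θ * (S ∪ S').card ≤ θ * (S.card + S'.card) := Nat.mul_le_mul_left _ h6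
      rw [Nat.mul_add] at h7
      rw [List.length_append]
      omega

/-- the relation 'the evaluation of `v` cuts off `v'` directly' -/
def Sees (P : SBP V Γ I) (θ : ℕ) (y : I → Bool) (v' v : V) : Prop :=
  ∃ w l e t, Ce P θ y false v w l e t ∧ v' ∈ e

/-- it is well founded on the nodes that are cut off -/
lemma Ce.acc (hP : Det P) {b : Bool} {u w : V} {l : List I} {e : Set V} {t : ℕ}
    (h : Ce P θ y b u w l e t) : ∀ v ∈ e, Acc (Sees P θ y) v := by
  induction h with
  | @cut u w l e t h1 h2 ih =>
    intro v hv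
    rw [Set.mem_singleton_iff] at hv
    rw [hv]
    refine Acc.intro _ fun v' hv' => ?_
    obtain ⟨w', l', e', t', h3, h4⟩ := hv'
    obtain ⟨rfl, rfl, rfl, rfl⟩ := h1.unique hP h3
    exact ih v' h4
  | body _ _ ih => exact ih
  | stop h1 h2 h3 => exact fun v hv => hv.elim
  | free h _ ih => exact ih
  | test h _ ih => exact ih
  | call h _ h' _ ih ih' =>
    rintro v (hv | hv)
    · exact ih v hv
    · exact ih' v hv

end Pool.Agent.KE
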