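import Pool.Agent.KE.Lindsey

/-! The two-sided core theorem for one skeleton. -/

namespace Pool.Agent.KE

open Finset Pool.Agent.SemRO Pool.Agent.KD

variable {n R : ℕ}

/-- the variables of `D` that no player off `J` reads -/
def K1 (c : Fin R → (Fin n → Bool) → Fin n → Option Bool) (J : Finset (Fin R)) (D : Finset (Fin n))
    (u : Fin n → Bool) : Finset (Fin n) :=
  D.filter (fun i => ∀ j, j ∉ J → i ∉ dom (c j u))

/-- the variables of `D` that no player in `J` reads -/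
def K2 (c : Fin R → (Fin n → Bool) → Fin n → Option Bool) (J : Finset (Fin R)) (D : Finset (Fin n))
    (u : Fin n → Bool) : Finset (Fin n) :=
  D.filter (fun i => ∀ j ∈ J, i ∉ dom (c j u))

/-- the points with many private variables of both kinds -/
def Good (c : Fin R → (Fin n → Bool) → Fin n → Option Bool) (J : Finset (Fin R)) (D1 D2 : Finset (Fin n))
    (m1 m2 : ℕ) (u : Fin n → Bool) : Prop :=
  m1 ≤ (K1 c J D1 u).card ∧ m2 ≤ (K2 c J D2 u).card

open Classical in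
/-- the points whose canonical private sets contain `T1` and `T2` -/
noncomputable def UU (c : Fin R → (Fin n → Bool) → Fin n → Option Bool) (J : Finset (Fin R))
    (W : Finset (Fin n → Bool)) (D1 D2 : Finset (Fin n)) (m1 m2 : ℕ) (T1 T2 : Finset (Fin n)) :
    Finset (Fin n → Bool) :=
  W.filter (fun u => T1 ⊆ sel m1 (K1 c J D1 u) ∧ T2 ⊆ sel m2 (K2 c J D2 u))

variable {c : Fin R → (Fin n → Bool) → Fin n → Option Bool} {W : Finset (Fin n → Bool)}
  {J : Finset (Fin R)} {D1 D2 : Finset (Fin n)} {m1 m2 : ℕ}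

lemma K1_subset (D : Finset (Fin n)) (u : Fin n → Bool) : K1 c J D u ⊆ D := Finset.filter_subset _ _

lemma K2_subset (D : Finset (Fin n)) (u : Fin n → Bool) : K2 c J D u ⊆ D := Finset.filter_subset _ _

lemma card_sel_le (m : ℕ) (K : Finset (Fin n)) : (sel m K).card ≤ m := by
  by_cases h : m ≤ K.card
  · exact (card_sel h).le
  · unfold sel
    rw [dif_neg h, Finset.card_empty]
    exact Nat.zero_le _

lemma sel_eq_empty {m : ℕ} {K : Finset (Fin n)} (h : ¬ m ≤ K.card) : sel m K = ∅ := by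
  unfold sel
  rw [dif_neg h]

/-- mixing two points of `UU` -/
lemma UU_mix (hsub : ∀ z ∈ W, ∀ j, Sub (c j z) z)
    (hdet : ∀ j, ∀ z ∈ W, ∀ z' ∈ W, Compat (c j z) (c j z') → c j z = c j z')
    (hclosed : ∀ u, (∀ j, ∃ w ∈ W, Sub (c j w) u) → u ∈ W) {T1 T2 : Finset (Fin n)}
    {u u' : Fin n → Bool} (hu : u ∈ UU c J W D1 D2 m1 m2 T1 T2) (hu' : u' ∈ UU c J W D1 D2 m1 m2 T1 T2)
    (h : ∀ i, i ∉ T1 → i ∉ T2 → u i = u' i) : mix T1 u u' ∈ UU c J W D1 D2 m1 m2 T1 T2 := by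
  classical
  unfold UU at hu hu' ⊢
  obtain ⟨hW, h1, h2⟩ := Finset.mem_filter.1 hu
  obtain ⟨hW', h1', h2'⟩ := Finset.mem_filter.1 hu'
  have hJ : ∀ j ∈ J, Sub (c j u) (mix T1 u u') := by
    intro j hj i b hb
    have hi : i ∈ dom (c j u) := mem_dom.2 (by rw [hb]; simp)
    have hi2 : i ∉ T2 := fun hi2 => (Finset.mem_filter.1 (sel_subset _ _ (h2 hi2))).2 j hj hi
    by_cases hi1 : i ∈ T1
    · rw [mix_on hi1]
      exact hsub u hW j i b hb
    · rw [mix_off hi1, ← h i hi1 hi2]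
      exact hsub u hW j i b hb
  have hJ' : ∀ j, j ∉ J → Sub (c j u') (mix T1 u u') := by
    intro j hj i b hb
    have hi : i ∈ dom (c j u') := mem_dom.2 (by rw [hb]; simp)
    have hi1 : i ∉ T1 := fun hi1 => (Finset.mem_filter.1 (sel_subset _ _ (h1' hi1))).2 j hj hi
    rw [mix_off hi1]
    exact hsub u' hW' j i b hb
  have hw : mix T1 u u' ∈ W := by
    apply hclosed
    intro j
    by_cases hj : j ∈ J
    · exact ⟨u, hW, hJ j hj⟩
    · exact ⟨u', hW', hJ' j hj⟩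
  have compat_of : ∀ {z z' w : Fin n → Bool} {j : Fin R}, Sub (c j z) w → Sub (c j z') w →
      Compat (c j z) (c j z') := by
    intro z z' w j h1 h2 i b b' hb hb'
    rw [← h1 i b hb, ← h2 i b' hb']
  have e1 : ∀ j ∈ J, c j (mix T1 u u') = c j u := fun j hj =>
    hdet j _ hw _ hW (compat_of (hsub _ hw j) (hJ j hj))
  have e2 : ∀ j, j ∉ J → c j (mix T1 u u') = c j u' := fun j hj =>
    hdet j _ hw _ hW' (compat_of (hsub _ hw j) (hJ' j hj))
  have k1 : K1 c J D1 (mix T1 u u') = K1 c J D1 u' := by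
    unfold K1
    refine Finset.filter_congr fun i _ => ?_
    exact ⟨fun h j hj => by rw [← e2 j hj]; exact h j hj, fun h j hj => by rw [e2 j hj]; exact h j hj⟩
  have k2 : K2 c J D2 (mix T1 u u') = K2 c J D2 u := by
    unfold K2
    refine Finset.filter_congr fun i _ => ?_
    exact ⟨fun h j hj => by rw [← e1 j hj]; exact h j hj, fun h j hj => by rw [e1 j hj]; exact h j hj⟩
  exact Finset.mem_filter.2 ⟨hw, by rw [k1]; exact h1', by rw [k2]; exact h2⟩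

/-- one point determines the first canonical set -/
lemma K1_eq (hsub : ∀ z ∈ W, ∀ j, Sub (c j z) z)
    (hdet : ∀ j, ∀ z ∈ W, ∀ z' ∈ W, Compat (c j z) (c j z') → c j z = c j z')
    {z z' y : Fin n → Bool} (hz : z ∈ W) (hz' : z' ∈ W) {T T' : Finset (Fin n)}
    (hT : T ⊆ K1 c J D1 z) (hT' : T' ⊆ K1 c J D1 z') (hy : y ∈ cube T z) (hy' : y ∈ cube T' z') :
    K1 c J D1 z = K1 c J D1 z' := by
  classical
  have hsubs : ∀ z, K1 c J D1 z ⊆ Kv c J z := fun z i hi => mem_Kv.2 (Finset.mem_filter.1 hi).2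
  have h := Kv_eq (J := J) hsub hdet hz hz' (hT.trans (hsubs z)) (hT'.trans (hsubs z')) hy hy'
  have e : ∀ z, K1 c J D1 z = D1.filter (fun i => i ∈ Kv c J z) := by
    intro z
    unfold K1
    refine Finset.filter_congr fun i _ => ?_
    rw [mem_Kv]
  rw [e z, e z', h]

/-- **Few points in small rows.** -/
lemma small_rows (hsub : ∀ z ∈ W, ∀ j, Sub (c j z) z)
    (hdet : ∀ j, ∀ z ∈ W, ∀ z' ∈ W, Compat (c j z) (c j z') → c j z = c j z')
    (t1 ρ : ℕ) (T2 : Finset (Fin n))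
    [∀ T1, DecidablePred fun u => (cls (UU c J W D1 D2 m1 m2 T1 T2) T1 u).card ≤ ρ] :
    (∑ T1 ∈ D1.powersetCard t1, ((UU c J W D1 D2 m1 m2 T1 T2).filter
      (fun u => (cls (UU c J W D1 D2 m1 m2 T1 T2) T1 u).card ≤ ρ)).card) * 2 ^ t1 ≤
      ρ * 2 ^ n * m1.choose t1 := by
  classical
  set Yt : Finset (Fin n) → Finset (Fin n → Bool) :=
    fun T1 => univ.filter (fun y => ∃ u ∈ W, T1 ⊆ sel m1 (K1 c J D1 u) ∧ y ∈ cube T1 u) with hYt
  have h2 : ∀ T1 ∈ D1.powersetCard t1, ((UU c J W D1 D2 m1 m2 T1 T2).filter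
      (fun u => (cls (UU c J W D1 D2 m1 m2 T1 T2) T1 u).card ≤ ρ)).card * 2 ^ t1 ≤ ρ * (Yt T1).card := by
    intro T1 hT1
    have hc : T1.card = t1 := (Finset.mem_powersetCard.1 hT1).2
    rw [← hc]
    refine small_classes T1 (UU c J W D1 D2 m1 m2 T1 T2) _ (Yt T1) ρ (Finset.filter_subset _ _) ?_ ?_
    · intro z hz
      have := (Finset.mem_filter.1 hz).2
      unfold cls at this
      refine le_trans (le_of_eq ?_) this
      congr 1
    · intro z hz y hy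
      have hz1 := (Finset.mem_filter.1 hz).1
      unfold UU at hz1
      obtain ⟨hz2, hz3, _⟩ := Finset.mem_filter.1 hz1
      exact Finset.mem_filter.2 ⟨Finset.mem_univ _, z, hz2, hz3, hy⟩
  have h3 : ∑ T1 ∈ D1.powersetCard t1, (Yt T1).card ≤ 2 ^ n * m1.choose t1 := by
    have e1 : ∀ T1, (Yt T1).card =
        ∑ y : Fin n → Bool, if (∃ z ∈ W, T1 ⊆ sel m1 (K1 c J D1 z) ∧ y ∈ cube T1 z) then 1 else 0 := by
      intro T1
      rw [hYt]
      rw [Finset.card_filter]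
    rw [Finset.sum_congr rfl fun T1 _ => e1 T1, Finset.sum_comm]
    have e2 : ∀ y : Fin n → Bool,
        (∑ T1 ∈ D1.powersetCard t1, if (∃ z ∈ W, T1 ⊆ sel m1 (K1 c J D1 z) ∧ y ∈ cube T1 z) then 1 else 0) ≤
          m1.choose t1 := by
      intro y
      rw [← Finset.card_filter]
      rcases ((D1.powersetCard t1).filter
        fun T1 => ∃ z ∈ W, T1 ⊆ sel m1 (K1 c J D1 z) ∧ y ∈ cube T1 z).eq_empty_or_nonempty with h | ⟨T0, hT0⟩
      · rw [h, Finset.card_empty]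
        exact Nat.zero_le _
      · obtain ⟨_, z0, hz0, hT0K, hy0⟩ := Finset.mem_filter.1 hT0
        have e3 : ((D1.powersetCard t1).filter
            fun T1 => ∃ z ∈ W, T1 ⊆ sel m1 (K1 c J D1 z) ∧ y ∈ cube T1 z) ⊆
            (sel m1 (K1 c J D1 z0)).powersetCard t1 := by
          intro T1 hT1
          obtain ⟨h4, z1, hz1, hT1K, hy1⟩ := Finset.mem_filter.1 hT1
          have h5 : K1 c J D1 z1 = K1 c J D1 z0 :=
            K1_eq hsub hdet hz1 hz0 (hT1K.trans (sel_subset _ _)) (hT0K.trans (sel_subset _ _)) hy1 hy0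
          refine Finset.mem_powersetCard.2 ⟨?_, (Finset.mem_powersetCard.1 h4).2⟩
          rw [← h5]
          exact hT1K
        refine (Finset.card_le_card e3).trans ?_
        rw [Finset.card_powersetCard]
        exact Nat.choose_le_choose _ (card_sel_le _ _)
    calc _ ≤ ∑ _y : Fin n → Bool, m1.choose t1 := Finset.sum_le_sum fun y _ => e2 y
      _ = 2 ^ n * m1.choose t1 := by
          rw [Finset.sum_const, smul_eq_mul, Finset.card_univ, Fintype.card_fun, Fintype.card_bool,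
            Fintype.card_fin]
  rw [Finset.sum_mul]
  calc _ ≤ ∑ T1 ∈ D1.powersetCard t1, ρ * (Yt T1).card := Finset.sum_le_sum h2
    _ = ρ * ∑ T1 ∈ D1.powersetCard t1, (Yt T1).card := by rw [Finset.mul_sum]
    _ ≤ ρ * (2 ^ n * m1.choose t1) := Nat.mul_le_mul_left _ h3
    _ = _ := by ring

/-- few points in small columns -/
lemma small_cols (L : ℕ) (T1 T2 : Finset (Fin n))
    [DecidablePred fun u => (cls (UU c J W D1 D2 m1 m2 T1 T2) T2 u).card ≤ L] :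
    ((UU c J W D1 D2 m1 m2 T1 T2).filter
      (fun u => (cls (UU c J W D1 D2 m1 m2 T1 T2) T2 u).card ≤ L)).card * 2 ^ T2.card ≤ L * 2 ^ n := by
  classical
  have h := small_classes T2 (UU c J W D1 D2 m1 m2 T1 T2)
    ((UU c J W D1 D2 m1 m2 T1 T2).filter (fun u => (cls (UU c J W D1 D2 m1 m2 T1 T2) T2 u).card ≤ L))
    univ L (Finset.filter_subset _ _) ?_ (fun z _ => Finset.subset_univ _)
  · rw [Finset.card_univ, Fintype.card_fun, Fintype.card_bool, Fintype.card_fin] at h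
    exact h
  · intro z hz
    have := (Finset.mem_filter.1 hz).2
    unfold cls at this
    refine le_trans (le_of_eq ?_) this
    congr 1

/-- **Uniform weights.** -/
lemma sum_UU {t1 t2 : ℕ} (ht1 : 1 ≤ t1) (ht2 : 1 ≤ t2) (φ : (Fin n → Bool) → ℤ)
    [DecidablePred (Good c J D1 D2 m1 m2)] :
    ∑ T2 ∈ D2.powersetCard t2, ∑ T1 ∈ D1.powersetCard t1, ∑ u ∈ UU c J W D1 D2 m1 m2 T1 T2, φ u =
      (m1.choose t1 * m2.choose t2 : ℕ) * ∑ u ∈ W.filter (Good c J D1 D2 m1 m2), φ u := by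
  classical
  have e1 : ∀ T1 T2, ∑ u ∈ UU c J W D1 D2 m1 m2 T1 T2, φ u =
      ∑ u ∈ W, (if T1 ⊆ sel m1 (K1 c J D1 u) then 1 else 0) * ((if T2 ⊆ sel m2 (K2 c J D2 u) then 1 else 0) * φ u) := by
    intro T1 T2
    unfold UU
    rw [Finset.sum_filter]
    refine Finset.sum_congr rfl fun u _ => ?_
    by_cases h1 : T1 ⊆ sel m1 (K1 c J D1 u)
    · by_cases h2 : T2 ⊆ sel m2 (K2 c J D2 u)
      · simp [h1, h2]
      · simp [h2]
    · simp [h1]
  have cnt : ∀ {D K : Finset (Fin n)} {m t : ℕ}, 1 ≤ t → K ⊆ D →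
      (∑ T ∈ D.powersetCard t, (if T ⊆ sel m K then (1 : ℤ) else 0)) = if m ≤ K.card then (m.choose t : ℤ) else 0 := by
    intro D K m t ht hK
    have e3 : (D.powersetCard t).filter (fun T => T ⊆ sel m K) = (sel m K).powersetCard t := by
      ext T
      rw [Finset.mem_filter, Finset.mem_powersetCard, Finset.mem_powersetCard]
      exact ⟨fun h => ⟨h.2, h.1.2⟩, fun h => ⟨⟨h.1.trans ((sel_subset _ _).trans hK), h.2⟩, h.1⟩⟩
    rw [Finset.sum_boole, e3, Finset.card_powersetCard]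
    split_ifs with h
    · rw [card_sel h]
    · rw [sel_eq_empty h, Finset.card_empty]
      have : (0 : ℕ).choose t = 0 := Nat.choose_eq_zero_of_lt (by omega)
      rw [this]
      rfl
  have e2 : ∀ T2, ∑ T1 ∈ D1.powersetCard t1, ∑ u ∈ UU c J W D1 D2 m1 m2 T1 T2, φ u =
      ∑ u ∈ W, (if m1 ≤ (K1 c J D1 u).card then (m1.choose t1 : ℤ) else 0) *
        ((if T2 ⊆ sel m2 (K2 c J D2 u) then 1 else 0) * φ u) := by
    intro T2
    rw [Finset.sum_congr rfl fun T1 _ => e1 T1 T2, Finset.sum_comm]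
    refine Finset.sum_congr rfl fun u _ => ?_
    rw [← Finset.sum_mul, cnt ht1 (K1_subset D1 u)]
  rw [Finset.sum_congr rfl fun T2 _ => e2 T2, Finset.sum_comm, Finset.sum_filter, Finset.mul_sum]
  refine Finset.sum_congr rfl fun u _ => ?_
  have e4 : ∑ T2 ∈ D2.powersetCard t2, (if m1 ≤ (K1 c J D1 u).card then (m1.choose t1 : ℤ) else 0) *
        ((if T2 ⊆ sel m2 (K2 c J D2 u) then 1 else 0) * φ u) =
      (if m1 ≤ (K1 c J D1 u).card then (m1.choose t1 : ℤ) else 0) *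
        ((if m2 ≤ (K2 c J D2 u).card then (m2.choose t2 : ℤ) else 0) * φ u) := by
    rw [← Finset.mul_sum, ← Finset.sum_mul, cnt ht2 (K2_subset D2 u)]
  rw [e4]
  by_cases h1 : m1 ≤ (K1 c J D1 u).card
  · by_cases h2 : m2 ≤ (K2 c J D2 u).card
    · have hg : Good c J D1 D2 m1 m2 u := ⟨h1, h2⟩
      rw [if_pos h1, if_pos h2, if_pos hg]
      push_cast
      ring
    · have hg : ¬ Good c J D1 D2 m1 m2 u := fun h => h2 h.2
      rw [if_neg h2, if_neg hg]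
      ring
  · have hg : ¬ Good c J D1 D2 m1 m2 u := fun h => h1 h.1
    rw [if_neg h1, if_neg hg]
    ring

/-- **The two-sided core theorem.** -/
theorem core_two {n R : ℕ} {c : Fin R → (Fin n → Bool) → Fin n → Option Bool}
    {W : Finset (Fin n → Bool)} {J : Finset (Fin R)} (hsub : ∀ z ∈ W, ∀ j, Sub (c j z) z)
    (hdet : ∀ j, ∀ z ∈ W, ∀ z' ∈ W, Compat (c j z) (c j z') → c j z = c j z')
    (hclosed : ∀ u, (∀ j, ∃ w ∈ W, Sub (c j w) u) → u ∈ W) {D1 D2 : Finset (Fin n)}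
    (hD : Disjoint D1 D2) {m1 m2 e D0 lam : ℕ} (he : e = D0 + 22) (f : (Fin n → Bool) → Bool)
    (hbal : Bal f e) (h1 : D1.card.choose (8 * e) ≤ 2 ^ (lam * (8 * e)) * m1.choose (8 * e))
    (h2 : D2.card.choose ((8 * lam + 4) * e) ≤ 2 ^ e * m2.choose ((8 * lam + 4) * e))
    (hp1 : 8 * e ≤ m1) (hp2 : (8 * lam + 4) * e ≤ m2) [DecidablePred (Good c J D1 D2 m1 m2)] :
    |∑ u ∈ W.filter (Good c J D1 D2 m1 m2), (sg (f u) : ℝ)| ≤
      (W.card : ℝ) / 64 + 2 ^ n / 2 ^ (D0 + 7) := by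
  classical
  obtain ⟨t1, ht1⟩ : ∃ t1, t1 = 8 * e := ⟨_, rfl⟩
  obtain ⟨t2, ht2⟩ : ∃ t2, t2 = (8 * lam + 4) * e := ⟨_, rfl⟩
  rw [← ht1] at h1 hp1
  rw [← ht2] at h2 hp2
  have he1 : 1 ≤ e := by omega
  have ht1p : 1 ≤ t1 := by omega
  have ht2p : 1 ≤ t2 := by
    rw [ht2]
    exact Nat.one_le_iff_ne_zero.2 (Nat.mul_ne_zero (by omega) (by omega))
  set ρ := 2 ^ (6 * e + 14) with hρ
  set L := 2 ^ (2 * e) with hL
  set C1 := m1.choose t1 with hC1
  set C2 := m2.choose t2 with hC2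
  have hC1p : 0 < C1 := Nat.choose_pos hp1
  have hC2p : 0 < C2 := Nat.choose_pos hp2
  set A : Finset (Fin n) → Finset (Fin n) → ℕ := fun T1 T2 => ((UU c J W D1 D2 m1 m2 T1 T2).filter
      (fun u => (cls (UU c J W D1 D2 m1 m2 T1 T2) T1 u).card ≤ ρ)).card with hA
  set B : Finset (Fin n) → Finset (Fin n) → ℕ := fun T1 T2 => ((UU c J W D1 D2 m1 m2 T1 T2).filter
      (fun u => (cls (UU c J W D1 D2 m1 m2 T1 T2) T2 u).card ≤ L)).card with hB
  -- each pair of sets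
  have hbalance : ∀ T2 ∈ D2.powersetCard t2, ∀ T1 ∈ D1.powersetCard t1,
      64 * |∑ u ∈ UU c J W D1 D2 m1 m2 T1 T2, sg (f u)| ≤
        (∑ u ∈ UU c J W D1 D2 m1 m2 T1 T2, (1 : ℤ)) + 64 * A T1 T2 + 64 * B T1 T2 := by
    intro T2 hT2 T1 hT1
    obtain ⟨hT2a, hT2b⟩ := Finset.mem_powersetCard.1 hT2
    obtain ⟨hT1a, hT1b⟩ := Finset.mem_powersetCard.1 hT1
    have hd : ∀ i ∈ T1, i ∉ T2 := fun i h1 h2 => Finset.disjoint_left.1 hD (hT1a h1) (hT2a h2)
    have h := balance (U := UU c J W D1 D2 m1 m2 T1 T2) (T2 := T2) hbal (by rw [hT1b, ht1]) hd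
      (fun u hu u' hu' h => UU_mix hsub hdet hclosed hu hu' h)
    rw [Finset.sum_const, nsmul_eq_mul, mul_one]
    exact h
  -- sums
  have hsumA : (∑ T2 ∈ D2.powersetCard t2, ∑ T1 ∈ D1.powersetCard t1, A T1 T2) * 2 ^ t1 ≤
      D2.card.choose t2 * (ρ * 2 ^ n * C1) := by
    rw [Finset.sum_mul, ← Finset.card_powersetCard t2 D2, ← smul_eq_mul (a := (D2.powersetCard t2).card)]
    exact Finset.sum_le_card_nsmul _ _ _ fun T2 _ => small_rows hsub hdet t1 ρ T2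
  have hsumB : (∑ T2 ∈ D2.powersetCard t2, ∑ T1 ∈ D1.powersetCard t1, B T1 T2) * 2 ^ t2 ≤
      D2.card.choose t2 * (D1.card.choose t1 * (L * 2 ^ n)) := by
    rw [Finset.sum_mul, ← Finset.card_powersetCard t2 D2, ← smul_eq_mul (a := (D2.powersetCard t2).card)]
    refine Finset.sum_le_card_nsmul _ _ _ fun T2 hT2 => ?_
    rw [Finset.sum_mul, ← Finset.card_powersetCard t1 D1, ← smul_eq_mul (a := (D1.powersetCard t1).card)]
    refine Finset.sum_le_card_nsmul _ _ _ fun T1 _ => ?_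
    have := small_cols (c := c) (J := J) (W := W) (D1 := D1) (D2 := D2) (m1 := m1) (m2 := m2) L T1 T2
    rw [(Finset.mem_powersetCard.1 hT2).2] at this
    exact this
  have hmain : 64 * |((C1 * C2 : ℕ) : ℤ) * ∑ u ∈ W.filter (Good c J D1 D2 m1 m2), sg (f u)| ≤
      ((C1 * C2 : ℕ) : ℤ) * (∑ u ∈ W.filter (Good c J D1 D2 m1 m2), (1 : ℤ)) +
        64 * (∑ T2 ∈ D2.powersetCard t2, ∑ T1 ∈ D1.powersetCard t1, A T1 T2 : ℕ) +
        64 * (∑ T2 ∈ D2.powersetCard t2, ∑ T1 ∈ D1.powersetCard t1, B T1 T2 : ℕ) := by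
    rw [← sum_UU ht1p ht2p (fun u => sg (f u)), ← sum_UU ht1p ht2p (fun _ => 1)]
    calc 64 * |∑ T2 ∈ D2.powersetCard t2, ∑ T1 ∈ D1.powersetCard t1,
          ∑ u ∈ UU c J W D1 D2 m1 m2 T1 T2, sg (f u)|
        ≤ 64 * ∑ T2 ∈ D2.powersetCard t2, ∑ T1 ∈ D1.powersetCard t1,
          |∑ u ∈ UU c J W D1 D2 m1 m2 T1 T2, sg (f u)| := by
          refine mul_le_mul_of_nonneg_left ((Finset.abs_sum_le_sum_abs _ _).trans ?_) (by norm_num)
          exact Finset.sum_le_sum fun T2 _ => Finset.abs_sum_le_sum_abs _ _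
      _ = ∑ T2 ∈ D2.powersetCard t2, ∑ T1 ∈ D1.powersetCard t1,
          64 * |∑ u ∈ UU c J W D1 D2 m1 m2 T1 T2, sg (f u)| := by
          rw [Finset.mul_sum]
          refine Finset.sum_congr rfl fun T2 _ => ?_
          rw [Finset.mul_sum]
      _ ≤ ∑ T2 ∈ D2.powersetCard t2, ∑ T1 ∈ D1.powersetCard t1,
          ((∑ u ∈ UU c J W D1 D2 m1 m2 T1 T2, (1 : ℤ)) + 64 * A T1 T2 + 64 * B T1 T2) :=
          Finset.sum_le_sum fun T2 hT2 => Finset.sum_le_sum fun T1 hT1 => hbalance T2 hT2 T1 hT1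
      _ = _ := by
          simp only [Finset.sum_add_distrib, Finset.mul_sum]
          push_cast
          simp only [Finset.mul_sum]
  -- pass to the reals
  set SA := ∑ T2 ∈ D2.powersetCard t2, ∑ T1 ∈ D1.powersetCard t1, A T1 T2
  set SB := ∑ T2 ∈ D2.powersetCard t2, ∑ T1 ∈ D1.powersetCard t1, B T1 T2
  set S := ∑ u ∈ W.filter (Good c J D1 D2 m1 m2), sg (f u) with hS
  have hgood : (∑ u ∈ W.filter (Good c J D1 D2 m1 m2), (1 : ℤ)) ≤ W.card := by
    rw [Finset.sum_const, nsmul_eq_mul, mul_one]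
    exact_mod_cast Finset.card_le_card (Finset.filter_subset _ _)
  have hC : (0 : ℝ) < (C1 : ℝ) * C2 := by positivity
  have hA' : (SA : ℝ) * 2 ^ (D0 + 8) ≤ (C1 : ℝ) * C2 * 2 ^ n := by
    have h3 : SA * 2 ^ t1 ≤ 2 ^ e * C2 * (ρ * 2 ^ n * C1) := hsumA.trans (Nat.mul_le_mul_right _ h2)
    have h4 : (SA * 2 ^ (D0 + 8)) * 2 ^ (e + (6 * e + 14)) ≤ (C1 * C2 * 2 ^ n) * 2 ^ (e + (6 * e + 14)) := by
      calc (SA * 2 ^ (D0 + 8)) * 2 ^ (e + (6 * e + 14)) = SA * 2 ^ t1 := by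
            rw [mul_assoc, ← pow_add]; congr 2; omega
        _ ≤ 2 ^ e * C2 * (ρ * 2 ^ n * C1) := h3
        _ = _ := by rw [hρ, pow_add 2 e]; ring
    have h5 := Nat.le_of_mul_le_mul_right h4 (by positivity)
    exact_mod_cast h5
  have hB' : (SB : ℝ) * 2 ^ (D0 + 8) ≤ (C1 : ℝ) * C2 * 2 ^ n := by
    have h3 : SB * 2 ^ t2 ≤ 2 ^ e * C2 * ((2 ^ (lam * t1) * C1) * (L * 2 ^ n)) :=
      hsumB.trans (Nat.mul_le_mul h2 (Nat.mul_le_mul_right _ h1))
    have h4 : (SB * 2 ^ (D0 + 8)) * 2 ^ (e + lam * t1 + 2 * e) ≤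
        (C1 * C2 * 2 ^ n) * 2 ^ (e + lam * t1 + 2 * e) := by
      calc (SB * 2 ^ (D0 + 8)) * 2 ^ (e + lam * t1 + 2 * e) = SB * 2 ^ (D0 + 8 + (e + lam * t1 + 2 * e)) := by
            rw [mul_assoc, ← pow_add]
        _ ≤ SB * 2 ^ t2 := by
            refine Nat.mul_le_mul_left _ (Nat.pow_le_pow_right (by norm_num) ?_)
            rw [ht2, ht1]
            have : (8 * lam + 4) * e = lam * (8 * e) + 4 * e := by ring
            omega
        _ ≤ 2 ^ e * C2 * ((2 ^ (lam * t1) * C1) * (L * 2 ^ n)) := h3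
        _ = _ := by rw [hL]; ring
    have h5 := Nat.le_of_mul_le_mul_right h4 (by positivity)
    exact_mod_cast h5
  have hmain' : 64 * ((C1 : ℝ) * C2 * |(S : ℝ)|) ≤ (C1 : ℝ) * C2 * W.card + 64 * SA + 64 * SB := by
    have h6 : 64 * |((C1 * C2 : ℕ) : ℤ) * S| ≤ ((C1 * C2 : ℕ) : ℤ) * W.card + 64 * SA + 64 * SB := by
      refine hmain.trans ?_
      have : ((C1 * C2 : ℕ) : ℤ) * (∑ u ∈ W.filter (Good c J D1 D2 m1 m2), (1 : ℤ)) ≤
          ((C1 * C2 : ℕ) : ℤ) * W.card := mul_le_mul_of_nonneg_left hgood (Nat.cast_nonneg _)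
      linarith
    have h7 : ((64 * |((C1 * C2 : ℕ) : ℤ) * S| : ℤ) : ℝ) ≤
        ((((C1 * C2 : ℕ) : ℤ) * W.card + 64 * SA + 64 * SB : ℤ) : ℝ) := by exact_mod_cast h6
    push_cast at h7
    rw [abs_mul, abs_of_pos hC] at h7
    linarith
  have hgoal : |(S : ℝ)| ≤ (W.card : ℝ) / 64 + 2 ^ n / 2 ^ (D0 + 7) := by
    refine le_of_mul_le_mul_left ?_ hC
    have h8 : (2 : ℝ) ^ (D0 + 8) = 2 * 2 ^ (D0 + 7) := by ring
    have h9 : (0 : ℝ) < 2 ^ (D0 + 7) := by positivity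
    have hA'' : (SA : ℝ) ≤ (C1 : ℝ) * C2 * (2 ^ n / 2 ^ (D0 + 7)) / 2 := by
      rw [le_div_iff₀ (by norm_num), ← mul_div_assoc, le_div_iff₀ h9]
      rw [h8] at hA'
      linarith
    have hB'' : (SB : ℝ) ≤ (C1 : ℝ) * C2 * (2 ^ n / 2 ^ (D0 + 7)) / 2 := by
      rw [le_div_iff₀ (by norm_num), ← mul_div_assoc, le_div_iff₀ h9]
      rw [h8] at hB'
      linarith
    nlinarith [hmain', hA'', hB'']
  have hcast : ((S : ℤ) : ℝ) = ∑ u ∈ W.filter (Good c J D1 D2 m1 m2), (sg (f u) : ℝ) := by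
    rw [hS, Int.cast_sum]
  rw [← hcast]
  exact hgoal

end Pool.Agent.KE
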