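import Pool.Agent.KE.Reg

/-! The rows `X ^ k` and `a ^ (top digits of x)` modulo `X ^ M + g`, in coefficients. -/

namespace Pool.Agent.KE

open Finset Polynomial

/-- a bit as an element of the field with two elements -/
def zb (b : Bool) : ZMod 2 := if b = true then 1 else 0

/-- the number with the top `j` digits -/
def topExp (n : ℕ) (x : ℕ → Bool) (j : ℕ) : ℕ := numOf j (fun i => x (n - j + i))

theorem topExp_self (n : ℕ) (x : ℕ → Bool) : topExp n x n = numOf n x := by
  unfold topExp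
  simp only [Nat.sub_self, zero_add]

lemma one_row {M : ℕ} (hM : 1 ≤ M) (g : ℕ → Bool) (i : ℕ) :
    ((1 : (ZMod 2)[X]) %ₘ modu M g).coeff i = if i = 0 then 1 else 0 := by
  rw [(modByMonic_eq_self_iff (modu_monic M g)).2, coeff_one]
  rw [modu_degree, degree_one]
  exact_mod_cast hM

theorem row_zero {M : ℕ} (hM : 1 ≤ M) (g : ℕ → Bool) {i : ℕ} (_hi : i < M) :
    ((X ^ 0 : (ZMod 2)[X]) %ₘ modu M g).coeff i = if i = 0 then 1 else 0 := by
  rw [pow_zero]
  exact one_row hM g i

lemma zb_xor (a b : Bool) : zb (xor a b) = zb a + zb b := by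
  cases a <;> cases b <;> decide

lemma zb_and (a b : Bool) : zb (a && b) = zb a * zb b := by
  cases a <;> cases b <;> decide

lemma exists_el {M : ℕ} (g : ℕ → Bool) (z : AdjoinRoot (modu M g)) : ∃ c : ℕ → Bool, el M g c = z := by
  obtain ⟨c, hc⟩ := (el_bij M g).2 z
  exact ⟨ex0 c, hc⟩

lemma co_el' {M : ℕ} (g c : ℕ → Bool) {i : ℕ} (hi : i < M) : co M g i (el M g c) = zb (c i) := co_el g c hi

lemma co_rt_mul {M : ℕ} (hM : 1 ≤ M) (g : ℕ → Bool) (z : AdjoinRoot (modu M g)) {i : ℕ} (hi : i < M) :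
    co M g i (rt M g * z) = (if i = 0 then 0 else co M g (i - 1) z) + co M g (M - 1) z * zb (g i) := by
  obtain ⟨c, rfl⟩ := exists_el g z
  rw [← el_sh hM, co_el' g _ hi, co_el' g _ (by omega : M - 1 < M)]
  unfold sh
  rw [zb_xor, zb_and]
  congr 1
  split_ifs with h
  · rfl
  · rw [co_el' g _ (by omega : i - 1 < M)]

theorem row_succ {M : ℕ} (hM : 1 ≤ M) (g : ℕ → Bool) (k : ℕ) {i : ℕ} (hi : i < M) :
    ((X ^ (k + 1) : (ZMod 2)[X]) %ₘ modu M g).coeff i =
      (if i = 0 then 0 else ((X ^ k : (ZMod 2)[X]) %ₘ modu M g).coeff (i - 1)) +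
        ((X ^ k : (ZMod 2)[X]) %ₘ modu M g).coeff (M - 1) * zb (g i) := by
  simp only [← co_mk]
  rw [pow_succ', map_mul]
  exact co_rt_mul hM g _ hi

theorem pow_zero_row {M n : ℕ} (hM : 1 ≤ M) (g a x : ℕ → Bool) {i : ℕ} (_hi : i < M) :
    ((polyOf M a ^ topExp n x 0) %ₘ modu M g).coeff i = if i = 0 then 1 else 0 := by
  have e : topExp n x 0 = 0 := by simp [topExp, numOf]
  rw [e, pow_zero]
  exact one_row hM g i

/-- expansion in the powers of `X` -/
lemma el_expand {M : ℕ} (g : ℕ → Bool) (z : AdjoinRoot (modu M g)) :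
    z = ∑ p ∈ range M, co M g p z • rt M g ^ p := by
  obtain ⟨c, rfl⟩ := exists_el g z
  conv_lhs => rw [el_sum]
  refine Finset.sum_congr rfl fun p hp => ?_
  rw [co_el' g _ (mem_range.1 hp)]
  unfold zb
  split_ifs
  · rw [one_smul]
  · rw [zero_smul]

lemma topExp_succ {n : ℕ} (x : ℕ → Bool) {j : ℕ} (hj : j < n) : topExp n x (j + 1) =
    2 * topExp n x j + if x (n - (j + 1)) = true then 1 else 0 := by
  unfold topExp
  rw [numOf_shift n j x hj, show n - 1 - j = n - (j + 1) by omega]

theorem pow_succ_row {M n : ℕ} (hM : 1 ≤ M) (g a x : ℕ → Bool) {j : ℕ} (hj : j < n) {i : ℕ}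
    (_hi : i < M) : ((polyOf M a ^ topExp n x (j + 1)) %ₘ modu M g).coeff i =
      ∑ p ∈ range M, ∑ q ∈ range M, ∑ s ∈ range M,
        ((polyOf M a ^ topExp n x j) %ₘ modu M g).coeff p *
          ((polyOf M a ^ topExp n x j) %ₘ modu M g).coeff q *
          zb (if x (n - (j + 1)) = true then a s else decide (s = 0)) *
          ((X ^ (p + q + s) : (ZMod 2)[X]) %ₘ modu M g).coeff i := by
  simp only [← co_mk]
  set z := AdjoinRoot.mk (modu M g) (polyOf M a ^ topExp n x j) with hz
  set w : ℕ → Bool := fun s => if x (n - (j + 1)) = true then a s else decide (s = 0) with hw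
  have h1 : AdjoinRoot.mk (modu M g) (polyOf M a ^ topExp n x (j + 1)) = z * z * el M g w := by
    rw [topExp_succ x hj, pow_add, pow_mul', map_mul, pow_two, map_mul, ← hz]
    congr 1
    by_cases hx : x (n - (j + 1)) = true
    · have e : w = a := by
        funext s
        rw [hw]
        simp only [hx, if_true]
      rw [if_pos hx, pow_one, e]
      rfl
    · have e : w = one1 := by
        funext s
        rw [hw]
        simp only [hx, if_false, one1, Bool.false_eq_true]
      rw [if_neg hx, pow_zero, map_one, e, el_one hM]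
  rw [h1]
  have h2 := el_expand g z
  have h3 : el M g w = ∑ s ∈ range M, zb (w s) • rt M g ^ s := by
    rw [el_sum]
    refine Finset.sum_congr rfl fun s _ => ?_
    unfold zb
    split_ifs
    · rw [one_smul]
    · rw [zero_smul]
  have h4 : z * z * el M g w = ∑ p ∈ range M, ∑ q ∈ range M, ∑ s ∈ range M,
      (co M g p z * co M g q z * zb (w s)) • rt M g ^ (p + q + s) := by
    conv_lhs => rw [h3, h2]
    rw [Finset.sum_mul_sum, Finset.sum_mul]
    refine Finset.sum_congr rfl fun p _ => ?_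
    rw [Finset.sum_mul]
    refine Finset.sum_congr rfl fun q _ => ?_
    rw [Finset.mul_sum]
    refine Finset.sum_congr rfl fun s _ => ?_
    rw [smul_mul_smul_comm, smul_mul_smul_comm, pow_add, pow_add]
  rw [h4]
  simp only [map_sum, map_smul, smul_eq_mul]
  refine Finset.sum_congr rfl fun p _ => Finset.sum_congr rfl fun q _ => Finset.sum_congr rfl fun s _ => ?_
  rw [rt, ← map_pow]

end Pool.Agent.KE
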