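import Pool.Agent.KE.CoreTwo
import Pool.Agent.KD.Growth

/-! The two-sided bound for a family of skeletons: choice of all the numbers. -/

namespace Pool.Agent.KE

open Finset Pool.Agent.SemRO Pool.Agent.KD
open Pool.Agent.KQL (xb)

/-- a good set of players exists (`KE/GoodJ`) -/
def ExistsJ : Prop :=
  ∀ {n R k q m1 m2 : ℕ}, 1 ≤ q → 1 ≤ k → 2 ^ 14 * k ^ 2 * q ^ (4 * k) ≤ R →
    ∀ (W : Finset (Fin n → Bool)) (d : Fin R → (Fin n → Bool) → Finset (Fin n)),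
    (∀ u ∈ W, ∀ j, (d j u).card * R ≤ k * n) → ∀ (D1 D2 : Finset (Fin n)), 9 * n ≤ 20 * D1.card →
    16 * q ^ (4 * k) * m1 ≤ n → q * m2 + 200 * k * n ≤ q * D2.card →
    ∃ J : Finset (Fin R), ∀ S : Finset (Fin n → Bool), S ⊆ W →
      (∀ u ∈ S, ¬ (m1 ≤ (D1.filter fun i => ∀ j, j ∉ J → i ∉ d j u).card ∧
        m2 ≤ (D2.filter fun i => ∀ j ∈ J, i ∉ d j u).card)) → 100 * S.card ≤ W.card

/-- good seeds exist (`KE/Seed`) -/
def ExistsSeed : Prop :=
  ∀ {n e q : ℕ}, 1 ≤ e → 8 * e ≤ n → n ≤ q * e → q * e ≤ n + e → q ^ (2 * q) * 4 ≤ 2 ^ n →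
    ∃ g a b : ℕ → Bool, Bal (fun x : Fin n → Bool => decide (expBit (9 * n) n g a b (xb x) = 1)) e

/-- the base-two logarithm of the number of colours -/
def lq (k : ℕ) : ℕ := 21 + 3 * Nat.clog 2 k

/-- the number of colours -/
def qq (k : ℕ) : ℕ := 2 ^ lq k

/-- the loss per private variable -/
def lamk (k : ℕ) : ℕ := 5 + 4 * k * lq k

/-- the number of segments -/
def Rk (k : ℕ) : ℕ := 2 ^ 14 * k ^ 2 * qq k ^ (4 * k) + 1

/-- `n / Bk k` is the parameter `e` -/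
def Bk (k : ℕ) : ℕ := 256 * qq k ^ (4 * k)

lemma clog_le_self (k : ℕ) : Nat.clog 2 k ≤ k := by
  rcases Nat.lt_or_ge 1 k with h | h
  · exact (Nat.clog_le_iff_le_pow (by norm_num)).2 Nat.lt_two_pow_self.le
  · rcases Nat.lt_or_ge 0 k with h' | h'
    · have : k = 1 := by omega
      rw [this, Nat.clog_one_right]
      omega
    · have : k = 0 := by omega
      rw [this, Nat.clog_zero_right]

lemma qq_large {k : ℕ} (hk : 1 ≤ k) : 1600 * k * (8 * lamk k + 4) ≤ qq k := by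
  unfold qq lamk lq
  set l := Nat.clog 2 k with hl
  have h1 : k ≤ 2 ^ l := Nat.le_pow_clog (by norm_num) k
  have h2 : l ≤ k := clog_le_self k
  have h3 : (2 : ℕ) ^ (21 + 3 * l) = 2097152 * (2 ^ l) ^ 3 := by
    rw [pow_add, mul_comm 3 l, pow_mul]
    norm_num
  rw [h3]
  have h4 : k ^ 3 ≤ (2 ^ l) ^ 3 := Nat.pow_le_pow_left h1 3
  refine le_trans ?_ (Nat.mul_le_mul_left _ h4)
  have h5 : 8 * (5 + 4 * k * (21 + 3 * l)) + 4 ≤ 812 * k ^ 2 := by
    have h6 : k * l ≤ k * k := Nat.mul_le_mul_left _ h2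
    nlinarith
  calc 1600 * k * (8 * (5 + 4 * k * (21 + 3 * l)) + 4) ≤ 1600 * k * (812 * k ^ 2) :=
        Nat.mul_le_mul_left _ h5
    _ = 1299200 * k ^ 3 := by ring
    _ ≤ 2097152 * k ^ 3 := Nat.mul_le_mul_right _ (by norm_num)

lemma qq_pow_KB : KB (fun k => qq k ^ (4 * k)) := by
  refine ⟨108, fun k hk => ?_⟩
  have h1 : qq k ≤ k ^ 27 := by
    unfold qq lq
    have h3 : (2 : ℕ) ^ (21 + 3 * Nat.clog 2 k) = 2 ^ 21 * (2 ^ Nat.clog 2 k) ^ 3 := by
      rw [pow_add, mul_comm 3 (Nat.clog 2 k), pow_mul]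
    rw [h3]
    have h4 := two_pow_clog k (by omega)
    calc 2 ^ 21 * (2 ^ Nat.clog 2 k) ^ 3 ≤ 2 ^ 21 * (2 * k) ^ 3 :=
          Nat.mul_le_mul_left _ (Nat.pow_le_pow_left h4 3)
      _ = 2 ^ 24 * k ^ 3 := by ring
      _ ≤ k ^ 24 * k ^ 3 := Nat.mul_le_mul_right _ (Nat.pow_le_pow_left hk _)
      _ = k ^ 27 := by rw [← pow_add]
  calc qq k ^ (4 * k) ≤ (k ^ 27) ^ (4 * k) := Nat.pow_le_pow_left h1 _
    _ = k ^ (108 * k) := by rw [← pow_mul]; congr 1; ring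

lemma Rk_KB : KB Rk := by
  have hk : KB (fun k => k) := ⟨1, fun k hk => by
    calc k = k ^ 1 := (pow_one k).symm
      _ ≤ k ^ (1 * k) := Nat.pow_le_pow_right (by omega) (by omega)⟩
  exact ((((KB.const (2 ^ 14)).mul (hk.pow 2)).mul qq_pow_KB).add (KB.const 1)).mono fun _ _ => le_of_eq rfl

lemma Bk_KB : KB Bk := ((KB.const 256).mul qq_pow_KB).mono fun _ _ => le_of_eq rfl

lemma Rk_pos (k : ℕ) : 1 ≤ Rk k := Nat.le_add_left _ _

/-- **One skeleton.** -/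
theorem one_skeleton (hJ : ExistsJ) {k n : ℕ} (hk : 1 ≤ k) (hn : 16 * Bk k ^ 2 ≤ n) {D0 : ℕ}
    (hD0 : n / Bk k = D0 + 22) (f : (Fin n → Bool) → Bool) (hbal : Bal f (n / Bk k))
    (W : Finset (Fin n → Bool)) (c : Fin (Rk k) → (Fin n → Bool) → Fin n → Option Bool)
    (hsub : ∀ z ∈ W, ∀ j, Sub (c j z) z)
    (hdet : ∀ j, ∀ z ∈ W, ∀ z' ∈ W, Compat (c j z) (c j z') → c j z = c j z')
    (hclosed : ∀ u, (∀ j, ∃ w ∈ W, Sub (c j w) u) → u ∈ W)
    (hdom : ∀ z ∈ W, ∀ j, (dom (c j z)).card * Rk k ≤ k * n) :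
    |∑ u ∈ W, (sg (f u) : ℝ)| ≤ (W.card : ℝ) * (1 / 64 + 1 / 100) + 2 ^ n / 2 ^ (D0 + 7) := by
  classical
  obtain ⟨l, hl⟩ : ∃ l, l = lq k := ⟨_, rfl⟩
  obtain ⟨q, hq⟩ : ∃ q, q = qq k := ⟨_, rfl⟩
  obtain ⟨lam, hlam⟩ : ∃ lam, lam = lamk k := ⟨_, rfl⟩
  obtain ⟨mm, hmm⟩ : ∃ mm, mm = 8 * lam + 4 := ⟨_, rfl⟩
  obtain ⟨B, hB⟩ : ∃ B, B = Bk k := ⟨_, rfl⟩
  obtain ⟨e, he⟩ : ∃ e, e = n / B := ⟨_, rfl⟩
  obtain ⟨Q, hQ⟩ : ∃ Q, Q = q ^ (4 * k) := ⟨_, rfl⟩
  have hq2 : q = 2 ^ l := by rw [hq, hl]; rfl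
  have hqpos : 0 < q := by rw [hq2]; positivity
  have hQ2 : Q = 2 ^ (4 * k * l) := by rw [hQ, hq2, ← pow_mul]; ring_nf
  have hQpos : 0 < Q := by rw [hQ]; positivity
  have hlam2 : lam = 5 + 4 * k * l := by rw [hlam, hl]; rfl
  have hBQ : B = 256 * Q := by rw [hB, hQ, hq]; rfl
  have hqmm : 1600 * k * mm ≤ q := by rw [hmm, hlam, hq]; exact qq_large hk
  rw [← hB] at hn hD0 hbal
  rw [← he] at hD0 hbal
  have heB : B * e ≤ n := by rw [he]; exact Nat.mul_div_le n B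
  have hBpos : 0 < B := by rw [hBQ]; omega
  -- sizes
  have hQge : 4 * k * l + 1 ≤ Q := by rw [hQ2]; exact Nat.lt_two_pow_self
  have hl21 : 21 ≤ l := by rw [hl]; unfold lq; omega
  have hy1 : 1 ≤ 4 * k * l := Nat.one_le_iff_ne_zero.2 (by
    have : 0 < 4 * k * l := by positivity
    omega)
  have hmmB : 8 * mm ≤ B := by
    rw [hmm, hlam2, hBQ]
    obtain ⟨y, hy⟩ : ∃ y, y = 4 * k * l := ⟨_, rfl⟩
    rw [← hy] at hQge hy1 ⊢
    omega
  have hB256 : 256 ≤ B := by omega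
  have hnB : 16 * B ≤ n := by
    refine le_trans ?_ hn
    nlinarith
  have hn10 : 10 ≤ n := by omega
  -- the two halves
  obtain ⟨D1, hD1⟩ : ∃ D1 : Finset (Fin n), D1 = univ.filter (fun i : Fin n => (i : ℕ) < n / 2) := ⟨_, rfl⟩
  have hD1c : D1.card = n / 2 := by
    rw [hD1, Fin.card_filter_val_lt]
    omega
  obtain ⟨D2, hD2⟩ : ∃ D2 : Finset (Fin n), D2 = D1ᶜ := ⟨_, rfl⟩
  have hD2c : D2.card = n - n / 2 := by rw [hD2, Finset.card_compl, Fintype.card_fin, hD1c]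
  have hdisj : Disjoint D1 D2 := by rw [hD2]; exact disjoint_compl_right
  -- the numbers of private variables
  obtain ⟨m1, hm1⟩ : ∃ m1, m1 = n / (16 * Q) := ⟨_, rfl⟩
  obtain ⟨x, hx⟩ : ∃ x, x = 200 * k * n / q := ⟨_, rfl⟩
  obtain ⟨m2, hm2⟩ : ∃ m2, m2 = D2.card - (x + 1) := ⟨_, rfl⟩
  have hm1a : 16 * Q * m1 ≤ n := by rw [hm1]; exact Nat.mul_div_le n _
  have hm1b : n ≤ 16 * Q * (m1 + 1) := by
    rw [hm1]
    exact (Nat.lt_mul_div_succ n (show 0 < 16 * Q by omega)).le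
  have hm1e : 16 * e ≤ m1 := by
    rw [hm1, Nat.le_div_iff_mul_le (by omega)]
    calc 16 * e * (16 * Q) = 256 * Q * e := by ring
      _ = B * e := by rw [hBQ]
      _ ≤ n := heB
  have hxq : x * q ≤ 200 * k * n := by rw [hx]; exact Nat.div_mul_le_self _ _
  have hxq' : 200 * k * n ≤ q * (x + 1) := by
    rw [hx]
    exact (Nat.lt_mul_div_succ (200 * k * n) hqpos).le
  have hxmm : 8 * mm * x ≤ n := by
    have : (8 * mm * x) * q ≤ n * q := by
      calc (8 * mm * x) * q = 8 * mm * (x * q) := by ring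
        _ ≤ 8 * mm * (200 * k * n) := Nat.mul_le_mul_left _ hxq
        _ = (1600 * k * mm) * n := by ring
        _ ≤ q * n := Nat.mul_le_mul_right _ hqmm
        _ = n * q := by ring
    exact Nat.le_of_mul_le_mul_right this hqpos
  have hmme : 8 * mm * e ≤ n := (Nat.mul_le_mul_right _ hmmB).trans heB
  have hmm16 : 16 * mm ≤ n := by omega
  have hsp : 2 * mm * (x + 1) + mm * e ≤ D2.card := by
    rw [hD2c]
    have h1 : 4 * (2 * mm * x) ≤ n := by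
      calc 4 * (2 * mm * x) = 8 * mm * x := by ring
        _ ≤ n := hxmm
    have h2 : 8 * (mm * e) ≤ n := by
      calc 8 * (mm * e) = 8 * mm * e := by ring
        _ ≤ n := hmme
    have h3 : 2 * mm * (x + 1) = 2 * mm * x + 2 * mm := by ring
    omega
  have hxD : x + 1 ≤ D2.card := by
    refine le_trans ?_ hsp
    have hmm1 : 1 ≤ 2 * mm := by omega
    calc x + 1 = 1 * (x + 1) := (one_mul _).symm
      _ ≤ 2 * mm * (x + 1) := Nat.mul_le_mul_right _ hmm1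
      _ ≤ _ := Nat.le_add_right _ _
  -- binomial coefficients
  have h1 : D1.card.choose (8 * e) ≤ 2 ^ (lam * (8 * e)) * m1.choose (8 * e) := by
    have h2 : D1.card ≤ 2 ^ lam * (m1 - 8 * e) := by
      have h3 : m1 + 1 ≤ 4 * (m1 - 8 * e) := by
        have : 22 ≤ e := by omega
        omega
      rw [hD1c]
      have h4 : n ≤ 64 * Q * (m1 - 8 * e) := by
        calc n ≤ 16 * Q * (m1 + 1) := hm1b
          _ ≤ 16 * Q * (4 * (m1 - 8 * e)) := Nat.mul_le_mul_left _ h3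
          _ = _ := by ring
      have h5 : 2 ^ lam = 32 * Q := by rw [hlam2, hQ2, pow_add]; norm_num
      rw [h5]
      have h6 : 64 * Q * (m1 - 8 * e) = 2 * (32 * Q * (m1 - 8 * e)) := by ring
      omega
    have := choose_le_pow_mul h2
    rw [← pow_mul] at this
    exact this
  have hm2' : D2.card.choose (mm * e) ≤ 2 ^ e * m2.choose (mm * e) := by
    rw [hm2]
    exact choose_sparse (q := mm) (by omega) hsp (by rw [mul_comm])
  have hp1 : 8 * e ≤ m1 := by omega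
  have hp2 : mm * e ≤ m2 := by
    rw [hm2]
    have : 2 * mm * (x + 1) ≥ x + 1 := by
      calc x + 1 = 1 * (x + 1) := (one_mul _).symm
        _ ≤ 2 * mm * (x + 1) := Nat.mul_le_mul_right _ (by omega)
    omega
  -- the good set of players
  have hR : 2 ^ 14 * k ^ 2 * q ^ (4 * k) ≤ Rk k := by rw [hq]; exact Nat.le_succ _
  obtain ⟨J, hJ2⟩ := hJ (n := n) (R := Rk k) (k := k) (q := q) (m1 := m1) (m2 := m2) hqpos hk hR W
    (fun j u => dom (c j u)) hdom D1 D2 (by rw [hD1c]; omega) (by rw [← hQ]; exact hm1a)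
    (by
      rw [hm2]
      have h3 : q * (D2.card - (x + 1)) + q * (x + 1) = q * D2.card := by
        rw [← mul_add]
        congr 1
        omega
      omega)
  have hbad : 100 * (W.filter fun u => ¬ Good c J D1 D2 m1 m2 u).card ≤ W.card :=
    hJ2 _ (Finset.filter_subset _ _) fun u hu => (Finset.mem_filter.1 hu).2
  have hcore := core_two (c := c) (W := W) (J := J) hsub hdet hclosed hdisj (m1 := m1) (m2 := m2)
    (e := e) (D0 := D0) (lam := lam) hD0 f hbal h1 (by rw [← hmm]; exact hm2') hp1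
    (by rw [← hmm]; exact hp2)
  have hsplit : ∑ u ∈ W, (sg (f u) : ℝ) = ∑ u ∈ W.filter (Good c J D1 D2 m1 m2), (sg (f u) : ℝ) +
      ∑ u ∈ W.filter (fun u => ¬ Good c J D1 D2 m1 m2 u), (sg (f u) : ℝ) :=
    (Finset.sum_filter_add_sum_filter_not _ _ _).symm
  have hbad2 : |∑ u ∈ W.filter (fun u => ¬ Good c J D1 D2 m1 m2 u), (sg (f u) : ℝ)| ≤ (W.card : ℝ) / 100 := by
    have h3 : |∑ u ∈ W.filter (fun u => ¬ Good c J D1 D2 m1 m2 u), (sg (f u) : ℝ)| ≤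
        ((W.filter fun u => ¬ Good c J D1 D2 m1 m2 u).card : ℝ) := by
      refine (Finset.abs_sum_le_sum_abs _ _).trans ?_
      have h4 : ∀ u, |(sg (f u) : ℝ)| = 1 := by
        intro u
        have := abs_sg (f u)
        have h5 : ((|sg (f u)| : ℤ) : ℝ) = 1 := by rw [this]; norm_num
        rw [Int.cast_abs] at h5
        exact h5
      rw [Finset.sum_congr rfl fun u _ => h4 u, Finset.sum_const, nsmul_eq_mul, mul_one]
    have h5 : (100 : ℝ) * ((W.filter fun u => ¬ Good c J D1 D2 m1 m2 u).card : ℝ) ≤ W.card := by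
      exact_mod_cast hbad
    linarith
  rw [hsplit]
  refine (abs_add_le _ _).trans ?_
  linarith

/-- **The family.** -/
theorem family_of (hJ : ExistsJ) (hS : ExistsSeed) : ∃ B2 Rf : ℕ → ℕ, KB B2 ∧ KB Rf ∧
    (∀ k, 1 ≤ B2 k) ∧ (∀ k, 1 ≤ Rf k) ∧ ∀ k, 2 ≤ k → ∀ n, B2 k ≤ n → ∃ g a b : ℕ → Bool,
    ∀ (ι : Type) [Fintype ι] (W : ι → Finset (Fin n → Bool))
      (c : ι → Fin (Rf k) → (Fin n → Bool) → Fin n → Option Bool),
      (∀ i, ∀ z ∈ W i, ∀ j, Sub (c i j z) z) →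
      (∀ i j, ∀ z ∈ W i, ∀ z' ∈ W i, Compat (c i j z) (c i j z') → c i j z = c i j z') →
      (∀ i u, (∀ j, ∃ w ∈ W i, Sub (c i j w) u) → u ∈ W i) →
      (∀ i, ∀ z ∈ W i, ∀ j, (dom (c i j z)).card * Rf k ≤ k * n) →
      (∀ i i', i ≠ i' → Disjoint (W i) (W i')) →
      (Fintype.card ι : ℝ) ≤ 2 ^ ((n : ℝ) / B2 k) →
      |∑ i, ∑ x ∈ W i, (sg (decide (expBit (9 * n) n g a b (xb x) = 1)) : ℝ)| ≤ 2 ^ n / 25 := by
  classical
  refine ⟨fun k => 16 * Bk k ^ 2, Rk, (KB.const 16).mul (Bk_KB.pow 2), Rk_KB, fun k => ?_, Rk_pos,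
    fun k hk n hn => ?_⟩
  · have : 0 < 16 * Bk k ^ 2 := by
      have : 0 < Bk k := by
        unfold Bk
        have : 0 < qq k := by unfold qq; positivity
        positivity
      positivity
    exact this
  simp only at hn
  obtain ⟨B, hB⟩ : ∃ B, B = Bk k := ⟨_, rfl⟩
  obtain ⟨e, he⟩ : ∃ e, e = n / B := ⟨_, rfl⟩
  have hB256 : 256 ≤ B := by
    rw [hB]
    unfold Bk
    have : 0 < qq k ^ (4 * k) := by
      have : 0 < qq k := by unfold qq; positivity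
      positivity
    omega
  have hBB : 256 * B ≤ B ^ 2 := by nlinarith
  rw [← hB] at hn
  have heB : B * e ≤ n := by rw [he]; exact Nat.mul_div_le n B
  have heB' : n < B * (e + 1) := by
    rw [he]
    exact Nat.lt_mul_div_succ n (by omega)
  have he22 : 46 ≤ e := by
    rw [he, Nat.le_div_iff_mul_le (by omega)]
    nlinarith
  obtain ⟨D0, hD0⟩ : ∃ D0, e = D0 + 22 := ⟨e - 22, by omega⟩
  -- the seeds
  obtain ⟨q0, hq0⟩ : ∃ q0, q0 = (n + e - 1) / e := ⟨_, rfl⟩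
  have hq0a : n ≤ q0 * e := by
    have h1 : n + e - 1 < e * ((n + e - 1) / e + 1) := Nat.lt_mul_div_succ _ (by omega)
    rw [← hq0] at h1
    have h2 : e * (q0 + 1) = q0 * e + e := by ring
    omega
  have hq0b : q0 * e ≤ n + e - 1 := by rw [hq0]; exact Nat.div_mul_le_self _ _
  have hq0c : q0 ≤ 2 * B := by
    by_contra hcon
    push Not at hcon
    have h1 : (2 * B + 1) * e ≤ q0 * e := Nat.mul_le_mul_right _ hcon
    have h2 : B * (e + 1) ≤ 2 * B * e := by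
      have : B * 1 ≤ B * e := Nat.mul_le_mul_left _ (by omega)
      nlinarith
    have h3 : (2 * B + 1) * e = 2 * B * e + e := by ring
    omega
  have hq0d : q0 ^ (2 * q0) * 4 ≤ 2 ^ n := by
    have h1 : q0 ^ (2 * q0) ≤ 2 ^ (8 * B ^ 2) := by
      calc q0 ^ (2 * q0) ≤ (2 ^ (2 * B)) ^ (2 * q0) :=
            Nat.pow_le_pow_left (hq0c.trans Nat.lt_two_pow_self.le) _
        _ ≤ (2 ^ (2 * B)) ^ (4 * B) := Nat.pow_le_pow_right (by positivity) (by omega)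
        _ = 2 ^ (8 * B ^ 2) := by rw [← pow_mul]; congr 1; ring
    calc q0 ^ (2 * q0) * 4 ≤ 2 ^ (8 * B ^ 2) * 2 ^ 2 := Nat.mul_le_mul h1 (by norm_num)
      _ = 2 ^ (8 * B ^ 2 + 2) := by rw [← pow_add]
      _ ≤ 2 ^ n := Nat.pow_le_pow_right (by norm_num) (by nlinarith)
  have h8 : 8 * e ≤ n := by
    refine le_trans (Nat.mul_le_mul_right e (by omega : 8 ≤ B)) heB
  obtain ⟨g, a, b, hbal⟩ := hS (n := n) (e := e) (q := q0) (by omega) h8 hq0a (by omega) hq0d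
  refine ⟨g, a, b, fun ι _ W c hsub hdet hclosed hdom hdisj hcard => ?_⟩
  obtain ⟨f, hf⟩ : ∃ f : (Fin n → Bool) → Bool,
    f = fun x => decide (expBit (9 * n) n g a b (xb x) = 1) := ⟨_, rfl⟩
  rw [← hf] at hbal
  have hone : ∀ i, |∑ x ∈ W i, (sg (f x) : ℝ)| ≤
      ((W i).card : ℝ) * (1 / 64 + 1 / 100) + 2 ^ n / 2 ^ (D0 + 7) := by
    intro i
    refine one_skeleton hJ (k := k) (by omega) (by rw [← hB]; exact hn) (D0 := D0)
      (by rw [← hB, ← he]; exact hD0) f (by rw [← hB, ← he]; exact hbal) (W i) (c i) (hsub i) (hdet i)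
      (hclosed i) (hdom i)
  have hWsum : ∑ i, ((W i).card : ℝ) ≤ 2 ^ n := by
    have h1 : (univ.biUnion W).card = ∑ i, (W i).card :=
      Finset.card_biUnion fun i _ i' _ h => hdisj i i' h
    have h2 : (univ.biUnion W).card ≤ 2 ^ n := by
      refine (Finset.card_le_univ _).trans ?_
      rw [Fintype.card_fun, Fintype.card_bool, Fintype.card_fin]
    have h3 : ∑ i, (W i).card ≤ 2 ^ n := h1 ▸ h2
    exact_mod_cast h3
  have hcard2 : (Fintype.card ι : ℝ) ≤ 2 ^ D0 := by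
    refine hcard.trans ?_
    rw [← Real.rpow_natCast 2 D0]
    refine Real.rpow_le_rpow_of_exponent_le (by norm_num) ?_
    have hB2pos : (0 : ℝ) < ((16 * B ^ 2 : ℕ) : ℝ) := by
      have : 0 < 16 * B ^ 2 := by positivity
      exact_mod_cast this
    show (n : ℝ) / ((16 * Bk k ^ 2 : ℕ) : ℝ) ≤ D0
    rw [← hB, div_le_iff₀ hB2pos]
    have h1 : n ≤ D0 * (16 * B ^ 2) := by
      have h2 : B * (e + 1) ≤ D0 * (16 * B ^ 2) := by
        have h3 : e + 1 ≤ 2 * D0 := by omega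
        have h4 : B ≤ B ^ 2 := by nlinarith
        calc B * (e + 1) ≤ B ^ 2 * (2 * D0) := Nat.mul_le_mul h4 h3
          _ = D0 * (2 * B ^ 2) := by ring
          _ ≤ D0 * (16 * B ^ 2) := Nat.mul_le_mul_left _ (by omega)
      omega
    exact_mod_cast h1
  have hfin : |∑ i, ∑ x ∈ W i, (sg (f x) : ℝ)| ≤ 2 ^ n / 25 := by
    calc |∑ i, ∑ x ∈ W i, (sg (f x) : ℝ)| ≤ ∑ i, |∑ x ∈ W i, (sg (f x) : ℝ)| :=
          Finset.abs_sum_le_sum_abs _ _
      _ ≤ ∑ i, (((W i).card : ℝ) * (1 / 64 + 1 / 100) + 2 ^ n / 2 ^ (D0 + 7)) :=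
          Finset.sum_le_sum fun i _ => hone i
      _ = (∑ i, ((W i).card : ℝ)) * (1 / 64 + 1 / 100) + Fintype.card ι * (2 ^ n / 2 ^ (D0 + 7)) := by
          rw [Finset.sum_add_distrib, ← Finset.sum_mul, Finset.sum_const, nsmul_eq_mul, Finset.card_univ]
      _ ≤ 2 ^ n * (1 / 64 + 1 / 100) + 2 ^ D0 * (2 ^ n / 2 ^ (D0 + 7)) := by
          refine add_le_add (mul_le_mul_of_nonneg_right hWsum (by norm_num)) ?_
          exact mul_le_mul_of_nonneg_right hcard2 (by positivity)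
      _ = 2 ^ n * (1 / 64 + 1 / 100 + 1 / 128) := by
          rw [pow_add]
          field_simp
          ring
      _ ≤ 2 ^ n / 25 := by
          have : (0 : ℝ) < 2 ^ n := by positivity
          linarith
  rw [hf] at hfin
  exact hfin

end Pool.Agent.KE
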