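import Pool.Agent.KE.Defs
import Mathlib.FieldTheory.Finite.GaloisField
import Mathlib.FieldTheory.PrimitiveElement
import Mathlib.RingTheory.AdjoinRoot

/-! An irreducible polynomial `X ^ M + g` over the field with two elements; the quotient, its
coordinates, and `expBit`. -/

namespace Pool.Agent.KE

open Finset Polynomial

lemma zmod2 (c : ZMod 2) : c = 0 ∨ c = 1 := by
  revert c; decide

/-- the modulus -/
noncomputable def modu (M : ℕ) (g : ℕ → Bool) : (ZMod 2)[X] := X ^ M + polyOf M g

lemma polyOf_coeff (M : ℕ) (c : ℕ → Bool) (i : ℕ) :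
    (polyOf M c).coeff i = if i < M ∧ c i = true then 1 else 0 := by
  unfold polyOf
  rw [finset_sum_coeff]
  have e : ∀ j, (if c j = true then (X ^ j : (ZMod 2)[X]) else 0).coeff i =
      if i = j then (if c j = true then 1 else 0) else 0 := by
    intro j
    by_cases hc : c j = true
    · rw [if_pos hc, if_pos hc, coeff_X_pow]
    · rw [if_neg hc, if_neg hc, coeff_zero, ite_self]
  simp_rw [e]
  rw [Finset.sum_ite_eq]
  by_cases h1 : i < M
  · rw [if_pos (mem_range.2 h1)]
    by_cases h2 : c i = true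
    · rw [if_pos h2, if_pos ⟨h1, h2⟩]
    · rw [if_neg h2, if_neg fun h => h2 h.2]
  · rw [if_neg fun h => h1 (mem_range.1 h), if_neg fun h => h1 h.1]

lemma polyOf_degree_lt (M : ℕ) (c : ℕ → Bool) : (polyOf M c).degree < M := by
  rw [degree_lt_iff_coeff_zero]
  intro m hm
  rw [polyOf_coeff, if_neg fun h => absurd h.1 (not_lt.2 hm)]

lemma modu_monic (M : ℕ) (g : ℕ → Bool) : (modu M g).Monic :=
  monic_X_pow_add (polyOf_degree_lt M g)

lemma modu_degree (M : ℕ) (g : ℕ → Bool) : (modu M g).degree = M := by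
  unfold modu
  rw [degree_add_eq_left_of_degree_lt, degree_X_pow]
  rw [degree_X_pow]
  exact polyOf_degree_lt M g

/-- every polynomial of degree `< M` is `polyOf M c` -/
lemma exists_polyOf {M : ℕ} {p : (ZMod 2)[X]} (hp : p.degree < M) :
    polyOf M (fun i => decide (p.coeff i = 1)) = p := by
  ext i
  rw [polyOf_coeff]
  by_cases h : i < M
  · rcases zmod2 (p.coeff i) with h0 | h1
    · rw [if_neg, h0]
      rintro ⟨-, h2⟩
      rw [h0] at h2
      exact absurd h2 (by decide)
    · rw [if_pos ⟨h, by rw [h1]; decide⟩, h1]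
  · rw [if_neg fun h' => h h'.1, (degree_lt_iff_coeff_zero p M).1 hp i (not_lt.1 h)]

/-- **an irreducible modulus** -/
theorem exists_irr {M : ℕ} (hM : 1 ≤ M) : ∃ g : ℕ → Bool, Irreducible (modu M g) := by
  haveI : Fact (Nat.Prime 2) := ⟨Nat.prime_two⟩
  obtain ⟨α, hα⟩ := Field.exists_primitive_element (ZMod 2) (GaloisField 2 M)
  have hint : IsIntegral (ZMod 2) α := Algebra.IsIntegral.isIntegral α
  have h1 : (minpoly (ZMod 2) α).natDegree = M := by
    rw [(Field.primitive_element_iff_minpoly_natDegree_eq (ZMod 2) α).1 hα, GaloisField.finrank 2 (by omega)]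
  have hirr := minpoly.irreducible hint
  have hmon := minpoly.monic hint
  refine ⟨fun i => decide ((minpoly (ZMod 2) α).coeff i = 1), ?_⟩
  have e : modu M (fun i => decide ((minpoly (ZMod 2) α).coeff i = 1)) = minpoly (ZMod 2) α := by
    unfold modu
    have h2 := hmon.as_sum
    rw [h1] at h2
    rw [h2]
    congr 1
    unfold polyOf
    refine Finset.sum_congr rfl fun i hi => ?_
    rw [← h2]
    rcases zmod2 ((minpoly (ZMod 2) α).coeff i) with h0 | h0
    · simp [h0]
    · simp [h0]
  rw [e]
  exact hirr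

/-- the element with the coordinates `c` -/
noncomputable def el (M : ℕ) (g c : ℕ → Bool) : AdjoinRoot (modu M g) := AdjoinRoot.mk (modu M g) (polyOf M c)

/-- the coordinate `i` -/
noncomputable def co (M : ℕ) (g : ℕ → Bool) (i : ℕ) : AdjoinRoot (modu M g) →ₗ[ZMod 2] ZMod 2 :=
  (lcoeff (ZMod 2) i).comp (AdjoinRoot.modByMonicHom (modu_monic M g))

lemma co_mk (M : ℕ) (g : ℕ → Bool) (i : ℕ) (p : (ZMod 2)[X]) :
    co M g i (AdjoinRoot.mk (modu M g) p) = (p %ₘ modu M g).coeff i := by
  unfold co
  rw [LinearMap.comp_apply, AdjoinRoot.modByMonicHom_mk, lcoeff_apply]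

lemma co_el {M : ℕ} (g c : ℕ → Bool) {i : ℕ} (hi : i < M) :
    co M g i (el M g c) = if c i = true then 1 else 0 := by
  unfold el
  rw [co_mk, (modByMonic_eq_self_iff (modu_monic M g)).2, polyOf_coeff]
  · by_cases h : c i = true
    · rw [if_pos ⟨hi, h⟩, if_pos h]
    · rw [if_neg fun h' => h h'.2, if_neg h]
  · rw [modu_degree]
    exact polyOf_degree_lt M c

/-- an element with vanishing coordinates is zero -/
lemma eq_zero_of_co {M : ℕ} {g : ℕ → Bool} {z : AdjoinRoot (modu M g)} (h : ∀ i < M, co M g i z = 0) :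
    z = 0 := by
  obtain ⟨p, rfl⟩ := AdjoinRoot.mk_surjective z
  have h1 : p %ₘ modu M g = 0 := by
    ext i
    rw [coeff_zero]
    by_cases hi : i < M
    · rw [← co_mk]
      exact h i hi
    · have h2 := degree_modByMonic_lt p (modu_monic M g)
      rw [modu_degree] at h2
      exact (degree_lt_iff_coeff_zero _ M).1 h2 i (not_lt.1 hi)
  rw [modByMonic_eq_zero_iff_dvd (modu_monic M g)] at h1
  exact AdjoinRoot.mk_eq_zero.2 h1

/-- extension by `false` -/
def ex0 {M : ℕ} (c : Fin M → Bool) (i : ℕ) : Bool := if h : i < M then c ⟨i, h⟩ else false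

/-- **coordinates are a bijection** -/
theorem el_bij (M : ℕ) (g : ℕ → Bool) : Function.Bijective fun c : Fin M → Bool => el M g (ex0 c) := by
  constructor
  · intro c c' h
    funext i
    have h1 := congrArg (co M g i.1) h
    simp only at h1
    rw [co_el g _ i.2, co_el g _ i.2] at h1
    have e : ∀ c : Fin M → Bool, ex0 c i.1 = c i := by
      intro c
      unfold ex0
      rw [dif_pos i.2]
    rw [e, e] at h1
    revert h1
    cases c i <;> cases c' i <;> simp
  · intro z
    obtain ⟨p, rfl⟩ := AdjoinRoot.mk_surjective z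
    have h2 := degree_modByMonic_lt p (modu_monic M g)
    rw [modu_degree] at h2
    have h3 := exists_polyOf h2
    refine ⟨fun i => decide ((p %ₘ modu M g).coeff i = 1), ?_⟩
    simp only [el]
    have e : polyOf M (ex0 fun i : Fin M => decide ((p %ₘ modu M g).coeff i = 1)) = p %ₘ modu M g := by
      refine Eq.trans ?_ h3
      unfold polyOf
      refine Finset.sum_congr rfl fun i hi => ?_
      unfold ex0
      rw [dif_pos (mem_range.1 hi)]
    rw [e, ← sub_eq_zero, ← map_sub, AdjoinRoot.mk_eq_zero]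
    have h4 := modByMonic_add_div p (modu M g)
    exact ⟨-(p /ₘ modu M g), by linear_combination h4⟩

/-- `el` depends on the first `M` values -/
lemma el_congr {M : ℕ} {g c c' : ℕ → Bool} (h : ∀ i < M, c i = c' i) : el M g c = el M g c' := by
  unfold el polyOf
  congr 1
  exact Finset.sum_congr rfl fun i hi => by rw [h i (mem_range.1 hi)]

/-- **`expBit` in coordinates** -/
theorem expBit_eq (M n : ℕ) (g a b x : ℕ → Bool) : expBit M n g a b x =
    ∑ i ∈ range M, if b i = true then co M g i (el M g a ^ numOf n x) else 0 := by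
  unfold expBit
  refine Finset.sum_congr rfl fun i _ => ?_
  unfold el
  rw [← map_pow, co_mk]
  rfl

theorem card_K (M : ℕ) (g : ℕ → Bool) : Nat.card (AdjoinRoot (modu M g)) = 2 ^ M := by
  rw [← Nat.card_congr (Equiv.ofBijective _ (el_bij M g))]
  simp

/-- **The field with its coordinates.** -/
theorem field_data {M : ℕ} (hM : 1 ≤ M) : ∃ (g : ℕ → Bool) (K : Type) (_ : Field K) (_ : Fintype K)
    (_ : DecidableEq K) (el : (ℕ → Bool) → K) (co : ℕ → K →+ ZMod 2),
    Fintype.card K = 2 ^ M ∧ (∀ c c' : ℕ → Bool, (∀ i < M, c i = c' i) → el c = el c') ∧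
    (Function.Bijective fun c : Fin M → Bool => el (ex0 c)) ∧
    (∀ z : K, (∀ i < M, co i z = 0) → z = 0) ∧ (∀ z : K, z + z = 0) ∧
    ∀ (n : ℕ) (a b x : ℕ → Bool), expBit M n g a b x =
      ∑ i ∈ range M, if b i = true then co i (el a ^ numOf n x) else 0 := by
  obtain ⟨g, hg⟩ := exists_irr hM
  haveI : Fact (Irreducible (modu M g)) := ⟨hg⟩
  have hfin : Finite (AdjoinRoot (modu M g)) := Finite.of_surjective _ (el_bij M g).2
  letI : Fintype (AdjoinRoot (modu M g)) := Fintype.ofFinite _
  refine ⟨g, AdjoinRoot (modu M g), inferInstance, inferInstance, Classical.decEq _, el M g,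
    fun i => (co M g i).toAddMonoidHom, ?_, fun c c' h => el_congr h, el_bij M g,
    fun z hz => eq_zero_of_co hz, fun z => ?_, fun n a b x => expBit_eq M n g a b x⟩
  · rw [← Nat.card_eq_fintype_card, card_K]
  · have h2 : (2 : ZMod 2) = 0 := by decide
    have h3 : (2 : ZMod 2) • z = 0 := by rw [h2, zero_smul]
    rw [show (2 : ZMod 2) = 1 + 1 by norm_num, add_smul, one_smul] at h3
    exact h3

end Pool.Agent.KE
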