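import Pool.Agent.KE.Defs

/-! Rectangles: a balanced function has a small sum on large rectangles. -/

namespace Pool.Agent.KE

open Finset Pool.Agent.SemRO Pool.Agent.KD

variable {n : ℕ}

lemma sg_mul_self (b : Bool) : sg b * sg b = 1 := by cases b <;> rfl

lemma abs_sg (b : Bool) : |sg b| = 1 := by cases b <;> rfl

lemma mix_on {T : Finset (Fin n)} {x y : Fin n → Bool} {i : Fin n} (h : i ∈ T) : mix T x y i = x i := by
  rw [mix, if_pos h]

lemma mix_off {T : Finset (Fin n)} {x y : Fin n → Bool} {i : Fin n} (h : i ∉ T) : mix T x y i = y i := by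
  rw [mix, if_neg h]

lemma mix_mix (T : Finset (Fin n)) (x y y' : Fin n → Bool) : mix T (mix T x y) y' = mix T x y' := by
  funext i
  by_cases h : i ∈ T
  · rw [mix_on h, mix_on h, mix_on h]
  · rw [mix_off h, mix_off h]

lemma mix_mem_cube (T : Finset (Fin n)) (x y : Fin n → Bool) : mix T x y ∈ cube T y :=
  mem_cube.2 fun _ hi => mix_off hi

/-- **Lindsey's inequality.** -/
theorem lindsey (f : (Fin n → Bool) → Bool) (T1 : Finset (Fin n)) (z : Fin n → Bool)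
    (X Y : Finset (Fin n → Bool)) (hX : ∀ x ∈ X, x ∈ cube T1 z) (B : ℤ) (hB0 : 0 ≤ B)
    (hB : ∀ y ∈ Y, ∀ y' ∈ Y, y ≠ y' →
      |∑ x ∈ cube T1 z, sg (f (mix T1 x y)) * sg (f (mix T1 x y'))| ≤ B) :
    (∑ x ∈ X, ∑ y ∈ Y, sg (f (mix T1 x y))) ^ 2 ≤
      X.card * (Y.card * 2 ^ T1.card + (Y.card : ℤ) ^ 2 * B) := by
  classical
  have h1 : (∑ x ∈ X, ∑ y ∈ Y, sg (f (mix T1 x y))) ^ 2 ≤
      X.card * ∑ x ∈ X, (∑ y ∈ Y, sg (f (mix T1 x y))) ^ 2 := sq_sum_le_card_mul_sum_sq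
  refine h1.trans (mul_le_mul_of_nonneg_left ?_ (Nat.cast_nonneg _))
  calc ∑ x ∈ X, (∑ y ∈ Y, sg (f (mix T1 x y))) ^ 2
      ≤ ∑ x ∈ cube T1 z, (∑ y ∈ Y, sg (f (mix T1 x y))) ^ 2 :=
        Finset.sum_le_sum_of_subset_of_nonneg (fun x hx => hX x hx) fun _ _ _ => sq_nonneg _
    _ = ∑ y ∈ Y, ∑ y' ∈ Y, ∑ x ∈ cube T1 z, sg (f (mix T1 x y)) * sg (f (mix T1 x y')) := by
        have e1 : ∀ x, (∑ y ∈ Y, sg (f (mix T1 x y))) ^ 2 =
            ∑ y ∈ Y, ∑ y' ∈ Y, sg (f (mix T1 x y)) * sg (f (mix T1 x y')) := by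
          intro x
          rw [pow_two, Finset.sum_mul_sum]
        rw [Finset.sum_congr rfl fun x _ => e1 x, Finset.sum_comm]
        refine Finset.sum_congr rfl fun y _ => ?_
        rw [Finset.sum_comm]
    _ ≤ ∑ y ∈ Y, ∑ y' ∈ Y, ((if y = y' then (2 : ℤ) ^ T1.card else 0) + B) := by
        refine Finset.sum_le_sum fun y hy => Finset.sum_le_sum fun y' hy' => ?_
        split_ifs with h
        · subst h
          have e2 : ∑ x ∈ cube T1 z, sg (f (mix T1 x y)) * sg (f (mix T1 x y)) = 2 ^ T1.card := by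
            rw [Finset.sum_congr rfl fun x _ => sg_mul_self _, Finset.sum_const, card_cube]
            simp
          rw [e2]
          linarith
        · have := (abs_le.1 (hB y hy y' hy' h)).2
          linarith
    _ = (Y.card : ℤ) * 2 ^ T1.card + (Y.card : ℤ) ^ 2 * B := by
        have e3 : ∀ y ∈ Y, ∑ y' ∈ Y, ((if y = y' then (2 : ℤ) ^ T1.card else 0) + B) =
            2 ^ T1.card + Y.card * B := by
          intro y hy
          rw [Finset.sum_add_distrib, Finset.sum_ite_eq, if_pos hy, Finset.sum_const, nsmul_eq_mul]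
        rw [Finset.sum_congr rfl e3, Finset.sum_const, nsmul_eq_mul]
        ring

lemma bal_pair {f : (Fin n → Bool) → Bool} {e : ℕ} (hf : Bal f e) {T : Finset (Fin n)} (hT : T.card = 8 * e)
    (z y y' : Fin n → Bool) (h : ∃ i, i ∉ T ∧ y i ≠ y' i) :
    |∑ x ∈ cube T z, sg (f (mix T x y)) * sg (f (mix T x y'))| ≤ 2 ^ (6 * e) := by
  classical
  have h1 := hf T hT y y' h
  have h2 : ∑ x ∈ cube T z, sg (f (mix T x y)) * sg (f (mix T x y')) =
      ∑ x ∈ cube T y, sg (f x) * sg (f (mix T x y')) := by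
    refine Finset.sum_nbij' (fun x => mix T x y) (fun x => mix T x z) ?_ ?_ ?_ ?_ ?_
    · intro x _
      exact mix_mem_cube T x y
    · intro x _
      exact mix_mem_cube T x z
    · intro x hx
      simp only [mix_mix]
      funext i
      by_cases hi : i ∈ T
      · rw [mix_on hi]
      · rw [mix_off hi, mem_cube.1 hx i hi]
    · intro x hx
      simp only [mix_mix]
      funext i
      by_cases hi : i ∈ T
      · rw [mix_on hi]
      · rw [mix_off hi, mem_cube.1 hx i hi]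
    · intro x _
      simp only [mix_mix]
  rw [h2]
  exact h1

open Classical in
/-- the row of `u`: the points of `U` in the class of `u` modulo `T` -/
noncomputable def cls (U : Finset (Fin n → Bool)) (T : Finset (Fin n)) (u : Fin n → Bool) :
    Finset (Fin n → Bool) :=
  U.filter (fun x => x ∈ cube T u)

lemma mem_cls {U : Finset (Fin n → Bool)} {T : Finset (Fin n)} {u x : Fin n → Bool} :
    x ∈ cls U T u ↔ x ∈ U ∧ ∀ i, i ∉ T → x i = u i := by
  unfold cls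
  rw [Finset.mem_filter, mem_cube]

section
variable {U : Finset (Fin n → Bool)} {T1 T2 : Finset (Fin n)}

/-- each class modulo `T1 ∪ T2` is a rectangle -/
lemma class_sum (hd : ∀ i ∈ T1, i ∉ T2)
    (hmix : ∀ u ∈ U, ∀ u' ∈ U, (∀ i, i ∉ T1 → i ∉ T2 → u i = u' i) → mix T1 u u' ∈ U)
    {u0 : Fin n → Bool} (hu0 : u0 ∈ U) (φ : (Fin n → Bool) → ℤ) :
    ∑ u ∈ cls U (T1 ∪ T2) u0, φ u = ∑ x ∈ cls U T1 u0, ∑ y ∈ cls U T2 u0, φ (mix T1 x y) := by
  classical
  rw [← Finset.sum_product']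
  symm
  refine Finset.sum_nbij' (fun p => mix T1 p.1 p.2) (fun u => (mix T1 u u0, mix T1 u0 u)) ?_ ?_ ?_ ?_ ?_
  · intro p hp
    obtain ⟨hx, hy⟩ := Finset.mem_product.1 hp
    obtain ⟨hx1, hx2⟩ := mem_cls.1 hx
    obtain ⟨hy1, hy2⟩ := mem_cls.1 hy
    refine mem_cls.2 ⟨hmix _ hx1 _ hy1 fun i h1 h2 => by rw [hx2 i h1, hy2 i h2], fun i hi => ?_⟩
    rw [Finset.mem_union, not_or] at hi
    rw [mix_off hi.1, hy2 i hi.2]
  · intro u hu
    obtain ⟨hu1, hu2⟩ := mem_cls.1 hu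
    have hag : ∀ i, i ∉ T1 → i ∉ T2 → u i = u0 i := fun i h1 h2 =>
      hu2 i (by rw [Finset.mem_union, not_or]; exact ⟨h1, h2⟩)
    refine Finset.mem_product.2 ⟨mem_cls.2 ⟨hmix _ hu1 _ hu0 hag, fun i hi => mix_off hi⟩,
      mem_cls.2 ⟨hmix _ hu0 _ hu1 fun i h1 h2 => (hag i h1 h2).symm, fun i hi => ?_⟩⟩
    by_cases h1 : i ∈ T1
    · exact mix_on h1
    · show mix T1 u0 u i = u0 i
      rw [mix_off h1, hag i h1 hi]
  · intro p hp
    obtain ⟨hx, hy⟩ := Finset.mem_product.1 hp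
    obtain ⟨hx1, hx2⟩ := mem_cls.1 hx
    obtain ⟨hy1, hy2⟩ := mem_cls.1 hy
    refine Prod.ext ?_ ?_
    · funext i
      by_cases h1 : i ∈ T1
      · simp only [mix_on h1]
      · simp only [mix_off h1, hx2 i h1]
    · funext i
      by_cases h1 : i ∈ T1
      · simp only [mix_on h1, hy2 i (hd i h1)]
      · simp only [mix_off h1]
  · intro u hu
    funext i
    by_cases h1 : i ∈ T1
    · simp only [mix_on h1]
    · simp only [mix_off h1]
  · intro p _
    rfl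

lemma card_class (hd : ∀ i ∈ T1, i ∉ T2)
    (hmix : ∀ u ∈ U, ∀ u' ∈ U, (∀ i, i ∉ T1 → i ∉ T2 → u i = u' i) → mix T1 u u' ∈ U)
    {u0 : Fin n → Bool} (hu0 : u0 ∈ U) :
    (cls U (T1 ∪ T2) u0).card = (cls U T1 u0).card * (cls U T2 u0).card := by
  have h := class_sum hd hmix hu0 (fun _ => 1)
  simp only [Finset.sum_const, nsmul_eq_mul, mul_one] at h
  exact_mod_cast h

lemma row_le (hmix : ∀ u ∈ U, ∀ u' ∈ U, (∀ i, i ∉ T1 → i ∉ T2 → u i = u' i) → mix T1 u u' ∈ U)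
    {u0 u : Fin n → Bool} (hu : u ∈ U) (h : ∀ i, i ∉ T1 → i ∉ T2 → u i = u0 i) :
    (cls U T1 u0).card ≤ (cls U T1 u).card := by
  classical
  refine Finset.card_le_card_of_injOn (fun x => mix T1 x u) ?_ ?_
  · intro x hx
    obtain ⟨hx1, hx2⟩ := mem_cls.1 hx
    exact mem_cls.2 ⟨hmix _ hx1 _ hu fun i h1 h2 => by rw [hx2 i h1, h i h1 h2], fun i hi => mix_off hi⟩
  · intro x hx x' hx' hxx
    obtain ⟨_, hx2⟩ := mem_cls.1 hx
    obtain ⟨_, hx2'⟩ := mem_cls.1 hx'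
    funext i
    by_cases h1 : i ∈ T1
    · have := congrFun hxx i
      simp only [mix_on h1] at this
      exact this
    · rw [hx2 i h1, hx2' i h1]

lemma col_le (hd : ∀ i ∈ T1, i ∉ T2)
    (hmix : ∀ u ∈ U, ∀ u' ∈ U, (∀ i, i ∉ T1 → i ∉ T2 → u i = u' i) → mix T1 u u' ∈ U)
    {u0 u : Fin n → Bool} (hu : u ∈ U) (h : ∀ i, i ∉ T1 → i ∉ T2 → u i = u0 i) :
    (cls U T2 u0).card ≤ (cls U T2 u).card := by
  classical
  refine Finset.card_le_card_of_injOn (fun y => mix T1 u y) ?_ ?_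
  · intro y hy
    obtain ⟨hy1, hy2⟩ := mem_cls.1 hy
    refine mem_cls.2 ⟨hmix _ hu _ hy1 fun i h1 h2 => by rw [hy2 i h2, h i h1 h2], fun i hi => ?_⟩
    by_cases h1 : i ∈ T1
    · exact mix_on h1
    · show mix T1 u y i = u i
      rw [mix_off h1, hy2 i hi, h i h1 hi]
  · intro y hy y' hy' hyy
    obtain ⟨_, hy2⟩ := mem_cls.1 hy
    obtain ⟨_, hy2'⟩ := mem_cls.1 hy'
    funext i
    by_cases h1 : i ∈ T1
    · rw [hy2 i (hd i h1), hy2' i (hd i h1)]
    · have := congrFun hyy i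
      simp only [mix_off h1] at this
      exact this

/-- **Balance on one partition.** -/
theorem balance {f : (Fin n → Bool) → Bool} {e : ℕ} (hf : Bal f e) (hT1 : T1.card = 8 * e)
    (hd : ∀ i ∈ T1, i ∉ T2)
    (hmix : ∀ u ∈ U, ∀ u' ∈ U, (∀ i, i ∉ T1 → i ∉ T2 → u i = u' i) → mix T1 u u' ∈ U)
    [DecidablePred fun u => (cls U T1 u).card ≤ 2 ^ (6 * e + 14)]
    [DecidablePred fun u => (cls U T2 u).card ≤ 2 ^ (2 * e)] :
    64 * |∑ u ∈ U, sg (f u)| ≤ U.card +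
      64 * (U.filter fun u => (cls U T1 u).card ≤ 2 ^ (6 * e + 14)).card +
      64 * (U.filter fun u => (cls U T2 u).card ≤ 2 ^ (2 * e)).card := by
  classical
  obtain ⟨s1, hs1⟩ : ∃ s1 : (Fin n → Bool) → ℤ, s1 = fun u => if (cls U T1 u).card ≤ 2 ^ (6 * e + 14) then 1 else 0 :=
    ⟨_, rfl⟩
  obtain ⟨s2, hs2⟩ : ∃ s2 : (Fin n → Bool) → ℤ, s2 = fun u => if (cls U T2 u).card ≤ 2 ^ (2 * e) then 1 else 0 :=
    ⟨_, rfl⟩
  have hs10 : ∀ u, 0 ≤ s1 u := by intro u; rw [hs1]; simp only; split_ifs <;> norm_num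
  have hs20 : ∀ u, 0 ≤ s2 u := by intro u; rw [hs2]; simp only; split_ifs <;> norm_num
  obtain ⟨g, hg⟩ : ∃ g : (Fin n → Bool) → (Fin n → Bool), g = fun u => mix (T1 ∪ T2) (fun _ => false) u := ⟨_, rfl⟩
  have hgi : ∀ u u', g u = g u' ↔ ∀ i, i ∉ T1 ∪ T2 → u i = u' i := by
    intro u u'
    rw [hg]
    constructor
    · intro h i hi
      have := congrFun h i
      simp only [mix_off hi] at this
      exact this
    · intro h
      funext i
      by_cases hi : i ∈ T1 ∪ T2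
      · simp only [mix_on hi]
      · simp only [mix_off hi]
        exact h i hi
  have key : ∀ σ ∈ U.image g, 64 * |∑ u ∈ U with g u = σ, sg (f u)| ≤
      ∑ u ∈ U with g u = σ, (1 + 64 * s1 u + 64 * s2 u) := by
    intro σ hσ
    obtain ⟨u0, hu0, rfl⟩ := Finset.mem_image.1 hσ
    have e1 : (U.filter fun u => g u = g u0) = cls U (T1 ∪ T2) u0 := by
      ext u
      rw [Finset.mem_filter, mem_cls, hgi]
    rw [e1]
    have hE : ∀ u ∈ cls U (T1 ∪ T2) u0, u ∈ U ∧ ∀ i, i ∉ T1 → i ∉ T2 → u i = u0 i := by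
      intro u hu
      obtain ⟨h1, h2⟩ := mem_cls.1 hu
      exact ⟨h1, fun i hi1 hi2 => h2 i (by rw [Finset.mem_union, not_or]; exact ⟨hi1, hi2⟩)⟩
    have hEc := card_class hd hmix hu0
    set E := cls U (T1 ∪ T2) u0
    have htriv : |∑ u ∈ E, sg (f u)| ≤ E.card := by
      refine (Finset.abs_sum_le_sum_abs _ _).trans ?_
      rw [Finset.sum_congr rfl fun u _ => abs_sg _, Finset.sum_const, nsmul_eq_mul, mul_one]
    have hsum : ∑ u ∈ E, (1 + 64 * s1 u + 64 * s2 u) = E.card + 64 * ∑ u ∈ E, s1 u + 64 * ∑ u ∈ E, s2 u := by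
      rw [Finset.sum_add_distrib, Finset.sum_add_distrib, Finset.sum_const, nsmul_eq_mul, mul_one,
        ← Finset.mul_sum, ← Finset.mul_sum]
    rw [hsum]
    have hs1E : 0 ≤ ∑ u ∈ E, s1 u := Finset.sum_nonneg fun u _ => hs10 u
    have hs2E : 0 ≤ ∑ u ∈ E, s2 u := Finset.sum_nonneg fun u _ => hs20 u
    by_cases hX : (cls U T1 u0).card ≤ 2 ^ (6 * e + 14)
    · have h1 : ∑ u ∈ E, s1 u = E.card := by
        have h2 : ∀ u ∈ E, s1 u = 1 := by
          intro u hu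
          obtain ⟨hu1, hu2⟩ := hE u hu
          rw [hs1]
          simp only
          rw [if_pos]
          exact (row_le hmix hu0 fun i a b => (hu2 i a b).symm).trans hX
        rw [Finset.sum_congr rfl h2, Finset.sum_const, nsmul_eq_mul, mul_one]
      rw [h1]
      have h3 : (0 : ℤ) ≤ E.card := Nat.cast_nonneg _
      linarith
    by_cases hY : (cls U T2 u0).card ≤ 2 ^ (2 * e)
    · have h1 : ∑ u ∈ E, s2 u = E.card := by
        have h2 : ∀ u ∈ E, s2 u = 1 := by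
          intro u hu
          obtain ⟨hu1, hu2⟩ := hE u hu
          rw [hs2]
          simp only
          rw [if_pos]
          exact (col_le hd hmix hu0 fun i a b => (hu2 i a b).symm).trans hY
        rw [Finset.sum_congr rfl h2, Finset.sum_const, nsmul_eq_mul, mul_one]
      rw [h1]
      have h3 : (0 : ℤ) ≤ E.card := Nat.cast_nonneg _
      linarith
    -- the large rectangle
    push Not at hX hY
    have h1 : ∑ u ∈ E, sg (f u) = ∑ x ∈ cls U T1 u0, ∑ y ∈ cls U T2 u0, sg (f (mix T1 x y)) :=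
      class_sum hd hmix hu0 (fun u => sg (f u))
    have h2 := lindsey f T1 u0 (cls U T1 u0) (cls U T2 u0)
      (fun x hx => mem_cube.2 (mem_cls.1 hx).2) (2 ^ (6 * e)) (by positivity)
      (by
        intro y hy y' hy' hyy
        refine bal_pair hf hT1 u0 y y' ?_
        by_contra hcon
        push Not at hcon
        apply hyy
        funext i
        by_cases hi : i ∈ T1
        · rw [(mem_cls.1 hy).2 i (hd i hi), (mem_cls.1 hy').2 i (hd i hi)]
        · exact hcon i hi)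
    rw [← h1, hT1] at h2
    set X := (cls U T1 u0).card
    set Y := (cls U T2 u0).card
    have hXz : (2 : ℤ) ^ (6 * e + 14) ≤ X := by exact_mod_cast hX.le
    have hYz : (2 : ℤ) ^ (2 * e) ≤ Y := by exact_mod_cast hY.le
    have hX0 : (0 : ℤ) ≤ X := Nat.cast_nonneg _
    have hY0 : (0 : ℤ) ≤ Y := Nat.cast_nonneg _
    have h3 : (2 : ℤ) ^ (8 * e) * 2 ^ 14 ≤ X * Y := by
      calc (2 : ℤ) ^ (8 * e) * 2 ^ 14 = 2 ^ (6 * e + 14) * 2 ^ (2 * e) := by rw [← pow_add, ← pow_add]; ring_nf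
        _ ≤ X * Y := mul_le_mul hXz hYz (by positivity) hX0
    have h4 : (2 : ℤ) ^ (6 * e) * 2 ^ 14 ≤ X := by
      rw [← pow_add]; exact hXz
    have h5 : (64 * |∑ u ∈ E, sg (f u)|) ^ 2 ≤ (E.card : ℤ) ^ 2 := by
      rw [mul_pow, sq_abs, hEc]
      push_cast
      have h6 : (X : ℤ) * (Y * 2 ^ (8 * e) + (Y : ℤ) ^ 2 * 2 ^ (6 * e)) * 2 ^ 14 ≤ 2 * (X * Y) ^ 2 := by
        have h7 : (X : ℤ) * Y * (2 ^ (8 * e) * 2 ^ 14) ≤ X * Y * (X * Y) :=
          mul_le_mul_of_nonneg_left h3 (mul_nonneg hX0 hY0)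
        have h8 : (X : ℤ) * (Y : ℤ) ^ 2 * (2 ^ (6 * e) * 2 ^ 14) ≤ X * (Y : ℤ) ^ 2 * X :=
          mul_le_mul_of_nonneg_left h4 (mul_nonneg hX0 (sq_nonneg _))
        nlinarith [h7, h8]
      nlinarith [h2, h6]
    have h9 : 64 * |∑ u ∈ E, sg (f u)| ≤ E.card :=
      abs_le_of_sq_le_sq' h5 (Nat.cast_nonneg _) |>.2
    linarith
  have hmaps : ∀ u ∈ U, g u ∈ U.image g := fun u hu => Finset.mem_image_of_mem g hu
  have hA : ∑ u ∈ U, sg (f u) = ∑ σ ∈ U.image g, ∑ u ∈ U with g u = σ, sg (f u) :=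
    (Finset.sum_fiberwise_of_maps_to hmaps _).symm
  have hB : ∑ u ∈ U, (1 + 64 * s1 u + 64 * s2 u) =
      ∑ σ ∈ U.image g, ∑ u ∈ U with g u = σ, (1 + 64 * s1 u + 64 * s2 u) :=
    (Finset.sum_fiberwise_of_maps_to hmaps _).symm
  have hC : ∑ u ∈ U, (1 + 64 * s1 u + 64 * s2 u) = U.card +
      64 * ((U.filter fun u => (cls U T1 u).card ≤ 2 ^ (6 * e + 14)).card : ℤ) +
      64 * ((U.filter fun u => (cls U T2 u).card ≤ 2 ^ (2 * e)).card : ℤ) := by
    rw [Finset.sum_add_distrib, Finset.sum_add_distrib, Finset.sum_const, nsmul_eq_mul, mul_one,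
      ← Finset.mul_sum, ← Finset.mul_sum, hs1, hs2]
    simp only [Finset.sum_boole]
  rw [← hC, hB, hA]
  calc 64 * |∑ σ ∈ U.image g, ∑ u ∈ U with g u = σ, sg (f u)|
      ≤ 64 * ∑ σ ∈ U.image g, |∑ u ∈ U with g u = σ, sg (f u)| :=
        mul_le_mul_of_nonneg_left (Finset.abs_sum_le_sum_abs _ _) (by norm_num)
    _ = ∑ σ ∈ U.image g, 64 * |∑ u ∈ U with g u = σ, sg (f u)| := by rw [Finset.mul_sum]
    _ ≤ _ := Finset.sum_le_sum key

end

end Pool.Agent.KE
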