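import Pool.Agent.KE.Can
import Pool.Agent.SemRO.Core

/-! Deterministic programs with an unlimited stack: the accepted inputs are divided into disjoint classes
given by skeletons, with certificates for the pieces. -/

namespace Pool.Agent.KE

open Pool.Agent.SemRO Pool.Agent.KNL Pool.Agent.KD

/-- certificates from local lists -/
lemma cert_family {n R s : ℕ} (PL : Fin R → (Fin n → Bool) → List (Fin n) → Prop)
    (hloc : ∀ j y y' l, PL j y l → (∀ i ∈ l, y i = y' i) → PL j y' l)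
    (huniq : ∀ j y l l', PL j y l → PL j y l' → l = l')
    (hlen : ∀ j y l, PL j y l → l.length ≤ s) (W : Finset (Fin n → Bool))
    (hW : ∀ y, y ∈ W ↔ ∀ j, ∃ l, PL j y l) :
    ∃ c : Fin R → (Fin n → Bool) → Fin n → Option Bool,
      (∀ z ∈ W, ∀ j, Sub (c j z) z) ∧
      (∀ j, ∀ z ∈ W, ∀ z' ∈ W, Compat (c j z) (c j z') → c j z = c j z') ∧
      (∀ u, (∀ j, ∃ w ∈ W, Sub (c j w) u) → u ∈ W) ∧
      (∀ z ∈ W, ∀ j, (dom (c j z)).card ≤ s) := by
  classical
  have hex : ∀ (j : Fin R) (z : Fin n → Bool), ∃ l, z ∈ W → PL j z l := by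
    intro j z
    by_cases hz : z ∈ W
    · obtain ⟨l, hl⟩ := (hW z).1 hz j
      exact ⟨l, fun _ => hl⟩
    · exact ⟨[], fun h => absurd h hz⟩
  choose L hL using hex
  refine ⟨fun j z => restr (L j z).toFinset z, fun z _ j => sub_restr _ _, ?_, ?_, ?_⟩
  · intro j z hz z' hz' hcomp
    have hag : ∀ i, i ∈ L j z → i ∈ L j z' → z i = z' i := by
      intro i hi hi'
      refine hcomp i (z i) (z' i) ?_ ?_
      · simp [restr, hi]
      · simp [restr, hi']
    obtain ⟨y, hy⟩ : ∃ y : Fin n → Bool, y = fun i => if i ∈ L j z then z i else z' i := ⟨_, rfl⟩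
    have h1 : PL j y (L j z) := by
      refine hloc j z y _ (hL j z hz) fun i hi => ?_
      rw [hy]; simp only; rw [if_pos hi]
    have h2 : PL j y (L j z') := by
      refine hloc j z' y _ (hL j z' hz') fun i hi => ?_
      rw [hy]; simp only
      split_ifs with h
      · exact (hag i h hi).symm
      · rfl
    have h3 : L j z = L j z' := huniq j y _ _ h1 h2
    show restr (L j z).toFinset z = restr (L j z').toFinset z'
    rw [restr_eq_iff]
    refine ⟨by rw [h3], fun i hi => ?_⟩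
    rw [List.mem_toFinset] at hi
    exact hag i hi (by rw [← h3]; exact hi)
  · intro u hu
    rw [hW]
    intro j
    obtain ⟨w, hw, hwu⟩ := hu j
    have h1 := (sub_restr_iff (L j w).toFinset w u).1 hwu
    exact ⟨L j w, hloc j w u _ (hL j w hw) fun i hi => (h1 i (List.mem_toFinset.2 hi)).symm⟩
  · intro z hz j
    show (dom (restr (L j z).toFinset z)).card ≤ s
    rw [dom_restr]
    exact (List.toFinset_card_le _).trans (hlen j z _ (hL j z hz))

/-- a skeleton: results and numbers of tests of the nodes that are cut off, the nodes that each piece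
meets, the nodes that the first piece meets and the number of tests -/
@[ext] structure Skel (V : Type) where
  /-- results and numbers of tests -/
  H : V → Option (V × ℕ)
  /-- nodes met by a piece -/
  E : V → Set V
  /-- nodes met by the first piece -/
  e0 : Set V
  /-- number of tests -/
  t0 : ℕ

/-- reachable nodes of a skeleton -/
inductive Skel.Reach {V : Type} (σ : Skel V) : V → Prop
  | root {v : V} : v ∈ σ.e0 → σ.Reach v
  | step {v v' : V} : σ.Reach v → v' ∈ σ.E v → σ.Reach v'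

/-- the conditions on a skeleton with at most `m` nodes -/
structure Skel.Ok {V : Type} (σ : Skel V) (m kn : ℕ) : Prop where
  e0_dom : ∀ v ∈ σ.e0, σ.H v ≠ none
  E_dom : ∀ v, ∀ v' ∈ σ.E v, σ.H v' ≠ none
  E_none : ∀ v, σ.H v = none → σ.E v = ∅
  t_le : ∀ v w t, σ.H v = some (w, t) → t ≤ kn
  t0_le : σ.t0 ≤ kn
  reach : ∀ v, σ.H v ≠ none → σ.Reach v
  acc : ∀ v, σ.H v ≠ none → Acc (fun a b => a ∈ σ.E b) v
  enum : ∃ q : Fin m → Option V, ∀ v, σ.H v ≠ none ↔ ∃ j, q j = some v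

section
variable {V Γ : Type} {n : ℕ}

/-- the inputs with a given skeleton -/
def InW (P : SBP V Γ (Fin n)) (θ : ℕ) (σ : Skel V) (y : Fin n → Bool) : Prop :=
  (∃ l, Ee P θ σ.H y true P.src P.acc l σ.e0 σ.t0) ∧
    ∀ v w t, σ.H v = some (w, t) → ∃ l, Ee P θ σ.H y false v w l (σ.E v) t ∧ θ ≤ l.length

variable {P : SBP V Γ (Fin n)} {θ m kn : ℕ} {σ σ' : Skel V} {y : Fin n → Bool}

/-- the entries of a skeleton are true -/
lemma InW.true_at (hσ : σ.Ok m kn) (h : InW P θ σ y) : ∀ v, σ.H v ≠ none → ∀ w t, σ.H v = some (w, t) →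
    ∃ l, CutAt P θ y v w l (σ.E v) t := by
  intro v hv
  have hacc := hσ.acc v hv
  induction hacc with
  | intro v _ ih =>
    intro w t hwt
    obtain ⟨l, h1, h2⟩ := h.2 v w t hwt
    refine ⟨l, h1.toCe ?_, h2⟩
    intro v' hv' w' t' h3
    obtain ⟨l', h4⟩ := ih v' hv' (hσ.E_dom v v' hv') w' t' h3
    exact ⟨l', _, h4⟩

lemma InW.root (hσ : σ.Ok m kn) (h : InW P θ σ y) :
    ∃ l, Ce P θ y true P.src P.acc l σ.e0 σ.t0 := by
  obtain ⟨l, h1⟩ := h.1
  refine ⟨l, h1.toCe ?_⟩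
  intro v hv w t h2
  obtain ⟨l', h3⟩ := h.true_at hσ v (hσ.e0_dom v hv) w t h2
  exact ⟨l', _, h3⟩

lemma InW.accepts (hσ : σ.Ok m kn) (h : InW P θ σ y) : ∃ l, P.AccWalk y l ∧ l.length ≤ kn := by
  obtain ⟨l, h1⟩ := h.root hσ
  obtain ⟨l', h2, h3⟩ := h1.ev
  exact ⟨l', accWalk_of_ev h2, by rw [h3]; exact hσ.t0_le⟩

lemma InW.le (hP : Det P) (hσ : σ.Ok m kn) (hσ' : σ'.Ok m kn) (h : InW P θ σ y) (h' : InW P θ σ' y) :
    σ.e0 = σ'.e0 ∧ σ.t0 = σ'.t0 ∧ ∀ v, σ.H v ≠ none → σ'.H v = σ.H v ∧ σ'.E v = σ.E v := by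
  obtain ⟨l, h1⟩ := h.root hσ
  obtain ⟨l', h1'⟩ := h'.root hσ'
  obtain ⟨_, _, he, ht⟩ := h1.unique hP h1'
  have same : ∀ v, σ.H v ≠ none → σ'.H v ≠ none → σ'.H v = σ.H v ∧ σ'.E v = σ.E v := by
    intro v hv hv'
    obtain ⟨⟨w, t⟩, h2⟩ := Option.ne_none_iff_exists'.1 hv
    obtain ⟨⟨w', t'⟩, h2'⟩ := Option.ne_none_iff_exists'.1 hv'
    obtain ⟨l, h3, _⟩ := h.true_at hσ v hv w t h2
    obtain ⟨l', h3', _⟩ := h'.true_at hσ' v hv' w' t' h2'
    obtain ⟨rfl, rfl, h4, rfl⟩ := h3.unique hP h3'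
    exact ⟨by rw [h2, h2'], h4.symm⟩
  refine ⟨he, ht, fun v hv => ?_⟩
  have key : σ'.H v ≠ none := by
    have hr := hσ.reach v hv
    induction hr with
    | root hv0 => exact hσ'.e0_dom _ (by rw [← he]; exact hv0)
    | @step v v' _ hv' ih =>
      have hvn : σ.H v ≠ none := by
        intro hcon
        have := hσ.E_none v hcon
        rw [this] at hv'
        exact hv'
      have h5 := same v hvn (ih hvn)
      exact hσ'.E_dom v v' (by rw [h5.2]; exact hv')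
  exact same v hv key

/-- **Uniqueness of the skeleton.** -/
lemma InW.eq (hP : Det P) (hσ : σ.Ok m kn) (hσ' : σ'.Ok m kn) (h : InW P θ σ y) (h' : InW P θ σ' y) :
    σ = σ' := by
  obtain ⟨h1, h2, h3⟩ := h.le hP hσ hσ' h'
  obtain ⟨_, _, h3'⟩ := h'.le hP hσ' hσ h
  have hH : ∀ v, σ.H v = σ'.H v := by
    intro v
    by_cases hv : σ.H v = none
    · by_cases hv' : σ'.H v = none
      · rw [hv, hv']
      · exact (h3' v hv').1
    · exact (h3 v hv).1.symm
  have hE : ∀ v, σ.E v = σ'.E v := by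
    intro v
    by_cases hv : σ.H v = none
    · rw [hσ.E_none v hv, hσ'.E_none v (by rw [← hH]; exact hv)]
    · exact (h3 v hv).2.symm
  exact Skel.ext (funext hH) (funext hE) h1 h2

/-- **Existence of the skeleton.** -/
lemma exists_skel [Finite V] (hP : Det P) (hm : kn < (m + 1) * θ) {l : List (Fin n)}
    (h : P.AccWalk y l) (hl : l.length ≤ kn) : ∃ σ : Skel V, σ.Ok m kn ∧ InW P θ σ y := by
  classical
  obtain ⟨l1, e1, h1⟩ := ce_of_ev (θ := θ) (ev_of_accWalk hP h)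
  obtain ⟨l0, e0, h0⟩ := h1.up
  obtain ⟨S, hS1, hS2, hS3⟩ := h0.closure
  -- the reachable nodes
  obtain ⟨σ0, hσ0⟩ : ∃ σ0 : Skel V, σ0 = ⟨fun _ => none, fun v => {v' | Sees P θ y v' v}, e0, 0⟩ := ⟨_, rfl⟩
  have hRS : ∀ v, σ0.Reach v → v ∈ S := by
    intro v hv
    induction hv with
    | root hv => rw [hσ0] at hv; exact hS1 _ hv
    | step _ hv' ih =>
      rw [hσ0] at hv'
      obtain ⟨w, l, e, t, h2, h3⟩ := hv'
      obtain ⟨w', l', e', t', h4, h5, _⟩ := hS2 _ ih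
      obtain ⟨rfl, rfl, rfl, rfl⟩ := h2.unique hP h4.1
      exact h5 _ h3
  have hex : ∀ v, ∃ p : V × ℕ × Set V, v ∈ S → ∃ l', CutAt P θ y v p.1 l' p.2.2 p.2.1 ∧ p.2.1 ≤ l.length := by
    intro v
    by_cases hv : v ∈ S
    · obtain ⟨w', l', e', t', h4, _, h6⟩ := hS2 v hv
      exact ⟨(w', t', e'), fun _ => ⟨l', h4, h6⟩⟩
    · exact ⟨(v, 0, ∅), fun h => absurd h hv⟩
  choose p hp using hex
  obtain ⟨σ, hσ⟩ : ∃ σ : Skel V, σ = ⟨fun v => if σ0.Reach v then some ((p v).1, (p v).2.1) else none,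
    fun v => if σ0.Reach v then (p v).2.2 else ∅, e0, l.length⟩ := ⟨_, rfl⟩
  have hH : ∀ v, σ.H v ≠ none ↔ σ0.Reach v := by
    intro v
    rw [hσ]
    simp only
    split_ifs with h2
    · simp [h2]
    · simp [h2]
  have hHs : ∀ v w t, σ.H v = some (w, t) → σ0.Reach v ∧ w = (p v).1 ∧ t = (p v).2.1 := by
    intro v w t h2
    have h3 := (hH v).1 (by rw [h2]; simp)
    rw [hσ] at h2
    simp only [if_pos h3] at h2
    obtain ⟨rfl, rfl⟩ := Prod.mk.inj (Option.some.inj h2)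
    exact ⟨h3, rfl, rfl⟩
  have hE : ∀ v, σ0.Reach v → σ.E v = (p v).2.2 := by
    intro v hv
    rw [hσ]
    simp only
    rw [if_pos hv]
  have hEn : ∀ v, ¬ σ0.Reach v → σ.E v = ∅ := by
    intro v hv
    rw [hσ]
    simp only
    rw [if_neg hv]
  have hEs : ∀ v, σ0.Reach v → ∀ v', v' ∈ σ.E v ↔ v' ∈ σ0.E v := by
    intro v hv v'
    rw [hE v hv, hσ0]
    obtain ⟨l', h2, _⟩ := hp v (hRS v hv)
    constructor
    · intro h3
      exact ⟨_, _, _, _, h2.1, h3⟩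
    · rintro ⟨w, l, e, t, h3, h4⟩
      obtain ⟨_, _, h5, _⟩ := h3.unique hP h2.1
      rw [← h5]
      exact h4
  have hacc : ∀ v, σ0.Reach v → Acc (Sees P θ y) v := by
    intro v hv
    induction hv with
    | root hv => rw [hσ0] at hv; exact h0.acc hP _ hv
    | step _ hv' ih => rw [hσ0] at hv'; exact ih.inv hv'
  have hreach : ∀ v, σ0.Reach v → σ.Reach v := by
    intro v hv
    induction hv with
    | root hv => exact .root (by rw [hσ]; rw [hσ0] at hv; exact hv)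
    | @step v v' hv hv' ih => exact .step ih ((hEs v hv v').2 hv')
  have htrue : ∀ v w t, σ.H v = some (w, t) → ∃ l, CutAt P θ y v w l (σ.E v) t := by
    intro v w t h2
    obtain ⟨h3, rfl, rfl⟩ := hHs v w t h2
    obtain ⟨l', h4, _⟩ := hp v (hRS v h3)
    exact ⟨l', by rw [hE v h3]; exact h4⟩
  have hScard : S.card ≤ m := by
    by_contra hcon
    push Not at hcon
    have h2 : θ * (m + 1) ≤ θ * S.card := Nat.mul_le_mul_left _ hcon
    have h3 : θ * (m + 1) = (m + 1) * θ := Nat.mul_comm _ _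
    omega
  refine ⟨σ, ⟨?_, ?_, ?_, ?_, ?_, ?_, ?_, ?_⟩, ?_, ?_⟩
  · intro v hv
    rw [hH]
    exact .root (by rw [hσ0]; rw [hσ] at hv; exact hv)
  · intro v v' hv'
    rw [hH]
    by_cases hv : σ0.Reach v
    · exact .step hv ((hEs v hv v').1 hv')
    · rw [hEn v hv] at hv'
      exact hv'.elim
  · intro v hv
    exact hEn v fun hcon => (hH v).2 hcon hv
  · intro v w t h2
    obtain ⟨h3, _, rfl⟩ := hHs v w t h2
    obtain ⟨l', _, h4⟩ := hp v (hRS v h3)
    omega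
  · rw [hσ]; exact hl
  · intro v hv
    exact hreach v ((hH v).1 hv)
  · intro v hv
    have h2 := hacc v ((hH v).1 hv)
    have h3 : Subrelation (fun a b => a ∈ σ.E b) (Sees P θ y) := by
      intro a b hab
      by_cases hb : σ0.Reach b
      · have := (hEs b hb a).1 hab
        rw [hσ0] at this
        exact this
      · rw [hEn b hb] at hab
        exact hab.elim
    exact h3.accessible h2
  · obtain ⟨C, hC⟩ : ∃ C : Finset V, C = S.filter (fun v => σ0.Reach v) := ⟨_, rfl⟩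
    have hCm : C.card ≤ m := by
      rw [hC]
      exact (Finset.card_le_card (Finset.filter_subset _ _)).trans hScard
    have hCmem : ∀ v, v ∈ C ↔ σ0.Reach v := by
      intro v
      rw [hC, Finset.mem_filter]
      exact ⟨fun h => h.2, fun h => ⟨hRS v h, h⟩⟩
    refine ⟨fun j => C.toList[(j : ℕ)]?, fun v => ?_⟩
    rw [hH, ← hCmem, ← Finset.mem_toList]
    constructor
    · intro hv
      obtain ⟨j, hj, hjv⟩ := List.mem_iff_getElem.1 hv
      have hjm : j < m := by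
        rw [Finset.length_toList] at hj
        omega
      refine ⟨⟨j, hjm⟩, ?_⟩
      show C.toList[j]? = some v
      rw [List.getElem?_eq_getElem hj, hjv]
    · rintro ⟨j, hj⟩
      exact List.mem_of_getElem? hj
  · refine ⟨l0, ?_⟩
    have h2 : Ee P θ σ.H y true P.src P.acc l0 e0 l.length :=
      h0.toEe hP (fun v w t h3 => by
        obtain ⟨l', h4⟩ := htrue v w t h3
        exact ⟨l', _, h4⟩) (fun v hv => by
        rw [hH]
        exact .root (by rw [hσ0]; exact hv))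
    have e1 : σ.e0 = e0 := by rw [hσ]
    have e2 : σ.t0 = l.length := by rw [hσ]
    rw [e1, e2]
    exact h2
  · intro v w t h3
    obtain ⟨l', h4, h5⟩ := htrue v w t h3
    refine ⟨l', h4.toEe hP (fun v w t h3 => by
        obtain ⟨l', h4⟩ := htrue v w t h3
        exact ⟨l', _, h4⟩) (fun v' hv' => ?_), h5⟩
    rw [hH]
    have hv := (hHs v w t h3).1
    exact .step hv ((hEs v hv v').1 hv')

end

/-! ### Counting skeletons -/

section
variable {V : Type} {m kn : ℕ}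

/-- codes of skeletons -/
abbrev Code (V : Type) (m kn : ℕ) : Type :=
  (Fin m → Option (V × (V × Fin (kn + 1)) × Finset (Fin m))) × Finset (Fin m) × Fin (kn + 1)

/-- skeletons that are allowed -/
abbrev OkSkel (V : Type) (m kn : ℕ) : Type := {σ : Skel V // σ.Ok m kn}

/-- an enumeration of the nodes of a skeleton -/
noncomputable def OkSkel.q (σ : OkSkel V m kn) : Fin m → Option V := σ.2.enum.choose

lemma OkSkel.q_spec (σ : OkSkel V m kn) (v : V) : σ.1.H v ≠ none ↔ ∃ j, σ.q j = some v :=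
  σ.2.enum.choose_spec v

open Classical in
/-- the code of a skeleton -/
noncomputable def OkSkel.code (σ : OkSkel V m kn) : Code V m kn :=
  (fun j => (σ.q j).bind fun v => (σ.1.H v).map fun p =>
    (v, (p.1, Fin.ofNat (kn + 1) p.2), Finset.univ.filter fun j' => ∃ v', σ.q j' = some v' ∧ v' ∈ σ.1.E v),
   Finset.univ.filter fun j' => ∃ v', σ.q j' = some v' ∧ v' ∈ σ.1.e0, Fin.ofNat (kn + 1) σ.1.t0)

lemma ofNat_val' {t : ℕ} (h : t ≤ kn) : ((Fin.ofNat (kn + 1) t : Fin (kn + 1)) : ℕ) = t := by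
  rw [Fin.val_ofNat]
  exact Nat.mod_eq_of_lt (by omega)

lemma OkSkel.code_iff (σ : OkSkel V m kn) (j : Fin m) (v w : V) (t : Fin (kn + 1)) (s : Finset (Fin m)) :
    (σ.code).1 j = some (v, (w, t), s) ↔ σ.q j = some v ∧ σ.1.H v = some (w, (t : ℕ)) ∧
      ∀ j', j' ∈ s ↔ ∃ v', σ.q j' = some v' ∧ v' ∈ σ.1.E v := by
  classical
  unfold OkSkel.code
  simp only [Option.bind_eq_some_iff, Option.map_eq_some_iff]
  constructor
  · rintro ⟨v1, h1, ⟨w1, t1⟩, h2, h3⟩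
    obtain ⟨rfl, h4⟩ := Prod.mk.inj h3
    obtain ⟨h5, h6⟩ := Prod.mk.inj h4
    obtain ⟨rfl, h7⟩ := Prod.mk.inj h5
    have h8 : (t : ℕ) = t1 := by
      rw [← h7]
      exact ofNat_val' (σ.2.t_le v1 _ t1 h2)
    refine ⟨h1, by rw [h8]; exact h2, fun j' => ?_⟩
    rw [← h6, Finset.mem_filter]
    exact ⟨fun h => h.2, fun h => ⟨Finset.mem_univ _, h⟩⟩
  · rintro ⟨h1, h2, h3⟩
    refine ⟨v, h1, (w, (t : ℕ)), h2, ?_⟩
    have e1 : (Fin.ofNat (kn + 1) (t : ℕ) : Fin (kn + 1)) = t := by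
      apply Fin.ext
      exact ofNat_val' (by omega)
    have e2 : (Finset.univ.filter fun j' => ∃ v', σ.q j' = some v' ∧ v' ∈ σ.1.E v) = s := by
      ext j'
      rw [Finset.mem_filter, h3]
      exact ⟨fun h => h.2, fun h => ⟨Finset.mem_univ _, h⟩⟩
    rw [e2]
    simp only [e1]

lemma OkSkel.H_iff (σ : OkSkel V m kn) (v w : V) (t : ℕ) :
    σ.1.H v = some (w, t) ↔ ∃ j s, ∃ t' : Fin (kn + 1), (t' : ℕ) = t ∧ (σ.code).1 j = some (v, (w, t'), s) := by
  classical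
  constructor
  · intro h
    obtain ⟨j, hj⟩ := (σ.q_spec v).1 (by rw [h]; simp)
    have ht := σ.2.t_le v w t h
    refine ⟨j, Finset.univ.filter fun j' => ∃ v', σ.q j' = some v' ∧ v' ∈ σ.1.E v, ⟨t, by omega⟩, rfl, ?_⟩
    rw [σ.code_iff]
    refine ⟨hj, h, fun j' => ?_⟩
    rw [Finset.mem_filter]
    exact ⟨fun h => h.2, fun h => ⟨Finset.mem_univ _, h⟩⟩
  · rintro ⟨j, s, t', rfl, h⟩
    exact ((σ.code_iff j v w t' s).1 h).2.1

lemma OkSkel.E_iff (σ : OkSkel V m kn) (v v' : V) :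
    v' ∈ σ.1.E v ↔ ∃ j p s, (σ.code).1 j = some (v, p, s) ∧ ∃ j' ∈ s, ∃ p' s', (σ.code).1 j' = some (v', p', s') := by
  classical
  constructor
  · intro h
    have hv : σ.1.H v ≠ none := by
      intro hcon
      rw [σ.2.E_none v hcon] at h
      exact h
    have hv' := σ.2.E_dom v v' h
    obtain ⟨⟨w, t⟩, h1⟩ := Option.ne_none_iff_exists'.1 hv
    obtain ⟨⟨w', t'⟩, h1'⟩ := Option.ne_none_iff_exists'.1 hv'
    obtain ⟨j, s, t1, _, h2⟩ := (σ.H_iff v w t).1 h1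
    obtain ⟨j', s', t1', _, h2'⟩ := (σ.H_iff v' w' t').1 h1'
    refine ⟨j, _, s, h2, j', ?_, _, s', h2'⟩
    rw [((σ.code_iff _ _ _ _ _).1 h2).2.2]
    exact ⟨v', ((σ.code_iff _ _ _ _ _).1 h2').1, h⟩
  · rintro ⟨j, ⟨w, t⟩, s, h2, j', hj', ⟨w', t'⟩, s', h2'⟩
    obtain ⟨_, _, h3⟩ := (σ.code_iff _ _ _ _ _).1 h2
    obtain ⟨v1, h4, h5⟩ := (h3 j').1 hj'
    have h6 := ((σ.code_iff _ _ _ _ _).1 h2').1
    rw [h4] at h6
    rw [← Option.some.inj h6]
    exact h5

lemma OkSkel.e0_iff (σ : OkSkel V m kn) (v' : V) :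
    v' ∈ σ.1.e0 ↔ ∃ j' ∈ (σ.code).2.1, ∃ p' s', (σ.code).1 j' = some (v', p', s') := by
  classical
  have hmem : ∀ j', j' ∈ (σ.code).2.1 ↔ ∃ v', σ.q j' = some v' ∧ v' ∈ σ.1.e0 := by
    intro j'
    unfold OkSkel.code
    simp only [Finset.mem_filter, Finset.mem_univ, true_and]
  constructor
  · intro h
    have hv' := σ.2.e0_dom v' h
    obtain ⟨⟨w', t'⟩, h1'⟩ := Option.ne_none_iff_exists'.1 hv'
    obtain ⟨j', s', t1', _, h2'⟩ := (σ.H_iff v' w' t').1 h1'
    refine ⟨j', ?_, _, s', h2'⟩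
    rw [hmem]
    exact ⟨v', ((σ.code_iff _ _ _ _ _).1 h2').1, h⟩
  · rintro ⟨j', hj', ⟨w', t'⟩, s', h2'⟩
    obtain ⟨v1, h4, h5⟩ := (hmem j').1 hj'
    have h6 := ((σ.code_iff _ _ _ _ _).1 h2').1
    rw [h4] at h6
    rw [← Option.some.inj h6]
    exact h5

lemma OkSkel.t0_val (σ : OkSkel V m kn) : (((σ.code).2.2 : Fin (kn + 1)) : ℕ) = σ.1.t0 := by
  unfold OkSkel.code
  exact ofNat_val' σ.2.t0_le

lemma OkSkel.code_injective : Function.Injective (OkSkel.code : OkSkel V m kn → Code V m kn) := by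
  intro σ σ' h
  apply Subtype.ext
  refine Skel.ext (funext fun v => ?_) (funext fun v => ?_) ?_ ?_
  · refine Option.ext fun p => ?_
    obtain ⟨w, t⟩ := p
    rw [σ.H_iff, σ'.H_iff, h]
  · ext v'
    rw [σ.E_iff, σ'.E_iff, h]
  · ext v'
    rw [σ.e0_iff, σ'.e0_iff, h]
  · rw [← σ.t0_val, ← σ'.t0_val, h]

noncomputable instance [Fintype V] : Fintype (OkSkel V m kn) :=
  Fintype.ofInjective OkSkel.code OkSkel.code_injective

lemma card_okSkel [Fintype V] :
    Fintype.card (OkSkel V m kn) ≤ ((Fintype.card V + 1) ^ 2 * (kn + 1) * 2 ^ (m + 1)) ^ (m + 1) := by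
  classical
  refine (Fintype.card_le_of_injective _ OkSkel.code_injective).trans ?_
  rw [Fintype.card_prod, Fintype.card_prod, Fintype.card_fun, Fintype.card_option, Fintype.card_prod,
    Fintype.card_prod, Fintype.card_prod, Fintype.card_finset, Fintype.card_fin, Fintype.card_fin]
  set v := Fintype.card V
  set Q := (v + 1) ^ 2 * (kn + 1) * 2 ^ (m + 1) with hQ
  have h0 : 1 ≤ (kn + 1) * 2 ^ m := Nat.one_le_iff_ne_zero.2 (by positivity)
  have h1 : v * (v * (kn + 1) * 2 ^ m) + 1 ≤ Q := by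
    have e1 : Q = 2 * ((v + 1) ^ 2 * ((kn + 1) * 2 ^ m)) := by rw [hQ, pow_succ 2 m]; ring
    have e2 : v * (v * (kn + 1) * 2 ^ m) = v ^ 2 * ((kn + 1) * 2 ^ m) := by ring
    rw [e1, e2]
    have h2 : v ^ 2 ≤ (v + 1) ^ 2 := Nat.pow_le_pow_left (by omega) 2
    have h3 : 1 ≤ (v + 1) ^ 2 := Nat.one_le_pow _ _ (by omega)
    have h4 : v ^ 2 * ((kn + 1) * 2 ^ m) ≤ (v + 1) ^ 2 * ((kn + 1) * 2 ^ m) := Nat.mul_le_mul_right _ h2
    have h5 : 1 ≤ (v + 1) ^ 2 * ((kn + 1) * 2 ^ m) := Nat.mul_le_mul h3 h0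
    omega
  have h2 : 2 ^ m * (kn + 1) ≤ Q := by
    have h3 : 1 ≤ (v + 1) ^ 2 := Nat.one_le_pow _ _ (by omega)
    calc 2 ^ m * (kn + 1) = 1 * (kn + 1) * 2 ^ m := by ring
      _ ≤ (v + 1) ^ 2 * (kn + 1) * 2 ^ (m + 1) :=
        Nat.mul_le_mul (Nat.mul_le_mul_right _ h3) (Nat.pow_le_pow_right (by norm_num) (by omega))
  calc (v * (v * (kn + 1) * 2 ^ m) + 1) ^ m * (2 ^ m * (kn + 1)) ≤ Q ^ m * Q :=
        Nat.mul_le_mul (Nat.pow_le_pow_left h1 _) h2
    _ = Q ^ (m + 1) := (pow_succ _ _).symm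

end

/-- **The classes of a deterministic program with a stack.** -/
theorem split_stack {V Γ : Type} {n : ℕ} [Fintype V] (P : SBP V Γ (Fin n)) (hP : Det P) (θ R kn : ℕ)
    (hθ : 1 ≤ θ) (h : kn < R * θ) :
    ∃ (ι : Type) (_ : Fintype ι) (W : ι → Finset (Fin n → Bool))
      (c : ι → Fin R → (Fin n → Bool) → Fin n → Option Bool),
      Fintype.card ι ≤ ((Fintype.card V + 1) ^ 2 * (kn + 1) * 2 ^ R) ^ R ∧
      (∀ i, ∀ z ∈ W i, ∀ j, Sub (c i j z) z) ∧
      (∀ i j, ∀ z ∈ W i, ∀ z' ∈ W i, Compat (c i j z) (c i j z') → c i j z = c i j z') ∧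
      (∀ i u, (∀ j, ∃ w ∈ W i, Sub (c i j w) u) → u ∈ W i) ∧
      (∀ i, ∀ z ∈ W i, ∀ j, (dom (c i j z)).card ≤ 2 * θ) ∧
      (∀ i i', i ≠ i' → Disjoint (W i) (W i')) ∧
      (∀ x, (∃ i, x ∈ W i) ↔ ∃ l, P.AccWalk x l ∧ l.length ≤ kn) := by
  classical
  obtain ⟨m, rfl⟩ : ∃ m, R = m + 1 := by
    rcases R with _ | m
    · simp at h
    · exact ⟨m, rfl⟩
  obtain ⟨W, hW⟩ : ∃ W : OkSkel V m kn → Finset (Fin n → Bool), ∀ σ y, y ∈ W σ ↔ InW P θ σ.1 y :=
    ⟨fun σ => Finset.univ.filter fun y => InW P θ σ.1 y, fun σ y => by simp⟩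
  -- the lists of the pieces
  obtain ⟨PL, hPL⟩ : ∃ PL : OkSkel V m kn → Fin (m + 1) → (Fin n → Bool) → List (Fin n) → Prop,
      PL = fun σ j y l => Fin.cases (Ee P θ σ.1.H y true P.src P.acc l σ.1.e0 σ.1.t0)
        (fun j' => (σ.q j' = none ∧ l = []) ∨ ∃ v w t, σ.q j' = some v ∧ σ.1.H v = some (w, t) ∧
          Ee P θ σ.1.H y false v w l (σ.1.E v) t ∧ θ ≤ l.length) j := ⟨_, rfl⟩
  have hPL0 : ∀ σ y l, PL σ 0 y l ↔ Ee P θ σ.1.H y true P.src P.acc l σ.1.e0 σ.1.t0 := by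
    intro σ y l; rw [hPL]; rfl
  have hPLs : ∀ σ j' y l, PL σ (Fin.succ j') y l ↔ ((σ.q j' = none ∧ l = []) ∨
      ∃ v w t, σ.q j' = some v ∧ σ.1.H v = some (w, t) ∧
        Ee P θ σ.1.H y false v w l (σ.1.E v) t ∧ θ ≤ l.length) := by
    intro σ j' y l; rw [hPL]; rfl
  have hcert : ∀ σ : OkSkel V m kn, ∃ c : Fin (m + 1) → (Fin n → Bool) → Fin n → Option Bool,
      (∀ z ∈ W σ, ∀ j, Sub (c j z) z) ∧
      (∀ j, ∀ z ∈ W σ, ∀ z' ∈ W σ, Compat (c j z) (c j z') → c j z = c j z') ∧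
      (∀ u, (∀ j, ∃ w ∈ W σ, Sub (c j w) u) → u ∈ W σ) ∧
      (∀ z ∈ W σ, ∀ j, (dom (c j z)).card ≤ 2 * θ) := by
    intro σ
    refine cert_family (PL σ) ?_ ?_ ?_ (W σ) ?_
    · intro j y y' l h0 hy
      revert h0
      refine Fin.cases (motive := fun j => PL σ j y l → PL σ j y' l) ?_ (fun j' => ?_) j
      · intro h1
        rw [hPL0] at h1 ⊢
        exact h1.local hy
      · intro h1
        rw [hPLs] at h1 ⊢
        rcases h1 with h1 | ⟨v, w, t, h1, h2, h3, h4⟩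
        · exact Or.inl h1
        · exact Or.inr ⟨v, w, t, h1, h2, h3.local hy, h4⟩
    · intro j y l l'
      refine Fin.cases (motive := fun j => PL σ j y l → PL σ j y l' → l = l') ?_ (fun j' => ?_) j
      · intro h1 h2
        rw [hPL0] at h1 h2
        exact (h1.unique hP h2).2.1
      · intro h1 h2
        rw [hPLs] at h1 h2
        rcases h1 with ⟨h1, rfl⟩ | ⟨v, w, t, h1, h3, h4, h5⟩
        · rcases h2 with ⟨_, rfl⟩ | ⟨v', w', t', h1', _⟩
          · rfl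
          · rw [h1] at h1'; simp at h1'
        · rcases h2 with ⟨h1', _⟩ | ⟨v', w', t', h1', h3', h4', h5'⟩
          · rw [h1] at h1'; simp at h1'
          · rw [h1] at h1'
            obtain rfl := Option.some.inj h1'
            exact (h4.unique hP h4').2.1
    · intro j y l
      refine Fin.cases (motive := fun j => PL σ j y l → l.length ≤ 2 * θ) ?_ (fun j' => ?_) j
      · intro h1
        rw [hPL0] at h1
        exact (h1.len hθ).2
      · intro h1
        rw [hPLs] at h1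
        rcases h1 with ⟨h1, rfl⟩ | ⟨v, w, t, h1, h3, h4, h5⟩
        · simp
        · exact (h4.len hθ).2
    · intro y
      rw [hW]
      constructor
      · rintro ⟨⟨l, h1⟩, h2⟩ j
        refine Fin.cases (motive := fun j => ∃ l, PL σ j y l) ⟨l, (hPL0 σ y l).2 h1⟩ (fun j' => ?_) j
        cases hq : σ.q j' with
        | none => exact ⟨[], (hPLs σ j' y []).2 (Or.inl ⟨hq, rfl⟩)⟩
        | some v =>
          have h3 := (σ.q_spec v).2 ⟨j', hq⟩
          obtain ⟨⟨w, t⟩, h4⟩ := Option.ne_none_iff_exists'.1 h3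
          obtain ⟨l', h5, h6⟩ := h2 v w t h4
          exact ⟨l', (hPLs σ j' y l').2 (Or.inr ⟨v, w, t, hq, h4, h5, h6⟩)⟩
      · intro h1
        obtain ⟨l, h2⟩ := h1 0
        refine ⟨⟨l, (hPL0 σ y l).1 h2⟩, fun v w t h3 => ?_⟩
        obtain ⟨j', hj'⟩ := (σ.q_spec v).1 (by rw [h3]; simp)
        obtain ⟨l', h4⟩ := h1 (Fin.succ j')
        rcases (hPLs σ j' y l').1 h4 with ⟨h5, _⟩ | ⟨v', w', t', h5, h6, h7, h8⟩
        · rw [hj'] at h5; simp at h5
        · rw [hj'] at h5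
          obtain rfl := Option.some.inj h5
          rw [h3] at h6
          obtain ⟨rfl, rfl⟩ := Prod.mk.inj (Option.some.inj h6)
          exact ⟨l', h7, h8⟩
  choose c hc using hcert
  refine ⟨OkSkel V m kn, inferInstance, W, c, card_okSkel, fun σ => (hc σ).1, fun σ => (hc σ).2.1,
    fun σ => (hc σ).2.2.1, fun σ => (hc σ).2.2.2, ?_, ?_⟩
  · intro σ σ' hσσ
    rw [Finset.disjoint_left]
    intro x hx hx'
    rw [hW] at hx hx'
    exact hσσ (Subtype.ext (hx.eq hP σ.2 σ'.2 hx'))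
  · intro x
    constructor
    · rintro ⟨σ, hσ⟩
      rw [hW] at hσ
      exact hσ.accepts σ.2
    · rintro ⟨l, h1, h2⟩
      obtain ⟨σ, hσ, h3⟩ := exists_skel hP h h1 h2
      exact ⟨⟨σ, hσ⟩, (hW _ _).2 h3⟩

end Pool.Agent.KE
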