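import Pool.Agent.KE.Params
import Pool.Agent.KE.SSplit

/-! The quantitative two-sided bound for programs with a stack. -/

namespace Pool.Agent.KE

open Finset Pool.Agent.SemRO Pool.Agent.KD Pool.Agent.KNL
open Pool.Agent.KQL (xb)

/-- the interface of the division of the accepted inputs for programs with a stack -/
def SplitStack : Prop :=
  ∀ (V Γ : Type) [Fintype V] (n : ℕ) (P : SBP V Γ (Fin n)), Det P → ∀ θ R kn : ℕ, 1 ≤ θ →
    kn < R * θ →
    ∃ (ι : Type) (_ : Fintype ι) (W : ι → Finset (Fin n → Bool))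
      (c : ι → Fin R → (Fin n → Bool) → Fin n → Option Bool),
      Fintype.card ι ≤ ((Fintype.card V + 1) ^ 2 * (kn + 1) * 2 ^ R) ^ R ∧
      (∀ i, ∀ z ∈ W i, ∀ j, Sub (c i j z) z) ∧
      (∀ i j, ∀ z ∈ W i, ∀ z' ∈ W i, Compat (c i j z) (c i j z') → c i j z = c i j z') ∧
      (∀ i u, (∀ j, ∃ w ∈ W i, Sub (c i j w) u) → u ∈ W i) ∧
      (∀ i, ∀ z ∈ W i, ∀ j, (dom (c i j z)).card ≤ 2 * θ) ∧
      (∀ i i', i ≠ i' → Disjoint (W i) (W i')) ∧
      (∀ x, (∃ i, x ∈ W i) ↔ ∃ l, P.AccWalk x l ∧ l.length ≤ kn)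

/-- the accepted digits of a program form a set of small bias -/
theorem acc_smallS (hsplit : SplitStack) {N n k R s : ℕ} (h28 : 28 * n ≤ N) {g a b : ℕ → Bool} {k' : ℕ} {B : ℕ}
    (hfam : ∀ (ι : Type) [Fintype ι] (W : ι → Finset (Fin n → Bool))
      (c : ι → Fin R → (Fin n → Bool) → Fin n → Option Bool),
      (∀ i, ∀ z ∈ W i, ∀ j, Sub (c i j z) z) →
      (∀ i j, ∀ z ∈ W i, ∀ z' ∈ W i, Compat (c i j z) (c i j z') → c i j z = c i j z') →
      (∀ i u, (∀ j, ∃ w ∈ W i, Sub (c i j w) u) → u ∈ W i) →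
      (∀ i, ∀ z ∈ W i, ∀ j, (dom (c i j z)).card * R ≤ k' * n) →
      (∀ i i', i ≠ i' → Disjoint (W i) (W i')) →
      (Fintype.card ι : ℝ) ≤ 2 ^ ((n : ℝ) / B) →
      |∑ i, ∑ x ∈ W i, (sg (decide (expBit (9 * n) n g a b (xb x) = 1)) : ℝ)| ≤ 2 ^ n / 25)
    (hs1 : 1 ≤ s) (hs2 : k * N < R * s) (hs3 : 2 * s * R ≤ k' * n)
    {V Γ : Type} [Fintype V] (P : SBP V Γ (Fin N)) (hP : Det P)
    (hV : ((((Fintype.card V + 1) ^ 2 * (k * N + 1) * 2 ^ R) ^ R : ℕ) : ℝ) ≤ 2 ^ ((n : ℝ) / B))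
    (Acc : Finset (Fin n → Bool))
    (hAcc : ∀ x, x ∈ Acc ↔ ∃ l, P.AccWalk (wd N n g a b x) l ∧ l.length ≤ k * N) :
    |∑ x ∈ Acc, (sg (decide (expBit (9 * n) n g a b (xb x) = 1)) : ℝ)| ≤ 2 ^ n / 25 := by
  classical
  obtain ⟨ι, hι, W, c, hcard, hsub, hdet, hclosed, hdom, hdisj, hall⟩ :=
    hsplit V Γ N P hP s R (k * N) hs1 hs2
  obtain ⟨w, hw⟩ : ∃ w : (Fin n → Bool) → (Fin N → Bool), w = fun x => wd N n g a b x := ⟨_, rfl⟩
  have hwpos : ∀ x i, w x (pos h28 i) = x i := fun x i => by rw [hw]; exact wd_pos h28 g a b x i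
  have hwoff : ∀ x x' p, (∀ i : Fin n, p ≠ pos h28 i) → w x p = w x' p := fun x x' p hp => by
    rw [hw]; exact wd_off h28 g a b x x' p hp
  have posinj : Function.Injective (pos h28 : Fin n → Fin N) := by
    intro i j hij
    have := congrArg Fin.val hij
    unfold pos at this
    simp only at this
    exact Fin.ext (by omega)
  obtain ⟨W', hW'⟩ : ∃ W' : ι → Finset (Fin n → Bool), ∀ i, W' i = univ.filter (fun x => w x ∈ W i) :=
    ⟨_, fun _ => rfl⟩
  have memW' : ∀ i x, x ∈ W' i ↔ w x ∈ W i := fun i x => by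
    rw [hW', Finset.mem_filter]
    exact ⟨fun h => h.2, fun h => ⟨Finset.mem_univ _, h⟩⟩
  obtain ⟨c', hc'⟩ : ∃ c' : ι → Fin R → (Fin n → Bool) → Fin n → Option Bool,
      ∀ i j x t, c' i j x t = c i j (w x) (pos h28 t) := ⟨fun i j x t => c i j (w x) (pos h28 t), fun _ _ _ _ => rfl⟩
  have h1 : ∀ i, ∀ z ∈ W' i, ∀ j, Sub (c' i j z) z := by
    intro i z hz j t v hv
    rw [hc'] at hv
    have := hsub i (w z) ((memW' i z).1 hz) j (pos h28 t) v hv
    rw [hwpos] at this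
    exact this
  have h2 : ∀ i j, ∀ z ∈ W' i, ∀ z' ∈ W' i, Compat (c' i j z) (c' i j z') → c' i j z = c' i j z' := by
    intro i j z hz z' hz' hcomp
    have hz1 := (memW' i z).1 hz
    have hz1' := (memW' i z').1 hz'
    have h3 : c i j (w z) = c i j (w z') := by
      refine hdet i j _ hz1 _ hz1' fun p v v' hv hv' => ?_
      by_cases hp : ∃ t, p = pos h28 t
      · obtain ⟨t, rfl⟩ := hp
        exact hcomp t v v' (by rw [hc']; exact hv) (by rw [hc']; exact hv')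
      · push Not at hp
        rw [← hsub i _ hz1 j p v hv, ← hsub i _ hz1' j p v' hv', hwoff z z' p hp]
    funext t
    rw [hc', hc', h3]
  have h3 : ∀ i u, (∀ j, ∃ z ∈ W' i, Sub (c' i j z) u) → u ∈ W' i := by
    intro i u hu
    rw [memW']
    refine hclosed i (w u) fun j => ?_
    obtain ⟨z, hz, hzu⟩ := hu j
    have hz1 := (memW' i z).1 hz
    refine ⟨w z, hz1, fun p v hv => ?_⟩
    by_cases hp : ∃ t, p = pos h28 t
    · obtain ⟨t, rfl⟩ := hp
      rw [hwpos]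
      exact hzu t v (by rw [hc']; exact hv)
    · push Not at hp
      rw [hwoff u z p hp]
      exact hsub i _ hz1 j p v hv
  have h4 : ∀ i, ∀ z ∈ W' i, ∀ j, (dom (c' i j z)).card * R ≤ k' * n := by
    intro i z hz j
    refine le_trans (Nat.mul_le_mul_right _ ?_) hs3
    refine le_trans ?_ (hdom i (w z) ((memW' i z).1 hz) j)
    refine Finset.card_le_card_of_injOn (pos h28) ?_ posinj.injOn
    intro t ht
    have ht1 : c' i j z t ≠ none := mem_dom.1 ht
    rw [hc'] at ht1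
    exact mem_dom.2 ht1
  have h5 : ∀ i i', i ≠ i' → Disjoint (W' i) (W' i') := by
    intro i i' hii
    rw [Finset.disjoint_left]
    intro x hx hx'
    exact Finset.disjoint_left.1 (hdisj i i' hii) ((memW' i x).1 hx) ((memW' i' x).1 hx')
  have h6 : (Fintype.card ι : ℝ) ≤ 2 ^ ((n : ℝ) / B) := by
    refine le_trans ?_ hV
    exact_mod_cast hcard
  have h7 := hfam ι W' c' h1 h2 h3 h4 h5 h6
  have h8 : Acc = univ.biUnion W' := by
    ext x
    rw [hAcc, Finset.mem_biUnion]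
    have h9 := hall (w x)
    rw [hw] at h9
    rw [← h9]
    constructor
    · rintro ⟨i, hi⟩
      exact ⟨i, Finset.mem_univ _, (memW' i x).2 (by rw [hw]; exact hi)⟩
    · rintro ⟨i, _, hi⟩
      have := (memW' i x).1 hi
      rw [hw] at this
      exact ⟨i, this⟩
  rw [h8, Finset.sum_biUnion fun i _ i' _ hii => h5 i i' hii]
  exact h7

/-- the quantitative two-sided bound, for sets of words -/
theorem quant_setsS_of (hsplit : SplitStack) : ∃ c : ℕ, ∀ k, 2 ≤ k → ∀ N, k ^ (c * k) ≤ N → ∃ A : Finset (Fin N → Bool),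
    A.Nonempty ∧ ∀ (V Γ : Type) [Fintype V] (P : SBP V Γ (Fin N)), Det P →
      (Fintype.card V : ℝ) ≤ 2 ^ ((N : ℝ) / (k : ℝ) ^ (c * k)) →
      ∀ G ⊆ A, (∀ y ∈ G, ((∃ l, P.AccWalk y l ∧ l.length ≤ k * N) ↔ Pool.Agent.KE.Lang (List.ofFn y))) →
        (G.card : ℝ) ≤ 3 / 5 * A.card := by
  classical
  obtain ⟨B2, Rf, hB2, hRf, hB21, hRf1, hfam⟩ := family_two
  obtain ⟨B, hB⟩ : ∃ B : ℕ → ℕ, ∀ k, B k = B2 (114 * k) + 1 := ⟨_, fun _ => rfl⟩
  obtain ⟨R, hR⟩ : ∃ R : ℕ → ℕ, ∀ k, R k = Rf (114 * k) := ⟨_, fun _ => rfl⟩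
  obtain ⟨Y, hY⟩ : ∃ Y : ℕ → ℕ, ∀ k, Y k = 1000 * (R k * R k) * B k + k + 1 := ⟨_, fun _ => rfl⟩
  obtain ⟨Z, hZ⟩ : ∃ Z : ℕ → ℕ, ∀ k, Z k = (Y k + 1) ^ 2 + 56 * (2 * B k * (2 * R k)) := ⟨_, fun _ => rfl⟩
  have hkK : KB (fun k => k) := ⟨1, fun k hk => by
    calc k = k ^ 1 := (pow_one k).symm
      _ ≤ k ^ (1 * k) := Nat.pow_le_pow_right (by omega) (by omega)⟩
  have hBK : KB B := ((KB_scale hB2 114 (by norm_num)).add (KB.const 1)).mono fun k _ => by rw [hB]
  have hRK : KB R := (KB_scale hRf 114 (by norm_num)).mono fun k _ => by rw [hR]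
  have hYK : KB Y := (((((KB.const 1000).mul (hRK.mul hRK)).mul hBK).add hkK).add (KB.const 1)).mono fun k _ => by
    rw [hY]
  have hZK : KB Z := (((hYK.add (KB.const 1)).pow 2).add
    ((KB.const 56).mul (((KB.const 2).mul hBK).mul ((KB.const 2).mul hRK)))).mono fun k _ => by rw [hZ]
  obtain ⟨c, hc⟩ := hZK
  refine ⟨c, fun k hk N hN => ?_⟩
  obtain ⟨n, hn⟩ : ∃ n, n = N / 28 := ⟨_, rfl⟩
  have hZN : Z k ≤ N := (hc k hk).trans hN
  have hBk := hB k
  have hRk := hR k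
  have hYk := hY k
  have hZk := hZ k
  have hR1 : 1 ≤ R k := by rw [hR]; exact hRf1 _
  have hB1 : 1 ≤ B k := by rw [hB]; omega
  have hRR : R k ≤ R k * R k := Nat.le_mul_of_pos_right _ hR1
  have hRB : R k * R k ≤ R k * R k * B k := Nat.le_mul_of_pos_right _ hB1
  have hBR : B k ≤ R k * R k * B k := Nat.le_mul_of_pos_left _ (Nat.mul_pos hR1 hR1)
  have hYR : 1000 * (R k * R k * B k) ≤ Y k := by
    rw [hYk]
    have : 1000 * (R k * R k) * B k = 1000 * (R k * R k * B k) := by ring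
    omega
  have hYk1 : k ≤ Y k := by omega
  have hY2 : (Y k + 1) ^ 2 ≤ N := by omega
  have hYN : 500 * (Y k + 1) ≤ N := by
    refine le_trans ?_ hY2
    have : 500 ≤ Y k := by
      have : 1 ≤ R k * R k * B k := Nat.mul_pos (Nat.mul_pos hR1 hR1) hB1
      omega
    nlinarith
  have h28 : 28 * n ≤ N := by omega
  have hN56 : N ≤ 56 * n := by omega
  have hYn : Y k ≤ n := by omega
  have hB2n : B2 (114 * k) ≤ n := by omega
  obtain ⟨g, a, b, hf⟩ := hfam (114 * k) (by omega) n hB2n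
  rw [← hRk] at hf
  -- the size of the segments
  obtain ⟨s, hs⟩ : ∃ s, s = k * N / R k + 1 := ⟨_, rfl⟩
  have hs1 : 1 ≤ s := by rw [hs]; exact Nat.le_add_left _ _
  have hs2 : k * N < R k * s := by rw [hs]; exact Nat.lt_mul_div_succ _ hR1
  have hs3 : 2 * s * R k ≤ 114 * k * n := by
    have h1 : k * N / R k * R k ≤ k * N := Nat.div_mul_le_self _ _
    have h2 : s * R k = k * N / R k * R k + R k := by rw [hs]; ring
    have h3 : k * N ≤ k * (28 * n + 27) := Nat.mul_le_mul_left _ (by omega)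
    have h4 : k ≤ k * n := Nat.le_mul_of_pos_right _ (by omega)
    have h5 : R k ≤ k * n := by
      calc R k ≤ n := by omega
        _ ≤ k * n := Nat.le_mul_of_pos_left _ (by omega)
    nlinarith
  -- the size of the family
  obtain ⟨r, hr⟩ : ∃ r, r = Nat.sqrt N := ⟨_, rfl⟩
  have hr1 : r * r ≤ N := by rw [hr]; exact Nat.sqrt_le N
  have hr2 : N < (r + 1) * (r + 1) := by rw [hr]; exact Nat.lt_succ_sqrt N
  have hrY : Y k ≤ r := by
    rw [hr, Nat.le_sqrt]
    nlinarith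
  have hs4 : k * N + 1 ≤ 2 ^ (4 * r) := by
    have h2 : r + 1 ≤ 2 ^ r := Nat.lt_two_pow_self
    have h3 : N + 1 ≤ 2 ^ r * 2 ^ r := by
      calc N + 1 ≤ (r + 1) * (r + 1) := hr2
        _ ≤ 2 ^ r * 2 ^ r := Nat.mul_le_mul h2 h2
    have h4 : k * N + k ≤ 2 ^ r * (2 ^ r * 2 ^ r) := by
      calc k * N + k = k * (N + 1) := by ring
        _ ≤ 2 ^ r * (2 ^ r * 2 ^ r) := Nat.mul_le_mul (by omega) h3
    calc k * N + 1 ≤ k * N + k := by omega
      _ ≤ 2 ^ r * (2 ^ r * 2 ^ r) := h4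
      _ = 2 ^ (3 * r) := by rw [← pow_add, ← pow_add]; ring_nf
      _ ≤ 2 ^ (4 * r) := Nat.pow_le_pow_right (by norm_num) (by omega)
  have hB2R : ((B2 (114 * k) : ℕ) : ℝ) ≤ B k := by
    rw [hBk]; push_cast; linarith
  refine ⟨univ.image (fun x : Fin n → Bool => wd N n g a b x),
    ⟨_, Finset.mem_image_of_mem _ (Finset.mem_univ (fun _ => false))⟩, fun V Γ _ P hP hV G hGA hG => ?_⟩
  have hwinj : Function.Injective (fun x : Fin n → Bool => wd N n g a b x) := by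
    intro x x' hxx
    funext i
    have := congrFun hxx (pos h28 i)
    simp only [wd_pos] at this
    exact this
  have hAc : (univ.image (fun x : Fin n → Bool => wd N n g a b x)).card = 2 ^ n := by
    rw [Finset.card_image_of_injective _ hwinj, Finset.card_univ, Fintype.card_fun, Fintype.card_bool,
      Fintype.card_fin]
  rw [hAc]
  push_cast
  obtain ⟨f, hfe⟩ : ∃ f : (Fin n → Bool) → Bool,
    f = fun x => decide (expBit (9 * n) n g a b (xb x) = 1) := ⟨_, rfl⟩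
  have hnB : (0 : ℝ) < B k := by exact_mod_cast hB1
  have hnn : (0 : ℝ) ≤ n := Nat.cast_nonneg _
  have hVV : ((((Fintype.card V + 1) ^ 2 * (k * N + 1) * 2 ^ R k) ^ R k : ℕ) : ℝ) ≤
      2 ^ ((n : ℝ) / ((B k : ℕ) : ℝ)) := by
    have hkc : (0 : ℝ) < (k : ℝ) ^ (c * k) := by
      have : (0 : ℝ) < k := by exact_mod_cast (by omega : 0 < k)
      positivity
    have hV1 : 1 ≤ Fintype.card V := Fintype.card_pos_iff.2 ⟨P.src⟩
    have h1 : ((Fintype.card V : ℝ)) ^ (2 * R k) ≤ 2 ^ ((n : ℝ) / (2 * B k)) := by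
      have h2 : ((Fintype.card V : ℝ)) ^ (2 * R k) ≤ (2 ^ ((N : ℝ) / (k : ℝ) ^ (c * k))) ^ (2 * R k) :=
        pow_le_pow_left₀ (Nat.cast_nonneg _) hV _
      refine h2.trans ?_
      rw [← Real.rpow_natCast, ← Real.rpow_mul (by norm_num)]
      refine Real.rpow_le_rpow_of_exponent_le (by norm_num) ?_
      rw [div_mul_eq_mul_div, div_le_div_iff₀ hkc (by positivity)]
      have h3 : N * (2 * R k) * (2 * B k) ≤ n * k ^ (c * k) := by
        calc N * (2 * R k) * (2 * B k) = N * (2 * B k * (2 * R k)) := by ring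
          _ ≤ 56 * n * (2 * B k * (2 * R k)) := Nat.mul_le_mul_right _ hN56
          _ = n * (56 * (2 * B k * (2 * R k))) := by ring
          _ ≤ n * Z k := Nat.mul_le_mul_left _ (by omega)
          _ ≤ n * k ^ (c * k) := Nat.mul_le_mul_left _ (hc k hk)
      have h4 : ((N * (2 * R k) * (2 * B k) : ℕ) : ℝ) ≤ ((n * k ^ (c * k) : ℕ) : ℝ) := by exact_mod_cast h3
      push_cast at h4 ⊢
      exact h4
    have h5 : (2 : ℝ) ^ ((2 * R k + 4 * r * R k + R k * R k : ℕ) : ℝ) ≤ 2 ^ ((n : ℝ) / (2 * B k)) := by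
      refine Real.rpow_le_rpow_of_exponent_le (by norm_num) ?_
      rw [le_div_iff₀ (by positivity)]
      have hr0 : 1 ≤ r := by omega
      have h8 : (2 * R k + 4 * r * R k + R k * R k) * (2 * B k) ≤ n := by
        have h10 : 2 * R k + 4 * r * R k + R k * R k ≤ 7 * (r * (R k * R k)) := by
          have a1 : R k * R k ≤ r * (R k * R k) := Nat.le_mul_of_pos_left _ hr0
          have a2 : r * R k ≤ r * (R k * R k) := Nat.mul_le_mul_left _ hRR
          have a3 : 4 * r * R k = 4 * (r * R k) := by ring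
          omega
        have h9 : 56 * ((2 * R k + 4 * r * R k + R k * R k) * (2 * B k)) ≤ 56 * n := by
          calc 56 * ((2 * R k + 4 * r * R k + R k * R k) * (2 * B k))
              ≤ 56 * (7 * (r * (R k * R k)) * (2 * B k)) :=
                Nat.mul_le_mul_left _ (Nat.mul_le_mul_right _ h10)
            _ = r * (784 * (R k * R k * B k)) := by ring
            _ ≤ r * Y k := Nat.mul_le_mul_left _ (by omega)
            _ ≤ r * r := Nat.mul_le_mul_left _ hrY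
            _ ≤ N := hr1
            _ ≤ 56 * n := hN56
        omega
      exact_mod_cast h8
    have h6 : ((Fintype.card V + 1) ^ 2 * (k * N + 1) * 2 ^ R k) ^ R k ≤
        Fintype.card V ^ (2 * R k) * 2 ^ (2 * R k + 4 * r * R k + R k * R k) := by
      calc ((Fintype.card V + 1) ^ 2 * (k * N + 1) * 2 ^ R k) ^ R k
          ≤ ((2 * Fintype.card V) ^ 2 * 2 ^ (4 * r) * 2 ^ R k) ^ R k := by
            refine Nat.pow_le_pow_left (Nat.mul_le_mul_right _ (Nat.mul_le_mul ?_ hs4)) _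
            exact Nat.pow_le_pow_left (by omega) _
        _ = Fintype.card V ^ (2 * R k) * 2 ^ (2 * R k + 4 * r * R k + R k * R k) := by
            rw [pow_add, pow_add, pow_mul (Fintype.card V) 2 (R k), pow_mul 2 2 (R k),
              pow_mul 2 (4 * r) (R k), pow_mul 2 (R k) (R k), ← mul_pow, ← mul_pow, ← mul_pow]
            congr 1
            rw [mul_pow]
            ring
    have h7 : ((((Fintype.card V + 1) ^ 2 * (k * N + 1) * 2 ^ R k) ^ R k : ℕ) : ℝ) ≤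
        (Fintype.card V : ℝ) ^ (2 * R k) * (2 : ℝ) ^ ((2 * R k + 4 * r * R k + R k * R k : ℕ) : ℝ) := by
      rw [Real.rpow_natCast]
      exact_mod_cast h6
    have h10 : ((n : ℝ) / ((B k : ℕ) : ℝ)) = (n : ℝ) / (2 * B k) + (n : ℝ) / (2 * B k) := by
      field_simp
      ring
    refine h7.trans ?_
    rw [h10, Real.rpow_add (by norm_num)]
    exact mul_le_mul h1 h5 (by positivity) (by positivity)
  have hfB : ∀ (ι : Type) [Fintype ι] (W : ι → Finset (Fin n → Bool))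
      (c : ι → Fin (R k) → (Fin n → Bool) → Fin n → Option Bool),
      (∀ i, ∀ z ∈ W i, ∀ j, Sub (c i j z) z) →
      (∀ i j, ∀ z ∈ W i, ∀ z' ∈ W i, Compat (c i j z) (c i j z') → c i j z = c i j z') →
      (∀ i u, (∀ j, ∃ w ∈ W i, Sub (c i j w) u) → u ∈ W i) →
      (∀ i, ∀ z ∈ W i, ∀ j, (dom (c i j z)).card * R k ≤ 114 * k * n) →
      (∀ i i', i ≠ i' → Disjoint (W i) (W i')) →
      (Fintype.card ι : ℝ) ≤ 2 ^ ((n : ℝ) / ((B k : ℕ) : ℝ)) →
      |∑ i, ∑ x ∈ W i, (sg (decide (expBit (9 * n) n g a b (xb x) = 1)) : ℝ)| ≤ 2 ^ n / 25 := by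
    intro ι _ W c h1 h2 h3 h4 h5 h6
    refine hf ι W c h1 h2 h3 h4 h5 (h6.trans ?_)
    have h0 : 0 < B2 (114 * k) := hB21 _
    refine Real.rpow_le_rpow_of_exponent_le (by norm_num) ?_
    exact div_le_div_of_nonneg_left hnn (by exact_mod_cast h0) hB2R
  obtain ⟨Acc, hAcc⟩ : ∃ Acc : Finset (Fin n → Bool),
      Acc = univ.filter (fun x => ∃ l, P.AccWalk (wd N n g a b x) l ∧ l.length ≤ k * N) := ⟨_, rfl⟩
  have hAccm : ∀ x, x ∈ Acc ↔ ∃ l, P.AccWalk (wd N n g a b x) l ∧ l.length ≤ k * N := by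
    intro x
    rw [hAcc, Finset.mem_filter]
    exact ⟨fun h => h.2, fun h => ⟨Finset.mem_univ _, h⟩⟩
  have hacc := acc_smallS hsplit (k := k) (s := s) h28 hfB hs1 hs2 hs3 P hP hVV Acc hAccm
  have hallx := all_small hfB
  -- count
  obtain ⟨G', hG'⟩ : ∃ G' : Finset (Fin n → Bool), G' = univ.filter (fun x => wd N n g a b x ∈ G) := ⟨_, rfl⟩
  have hGc : G.card ≤ G'.card := by
    have h1 : G ⊆ G'.image (fun x => wd N n g a b x) := by
      intro y hy
      obtain ⟨x, _, rfl⟩ := Finset.mem_image.1 (hGA hy)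
      exact Finset.mem_image.2 ⟨x, by rw [hG']; exact Finset.mem_filter.2 ⟨Finset.mem_univ _, hy⟩, rfl⟩
    exact (Finset.card_le_card h1).trans Finset.card_image_le
  have h2 := agree_le f Acc (by rw [hfe]; exact hallx) (by rw [hfe]; exact hacc) G' (by
    intro x hx
    rw [hG'] at hx
    have h3 := hG _ (Finset.mem_filter.1 hx).2
    rw [lang_wd hn] at h3
    rw [hAccm, h3, hfe]
    simp)
  have h3 : (G.card : ℝ) ≤ G'.card := by exact_mod_cast hGc
  linarith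

theorem splitStack : SplitStack := fun _ _ _ _ P hP θ R kn hθ h => split_stack P hP θ R kn hθ h

/-- **The quantitative two-sided bound for programs with a stack, for sets of words.** -/
theorem quant_setsS : ∃ c : ℕ, ∀ k, 2 ≤ k → ∀ N, k ^ (c * k) ≤ N → ∃ A : Finset (Fin N → Bool),
    A.Nonempty ∧ ∀ (V Γ : Type) [Fintype V] (P : SBP V Γ (Fin N)), Det P →
      (Fintype.card V : ℝ) ≤ 2 ^ ((N : ℝ) / (k : ℝ) ^ (c * k)) →
      ∀ G ⊆ A, (∀ y ∈ G, ((∃ l, P.AccWalk y l ∧ l.length ≤ k * N) ↔ Pool.Agent.KE.Lang (List.ofFn y))) →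
        (G.card : ℝ) ≤ 3 / 5 * A.card :=
  quant_setsS_of splitStack

open Classical in
/-- **The quantitative two-sided bound for programs with a stack.** -/
theorem quant_twoS : ∃ c : ℕ, ∀ k, 2 ≤ k → ∀ N, k ^ (c * k) ≤ N → ∃ A : Finset (Fin N → Bool),
    A.Nonempty ∧ ∀ (V Γ : Type) [Fintype V] (P : SBP V Γ (Fin N)), Det P →
      (Fintype.card V : ℝ) ≤ 2 ^ ((N : ℝ) / (k : ℝ) ^ (c * k)) →
      ((A.filter fun y => ((∃ l, P.AccWalk y l ∧ l.length ≤ k * N) ↔
        Pool.Agent.KE.Lang (List.ofFn y))).card : ℝ) ≤ 3 / 5 * A.card := by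
  obtain ⟨c, hc⟩ := quant_setsS
  refine ⟨c, fun k hk N hN => ?_⟩
  obtain ⟨A, hA, h⟩ := hc k hk N hN
  refine ⟨A, hA, fun V Γ _ P hP hV => ?_⟩
  exact h V Γ P hP hV _ (Finset.filter_subset _ _) fun y hy => (Finset.mem_filter.1 hy).2

end Pool.Agent.KE
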