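import Pool.Agent.KE.Alg

/-! Arithmetic in the quotient by `X ^ M + g` with registers of `M` bits. -/

namespace Pool.Agent.KE

open Finset Polynomial

variable {M : ℕ} {g : ℕ → Bool}

/-- multiplication by `X` -/
def sh (M : ℕ) (g c : ℕ → Bool) (i : ℕ) : Bool := xor (if i = 0 then false else c (i - 1)) (c (M - 1) && g i)

/-- sum -/
def xr (c d : ℕ → Bool) (i : ℕ) : Bool := xor (c i) (d i)

lemma ite_xor (a b : Bool) : (if xor a b = true then (1 : ZMod 2) else 0) =
    (if a = true then 1 else 0) + if b = true then 1 else 0 := by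
  cases a <;> cases b <;> decide

lemma polyOf_xr (M : ℕ) (c d : ℕ → Bool) : polyOf M (xr c d) = polyOf M c + polyOf M d := by
  ext i
  rw [coeff_add, polyOf_coeff, polyOf_coeff, polyOf_coeff]
  by_cases h : i < M
  · simp only [h, true_and]
    exact ite_xor _ _
  · simp [h]

lemma el_xr (c d : ℕ → Bool) : el M g (xr c d) = el M g c + el M g d := by
  unfold el
  rw [polyOf_xr, map_add]

/-- `X * c = sh c + c (M - 1) (X ^ M + g)` -/
lemma polyOf_sh (hM : 1 ≤ M) (c : ℕ → Bool) : polyOf M (sh M g c) =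
    X * polyOf M c + (if c (M - 1) = true then 1 else 0) * modu M g := by
  obtain ⟨m, rfl⟩ : ∃ m, M = m + 1 := ⟨M - 1, by omega⟩
  rw [Nat.add_sub_cancel]
  have h2 : (1 : ZMod 2) + 1 = 0 := by decide
  ext i
  rw [coeff_add, polyOf_coeff]
  have e1 : ((if c m = true then (1 : (ZMod 2)[X]) else 0) * modu (m + 1) g).coeff i =
      if c m = true then (modu (m + 1) g).coeff i else 0 := by
    split_ifs <;> simp
  have e2 : (modu (m + 1) g).coeff i = (if i = m + 1 then 1 else 0) +
      if i < m + 1 ∧ g i = true then 1 else 0 := by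
    unfold modu
    rw [coeff_add, coeff_X_pow, polyOf_coeff]
  have e3 : (X * polyOf (m + 1) c).coeff i = if i = 0 then 0 else
      if i - 1 < m + 1 ∧ c (i - 1) = true then 1 else 0 := by
    rcases i with _ | i
    · rw [if_pos rfl, coeff_X_mul_zero]
    · rw [if_neg (by omega), coeff_X_mul, polyOf_coeff, Nat.add_sub_cancel]
  rw [e1, e2, e3]
  unfold sh
  rw [Nat.add_sub_cancel]
  rcases lt_trichotomy i (m + 1) with hi | rfl | hi
  · rw [if_neg (by omega : i ≠ m + 1)]
    rcases Nat.eq_zero_or_pos i with rfl | h0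
    · cases c m <;> cases g 0 <;> simp
    · have h3 : i - 1 < m + 1 := by omega
      rw [if_neg (by omega : i ≠ 0), if_neg (by omega : i ≠ 0)]
      simp only [hi, h3, true_and]
      cases c m <;> cases g i <;> cases c (i - 1) <;> simp [h2]
  · rw [if_neg (by omega : ¬ (m + 1 = 0)), if_pos rfl, Nat.add_sub_cancel]
    cases c m <;> simp [h2]
  · rw [if_neg (by omega : i ≠ m + 1), if_neg (by omega : i ≠ 0)]
    have h3 : ¬ (i < m + 1) := by omega
    have h4 : ¬ (i - 1 < m + 1) := by omega
    simp [h3, h4]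

/-- the class of `X` -/
noncomputable def rt (M : ℕ) (g : ℕ → Bool) : AdjoinRoot (modu M g) := AdjoinRoot.mk (modu M g) X

lemma el_sh (hM : 1 ≤ M) (c : ℕ → Bool) : el M g (sh M g c) = rt M g * el M g c := by
  unfold el rt
  rw [polyOf_sh hM, map_add, map_mul, map_mul, AdjoinRoot.mk_self, mul_zero, add_zero]

lemma el_sum (c : ℕ → Bool) : el M g c = ∑ i ∈ range M, if c i = true then rt M g ^ i else 0 := by
  unfold el rt polyOf
  rw [map_sum]
  refine Finset.sum_congr rfl fun i _ => ?_
  split_ifs
  · rw [map_pow]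
  · rw [map_zero]

/-! ### products -/

/-- one step of the multiplication: registers `c`, `u`, `v` -/
def mst (M : ℕ) (g : ℕ → Bool) (s : (ℕ → Bool) × (ℕ → Bool) × (ℕ → Bool)) :
    (ℕ → Bool) × (ℕ → Bool) × (ℕ → Bool) :=
  (sh M g s.1, if s.2.2 0 = true then xr s.2.1 s.1 else s.2.1, fun i => s.2.2 (i + 1))

lemma mst_iter (hM : 1 ≤ M) (s : (ℕ → Bool) × (ℕ → Bool) × (ℕ → Bool)) (k : ℕ) :
    el M g ((mst M g)^[k] s).1 = rt M g ^ k * el M g s.1 ∧
    el M g ((mst M g)^[k] s).2.1 = el M g s.2.1 +
      (∑ i ∈ range k, if s.2.2 i = true then rt M g ^ i else 0) * el M g s.1 ∧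
    ∀ i, ((mst M g)^[k] s).2.2 i = s.2.2 (i + k) := by
  induction k with
  | zero => simp
  | succ k ih =>
    obtain ⟨h1, h2, h3⟩ := ih
    rw [Function.iterate_succ_apply']
    refine ⟨?_, ?_, fun i => ?_⟩
    · simp only [mst]
      rw [el_sh hM, h1, pow_succ]
      ring
    · simp only [mst]
      rw [h3 0, zero_add, Finset.sum_range_succ]
      split_ifs
      · rw [el_xr, h2, h1]
        ring
      · rw [h2, add_zero]
    · simp only [mst]
      rw [h3, show i + 1 + k = i + (k + 1) by omega]

/-- **multiply and add** -/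
theorem el_mst (hM : 1 ≤ M) (c u v : ℕ → Bool) :
    el M g ((mst M g)^[M] (c, u, v)).2.1 = el M g u + el M g v * el M g c := by
  rw [(mst_iter hM (c, u, v) M).2.1, ← el_sum]

/-- product -/
def mulR (M : ℕ) (g c v : ℕ → Bool) : ℕ → Bool := ((mst M g)^[M] (c, fun _ => false, v)).2.1

lemma el_false : el M g (fun _ => false) = 0 := by
  unfold el polyOf
  simp

theorem el_mulR (hM : 1 ≤ M) (c v : ℕ → Bool) : el M g (mulR M g c v) = el M g c * el M g v := by
  unfold mulR
  rw [el_mst hM, el_false, zero_add, mul_comm]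

/-! ### powers -/

/-- the register of `1` -/
def one1 (i : ℕ) : Bool := decide (i = 0)

lemma el_one (hM : 1 ≤ M) : el M g one1 = 1 := by
  rw [el_sum, Finset.sum_eq_single 0]
  · rw [if_pos (by simp [one1]), pow_zero]
  · intro i _ hi
    rw [if_neg (by simp [one1, hi])]
  · intro h
    exact absurd (mem_range.2 (by omega)) h

/-- one digit -/
def dig (M : ℕ) (g a : ℕ → Bool) (r : ℕ → Bool) (d : Bool) : ℕ → Bool :=
  if d = true then mulR M g (mulR M g r r) a else mulR M g r r

/-- power with the `n` binary digits `x i`, `i < n`, from the top -/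
def powR (M : ℕ) (g a x : ℕ → Bool) (n : ℕ) : ℕ → ℕ → Bool
  | 0 => one1
  | j + 1 => dig M g a (powR M g a x n j) (x (n - 1 - j))

lemma el_dig (hM : 1 ≤ M) (a r : ℕ → Bool) (d : Bool) :
    el M g (dig M g a r d) = el M g r ^ 2 * if d = true then el M g a else 1 := by
  unfold dig
  split_ifs
  · rw [el_mulR hM, el_mulR hM]; ring
  · rw [el_mulR hM]; ring

lemma numOf_shift (n j : ℕ) (x : ℕ → Bool) (hj : j < n) :
    numOf (j + 1) (fun i => x (n - (j + 1) + i)) =
      2 * numOf j (fun i => x (n - j + i)) + if x (n - 1 - j) = true then 1 else 0 := by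
  unfold numOf
  rw [Finset.sum_range_succ', Finset.mul_sum]
  congr 1
  · refine Finset.sum_congr rfl fun i _ => ?_
    have e : n - (j + 1) + (i + 1) = n - j + i := by omega
    simp only [e, pow_succ]
    split_ifs <;> ring
  · have e : n - (j + 1) + 0 = n - 1 - j := by omega
    simp only [e, pow_zero]

/-- **powers** -/
theorem el_powR (hM : 1 ≤ M) (a x : ℕ → Bool) (n : ℕ) {j : ℕ} (hj : j ≤ n) :
    el M g (powR M g a x n j) = el M g a ^ numOf j (fun i => x (n - j + i)) := by
  induction j with
  | zero =>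
    rw [powR, el_one hM]
    simp [numOf]
  | succ j ih =>
    rw [powR, el_dig hM, ih (by omega), numOf_shift n j x (by omega), pow_add, pow_mul]
    congr 1
    · rw [← pow_mul, ← pow_mul, mul_comm]
    · split_ifs <;> simp

/-- **the language in registers** -/
theorem expBit_reg (hM : 1 ≤ M) (n : ℕ) (a b x : ℕ → Bool) : expBit M n g a b x = 1 ↔
    ((range M).filter fun i => b i = true ∧ powR M g a x n n i = true).card % 2 = 1 := by
  have h1 := el_powR (g := g) hM a x n le_rfl
  simp only [Nat.sub_self, zero_add] at h1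
  have h2 : expBit M n g a b x =
      (((range M).filter fun i => b i = true ∧ powR M g a x n n i = true).card : ZMod 2) := by
    rw [expBit_eq, ← h1, Finset.card_filter, Nat.cast_sum]
    refine Finset.sum_congr rfl fun i hi => ?_
    rw [co_el g _ (mem_range.1 hi)]
    by_cases hb : b i = true <;> by_cases hp : powR M g a x n n i = true <;> simp [hb, hp]
  rw [h2]
  have h3 : (1 : ZMod 2) = ((1 : ℕ) : ZMod 2) := by simp
  rw [h3, ZMod.natCast_eq_natCast_iff]
  unfold Nat.ModEq
  norm_num

end Pool.Agent.KE
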