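import Pool.Agent.KE.Defs

/-! Combinatorial part of the choice of the seed: tuples with even multiplicities, high moments. -/

namespace Pool.Agent.KE

open Finset Pool.Agent.SemRO Pool.Agent.KD

theorem sg_mul_self (b : Bool) : sg b * sg b = 1 := by cases b <;> simp [sg]

theorem abs_sg (b : Bool) : |sg b| = 1 := by cases b <;> simp [sg]

variable {α ι : Type*} [Fintype α] [DecidableEq α] [Fintype ι] [DecidableEq ι]

/-- the values taken an odd number of times -/
def oddv (x : ι → α) : Finset α := univ.filter fun z => Odd (univ.filter fun i => x i = z).card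

omit [DecidableEq ι] in
/-- the product over a tuple is the product over the values taken an odd number of times -/
theorem prod_tuple (x : ι → α) (h : α → ℤ) (h1 : ∀ z, h z * h z = 1) :
    ∏ i, h (x i) = ∏ z ∈ oddv x, h z := by
  have e0 : ∏ i, h (x i) = ∏ z : α, h z ^ (univ.filter fun i => x i = z).card := by
    rw [← Finset.prod_fiberwise (s := (univ : Finset ι)) (g := x) (f := fun i => h (x i))]
    refine Finset.prod_congr rfl fun z _ => ?_
    rw [Finset.prod_congr rfl (g := fun _ => h z) (fun i hi => by rw [(Finset.mem_filter.1 hi).2]),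
      Finset.prod_const]
  rw [e0, oddv, Finset.prod_filter]
  refine Finset.prod_congr rfl fun z _ => ?_
  split_ifs with ho
  · obtain ⟨k, hk⟩ := ho
    rw [hk, pow_succ, pow_mul, pow_two, h1, one_pow, one_mul]
  · rw [Nat.not_odd_iff_even] at ho
    obtain ⟨k, hk⟩ := ho
    rw [hk, ← two_mul, pow_mul, pow_two, h1, one_pow]

/-- tuples without odd multiplicities -/
theorem card_even (C : Finset α) (q : ℕ) (hq : 1 ≤ q) :
    ((Fintype.piFinset fun _ : Fin (2 * q) => C).filter fun x => oddv x = ∅).card
      ≤ q ^ (2 * q) * C.card ^ q := by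
  classical
  set E := (Fintype.piFinset fun _ : Fin (2 * q) => C).filter fun x => oddv x = ∅ with hE
  have hsub : E ⊆ (((univ : Finset (Fin (2 * q) → Fin q)) ×ˢ
      (Fintype.piFinset fun _ : Fin q => C)).image fun p => fun i => p.2 (p.1 i)) := by
    intro x hx
    obtain ⟨hx1, hx2⟩ := Finset.mem_filter.1 hx
    rw [Fintype.mem_piFinset] at hx1
    set I := univ.image x with hI
    have hcard : 2 * I.card ≤ 2 * q := by
      have h2 : ∑ z ∈ I, 2 ≤ ∑ z ∈ I, (univ.filter fun i => x i = z).card := by
        refine Finset.sum_le_sum fun z hz => ?_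
        have hne : (univ.filter fun i => x i = z).Nonempty := by
          obtain ⟨i, _, hi⟩ := Finset.mem_image.1 hz
          exact ⟨i, Finset.mem_filter.2 ⟨Finset.mem_univ _, hi⟩⟩
        have hpos := Finset.card_pos.2 hne
        have hev : ¬ Odd (univ.filter fun i => x i = z).card := by
          intro ho
          have : z ∈ oddv x := Finset.mem_filter.2 ⟨Finset.mem_univ _, ho⟩
          rw [hx2] at this
          exact absurd this (Finset.notMem_empty _)
        rw [Nat.not_odd_iff_even] at hev
        obtain ⟨k, hk⟩ := hev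
        omega
      have h3 : ∑ z ∈ I, (univ.filter fun i => x i = z).card = 2 * q := by
        have := Finset.card_eq_sum_card_image x (univ : Finset (Fin (2 * q)))
        rw [Finset.card_univ, Fintype.card_fin] at this
        exact this.symm
      rw [h3, Finset.sum_const, smul_eq_mul] at h2
      omega
    have hIq : I.card ≤ q := by omega
    have hI1 : I.Nonempty := by
      have : Nonempty (Fin (2 * q)) := ⟨⟨0, by omega⟩⟩
      exact Finset.image_nonempty.2 Finset.univ_nonempty
    obtain ⟨z0, hz0⟩ := hI1
    have eI := I.equivFin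
    refine Finset.mem_image.2 ⟨(fun i => Fin.castLE hIq (eI ⟨x i, Finset.mem_image.2 ⟨i, Finset.mem_univ _, rfl⟩⟩),
      fun j => if h : (j : ℕ) < I.card then (eI.symm ⟨j, h⟩ : α) else z0), ?_, ?_⟩
    · refine Finset.mem_product.2 ⟨Finset.mem_univ _, Fintype.mem_piFinset.2 fun j => ?_⟩
      have hIC : ∀ z ∈ I, z ∈ C := fun z hz => by
        obtain ⟨i, _, hi⟩ := Finset.mem_image.1 hz
        rw [← hi]
        exact hx1 i
      dsimp only
      split_ifs with h
      · exact hIC _ (eI.symm ⟨j, h⟩).2
      · exact hIC _ hz0
    · funext i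
      dsimp only
      rw [dif_pos (by simp)]
      have : (⟨((Fin.castLE hIq (eI ⟨x i, Finset.mem_image.2 ⟨i, Finset.mem_univ _, rfl⟩⟩) : Fin q) : ℕ),
          by simp⟩ : Fin I.card) = eI ⟨x i, Finset.mem_image.2 ⟨i, Finset.mem_univ _, rfl⟩⟩ := by
        ext
        simp
      rw [this, Equiv.symm_apply_apply]
  refine (Finset.card_le_card hsub).trans (Finset.card_image_le.trans ?_)
  rw [Finset.card_product, Fintype.card_piFinset, Finset.card_univ, Fintype.card_fun, Fintype.card_fin,
    Fintype.card_fin, Finset.prod_const, Finset.card_univ, Fintype.card_fin]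

end Pool.Agent.KE
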