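import Pool.Agent.KE.SeedC

/-! The choice of the seed: high moments and the union bound, for an abstract family. -/

namespace Pool.Agent.KE

open Finset Pool.Agent.SemRO Pool.Agent.KD

variable {n : ℕ} {Ω : Type*} [Fintype Ω]

/-- the sum of the products of two shifts -/
def ssum (f : (Fin n → Bool) → Bool) (T : Finset (Fin n)) (y y' : Fin n → Bool) : ℤ :=
  ∑ x ∈ cube T y, sg (f x) * sg (f (mix T x y'))

theorem oddv_elim {T : Finset (Fin n)} {y y' : Fin n → Bool} (hy : ∃ i, i ∉ T ∧ y i ≠ y' i) {m : ℕ}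
    (p : Fin m → Fin n → Bool) (hp : ∀ i, p i ∈ cube T y) (hne : oddv p ≠ ∅) :
    (oddv (Sum.elim p fun i => mix T (p i) y')).Nonempty := by
  classical
  obtain ⟨z, hz⟩ := Finset.nonempty_iff_ne_empty.2 hne
  have hz2 := (Finset.mem_filter.1 hz).2
  refine ⟨z, Finset.mem_filter.2 ⟨Finset.mem_univ _, ?_⟩⟩
  obtain ⟨i0, hi0⟩ : (univ.filter fun i => p i = z).Nonempty := by
    rw [← Finset.card_pos]
    exact hz2.pos
  have hzc : z ∈ cube T y := by
    rw [← (Finset.mem_filter.1 hi0).2]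
    exact hp i0
  obtain ⟨v, hv1, hv2⟩ := hy
  have e : (univ.filter fun i : Fin m ⊕ Fin m => Sum.elim p (fun i => mix T (p i) y') i = z)
      = (univ.filter fun i => p i = z).map Function.Embedding.inl := by
    ext i
    simp only [Finset.mem_filter, Finset.mem_univ, true_and, Finset.mem_map,
      Function.Embedding.inl_apply]
    constructor
    · intro h
      rcases i with i | i
      · exact ⟨i, h, rfl⟩
      · exfalso
        apply hv2
        have h1 : mix T (p i) y' v = z v := congrFun h v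
        rw [← mem_cube.1 hzc v hv1, ← h1]
        simp [mix, hv1]
    · rintro ⟨j, hj, rfl⟩
      exact hj
  rw [e, Finset.card_map]
  exact hz2

/-- high moment of the sum over the family -/
theorem moment (F : Ω → (Fin n → Bool) → Bool) {B : ℕ}
    (H : ∀ D : Finset (Fin n → Bool), D.Nonempty → |∑ w, ∏ x ∈ D, sg (F w x)| ≤ (B : ℤ))
    {T : Finset (Fin n)} {y y' : Fin n → Bool} (hy : ∃ i, i ∉ T ∧ y i ≠ y' i) {q : ℕ} (hq : 1 ≤ q) :
    ∑ w, ssum (F w) T y y' ^ (2 * q) ≤
      ((Fintype.card Ω * (q ^ (2 * q) * (2 ^ T.card) ^ q) + (2 ^ T.card) ^ (2 * q) * B : ℕ) : ℤ) := by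
  classical
  set P := Fintype.piFinset fun _ : Fin (2 * q) => cube T y with hP
  have e1 : ∀ w, ssum (F w) T y y' ^ (2 * q) =
      ∑ p ∈ P, ∏ i, (sg (F w (p i)) * sg (F w (mix T (p i) y'))) := by
    intro w
    have h := Finset.prod_univ_sum (κ := fun _ => Fin n → Bool) (fun _ : Fin (2 * q) => cube T y)
      (fun _ x => sg (F w x) * sg (F w (mix T x y')))
    rw [Finset.prod_const, Finset.card_univ, Fintype.card_fin] at h
    exact h
  rw [Finset.sum_congr rfl fun w _ => e1 w, Finset.sum_comm]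
  have e2 : ∀ w (p : Fin (2 * q) → Fin n → Bool),
      ∏ i, (sg (F w (p i)) * sg (F w (mix T (p i) y')))
        = ∏ z ∈ oddv (Sum.elim p fun i => mix T (p i) y'), sg (F w z) := by
    intro w p
    rw [← prod_tuple _ _ (fun z => sg_mul_self (F w z)), Fintype.prod_sum_type, ← Finset.prod_mul_distrib]
    rfl
  have hE := card_even (cube T y) q hq
  set E := P.filter fun x => oddv x = ∅ with hEd
  have b1 : ∀ p ∈ P, ∑ w, ∏ i, (sg (F w (p i)) * sg (F w (mix T (p i) y')))
      ≤ (if oddv p = ∅ then (Fintype.card Ω : ℤ) else 0) + B := by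
    intro p hp
    rw [Fintype.mem_piFinset] at hp
    split_ifs with ho
    · have h1 : ∑ w, ∏ i, (sg (F w (p i)) * sg (F w (mix T (p i) y'))) ≤ ∑ _w : Ω, (1 : ℤ) := by
        refine Finset.sum_le_sum fun w _ => ?_
        refine (le_abs_self _).trans (le_of_eq ?_)
        rw [Finset.abs_prod]
        refine Finset.prod_eq_one fun i _ => ?_
        rw [abs_mul, abs_sg, abs_sg, one_mul]
      rw [Finset.sum_const, Finset.card_univ, nsmul_eq_mul, mul_one] at h1
      have : (0 : ℤ) ≤ B := by positivity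
      linarith
    · rw [Finset.sum_congr rfl fun w _ => e2 w p, zero_add]
      exact (le_abs_self _).trans (H _ (oddv_elim hy p hp ho))
  refine (Finset.sum_le_sum b1).trans ?_
  rw [Finset.sum_add_distrib, ← Finset.sum_filter, Finset.sum_const, Finset.sum_const]
  have hPc : P.card = (2 ^ T.card) ^ (2 * q) := by
    rw [hP, Fintype.card_piFinset, Finset.prod_const, Finset.card_univ, Fintype.card_fin, card_cube]
  rw [hPc, ← hEd, nsmul_eq_mul, nsmul_eq_mul]
  rw [card_cube] at hE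
  have hE' : ((E.card : ℕ) : ℤ) ≤ ((q ^ (2 * q) * (2 ^ T.card) ^ q : ℕ) : ℤ) := by exact_mod_cast hE
  have h0 : (0 : ℤ) ≤ Fintype.card Ω := by positivity
  have := mul_le_mul_of_nonneg_right hE' h0
  push_cast at this ⊢
  linarith

/-- Markov -/
theorem bad_card (F : Ω → (Fin n → Bool) → Bool) {B : ℕ}
    (H : ∀ D : Finset (Fin n → Bool), D.Nonempty → |∑ w, ∏ x ∈ D, sg (F w x)| ≤ (B : ℤ))
    {T : Finset (Fin n)} {y y' : Fin n → Bool} (hy : ∃ i, i ∉ T ∧ y i ≠ y' i) {q e : ℕ} (hq : 1 ≤ q) :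
    (univ.filter fun w => ¬ |ssum (F w) T y y'| ≤ 2 ^ (6 * e)).card * 2 ^ (12 * e * q) ≤
      Fintype.card Ω * (q ^ (2 * q) * (2 ^ T.card) ^ q) + (2 ^ T.card) ^ (2 * q) * B := by
  have h := moment F H hy hq
  have h2 : (((univ.filter fun w => ¬ |ssum (F w) T y y'| ≤ 2 ^ (6 * e)).card * 2 ^ (12 * e * q) : ℕ) : ℤ)
      ≤ ∑ w, ssum (F w) T y y' ^ (2 * q) := by
    calc (((univ.filter fun w => ¬ |ssum (F w) T y y'| ≤ 2 ^ (6 * e)).card * 2 ^ (12 * e * q) : ℕ) : ℤ)
        = ∑ _w ∈ univ.filter (fun w => ¬ |ssum (F w) T y y'| ≤ 2 ^ (6 * e)), (2 : ℤ) ^ (12 * e * q) := by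
          rw [Finset.sum_const, nsmul_eq_mul]
          push_cast
          ring
      _ ≤ ∑ w ∈ univ.filter (fun w => ¬ |ssum (F w) T y y'| ≤ 2 ^ (6 * e)),
            ssum (F w) T y y' ^ (2 * q) := by
          refine Finset.sum_le_sum fun w hw => ?_
          have hw2 := (Finset.mem_filter.1 hw).2
          rw [not_le] at hw2
          have h3 : ssum (F w) T y y' ^ (2 * q) = |ssum (F w) T y y'| ^ (2 * q) := by
            rw [pow_mul, pow_mul, sq_abs]
          rw [h3]
          calc (2 : ℤ) ^ (12 * e * q) = ((2 : ℤ) ^ (6 * e)) ^ (2 * q) := by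
                rw [← pow_mul]; congr 1; ring
            _ ≤ |ssum (F w) T y y'| ^ (2 * q) := pow_le_pow_left₀ (by positivity) hw2.le _
      _ ≤ ∑ w, ssum (F w) T y y' ^ (2 * q) := by
          refine Finset.sum_le_sum_of_subset_of_nonneg (Finset.subset_univ _) fun w _ _ => ?_
          exact Even.pow_nonneg (even_two_mul q) _
  exact_mod_cast h2.trans h

/-- **union bound** -/
theorem exists_bal (F : Ω → (Fin n → Bool) → Bool) {B q e : ℕ}
    (H : ∀ D : Finset (Fin n → Bool), D.Nonempty → |∑ w, ∏ x ∈ D, sg (F w x)| ≤ (B : ℤ))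
    (hq : 1 ≤ q)
    (hnum : 2 ^ (3 * n) * (Fintype.card Ω * (q ^ (2 * q) * 2 ^ (8 * e * q)) + 2 ^ (16 * e * q) * B)
      < Fintype.card Ω * 2 ^ (12 * e * q)) :
    ∃ w, Bal (F w) e := by
  classical
  by_contra hcon
  push Not at hcon
  set Q : Finset (Finset (Fin n) × (Fin n → Bool) × (Fin n → Bool)) :=
    univ.filter fun t => t.1.card = 8 * e ∧ ∃ i, i ∉ t.1 ∧ t.2.1 i ≠ t.2.2 i with hQ
  have hcov : (univ : Finset Ω) ⊆ Q.biUnion fun t =>
      univ.filter fun w => ¬ |ssum (F w) t.1 t.2.1 t.2.2| ≤ 2 ^ (6 * e) := by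
    intro w _
    have h := hcon w
    unfold Bal at h
    push Not at h
    obtain ⟨T, hT, y, y', hy, hb⟩ := h
    refine Finset.mem_biUnion.2 ⟨(T, y, y'), Finset.mem_filter.2 ⟨Finset.mem_univ _, hT, hy⟩,
      Finset.mem_filter.2 ⟨Finset.mem_univ _, ?_⟩⟩
    rw [not_le]
    exact hb
  have h1 : Fintype.card Ω ≤ ∑ t ∈ Q,
      (univ.filter fun w => ¬ |ssum (F w) t.1 t.2.1 t.2.2| ≤ 2 ^ (6 * e)).card := by
    rw [← Finset.card_univ]
    exact (Finset.card_le_card hcov).trans Finset.card_biUnion_le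
  have h2 : Fintype.card Ω * 2 ^ (12 * e * q) ≤ ∑ t ∈ Q,
      (Fintype.card Ω * (q ^ (2 * q) * 2 ^ (8 * e * q)) + 2 ^ (16 * e * q) * B) := by
    refine (Nat.mul_le_mul_right _ h1).trans ?_
    rw [Finset.sum_mul]
    refine Finset.sum_le_sum fun t ht => ?_
    obtain ⟨_, ht1, ht2⟩ := Finset.mem_filter.1 ht
    have := bad_card F H ht2 (q := q) (e := e) hq
    rw [ht1] at this
    refine this.trans (le_of_eq ?_)
    rw [← pow_mul, ← pow_mul]
    congr 3
    · ring
  have h3 : Q.card ≤ 2 ^ (3 * n) := by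
    refine (Finset.card_filter_le _ _).trans (le_of_eq ?_)
    rw [Finset.card_univ, Fintype.card_prod, Fintype.card_prod, Fintype.card_finset, Fintype.card_fun,
      Fintype.card_bool, Fintype.card_fin, ← pow_add, ← pow_add]
    congr 1
    ring
  rw [Finset.sum_const, smul_eq_mul] at h2
  have h4 := Nat.mul_le_mul_right
    (Fintype.card Ω * (q ^ (2 * q) * 2 ^ (8 * e * q)) + 2 ^ (16 * e * q) * B) h3
  omega

end Pool.Agent.KE
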